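import Mathlib

set_option autoImplicit false
open MeasureTheory Filter Topology Metric Set

namespace Pool.Agent.Helper401.Dw

/-- the point of the circle -/
noncomputable def ex (t : ℝ) : ℂ := Complex.exp ((t : ℂ) * Complex.I)

lemma norm_ex (t : ℝ) : ‖ex t‖ = 1 := by
  unfold ex; exact Complex.norm_exp_ofReal_mul_I t

lemma continuous_ex : Continuous ex := by unfold ex; fun_prop

lemma ex_eq_circleMap (t : ℝ) : ex t = circleMap 0 1 t := by
  simp [ex, circleMap]

/-- Poisson kernel -/
noncomputable def pk (w : ℂ) (t : ℝ) : ℝ :=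
  (1 - ‖w‖ ^ 2) / ‖Complex.exp ((t : ℂ) * Complex.I) - w‖ ^ 2

lemma ex_sub_ne {w : ℂ} (hw : ‖w‖ < 1) (t : ℝ) : ex t - w ≠ 0 := by
  intro h
  have : ex t = w := sub_eq_zero.mp h
  have h1 := norm_ex t
  rw [this] at h1; linarith

lemma pk_nonneg {w : ℂ} (hw : ‖w‖ < 1) (t : ℝ) : 0 ≤ pk w t := by
  unfold pk
  apply div_nonneg
  · have := norm_nonneg w
    nlinarith
  · positivity

lemma continuous_pk {w : ℂ} (hw : ‖w‖ < 1) : Continuous (pk w) := by
  unfold pk
  apply Continuous.div
  · fun_prop
  · fun_prop
  · intro t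
    have := ex_sub_ne hw t
    unfold ex at this
    positivity

noncomputable def hm (w : ℂ) : Measure ℝ :=
  (volume.restrict (Ioc 0 (2 * Real.pi))).withDensity
    (fun t => ENNReal.ofReal (pk w t / (2 * Real.pi)))

lemma integral_hm {w : ℂ} (hw : ‖w‖ < 1) (f : ℝ → ℂ) :
    ∫ t, f t ∂(hm w) = (∫ t in (0:ℝ)..(2 * Real.pi), f t * ((pk w t : ℝ) : ℂ)) / (2 * (Real.pi : ℂ)) := by
  have hpi : (0:ℝ) < 2 * Real.pi := by positivity
  unfold hm
  rw [integral_withDensity_eq_integral_toReal_smul₀]
  · rw [intervalIntegral.integral_of_le hpi.le, ← integral_div]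
    apply integral_congr_ae
    filter_upwards with t
    rw [ENNReal.toReal_ofReal (div_nonneg (pk_nonneg hw t) hpi.le)]
    rw [Complex.real_smul]
    push_cast
    ring
  · exact ((continuous_pk hw).div_const _).measurable.ennreal_ofReal.aemeasurable
  · filter_upwards with t
    exact ENNReal.ofReal_lt_top

lemma integral_hm_poisson {w : ℂ} (hw : ‖w‖ < 1) {q : ℂ → ℂ} (hq : DiffContOnCl ℂ q (ball 0 1)) :
    ∫ t, q (ex t) ∂(hm w) = q w := by
  rw [integral_hm hw]
  have := hq.circleAverage_poissonKernel_smul' (w := w) (by simpa using hw)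
  rw [Real.circleAverage_def] at this
  rw [← this]
  rw [Complex.real_smul, div_eq_inv_mul]
  congr 1
  · push_cast; rfl
  · apply intervalIntegral.integral_congr
    intro t _
    simp only [pk]
    rw [← ex_eq_circleMap]
    have h1 := norm_ex t
    simp only [sub_zero, h1]
    rw [mul_comm]
    simp only [ex]
    norm_num

instance isProb (w : ℂ) [hw : Fact (‖w‖ < 1)] : IsProbabilityMeasure (hm w) := by
  have hpi : (0:ℝ) < 2 * Real.pi := by positivity
  have hw := hw.out
  have h := integral_hm_poisson hw (q := fun _ => 1) (diffContOnCl_const)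
  constructor
  have hfin : hm w univ < ⊤ := by
    unfold hm
    rw [withDensity_apply _ MeasurableSet.univ]
    simp only [Measure.restrict_univ]
    have : IntegrableOn (fun t => pk w t / (2 * Real.pi)) (Ioc 0 (2 * Real.pi)) volume := by
      apply Continuous.integrableOn_Ioc
      exact (continuous_pk hw).div_const _
    have := this.lintegral_lt_top
    exact this
  simp only [integral_const, Complex.real_smul, mul_one] at h
  have h2 : (hm w).real univ = 1 := by exact_mod_cast h
  rw [measureReal_def] at h2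
  have := ENNReal.ofReal_toReal hfin.ne
  rw [← this, h2]; simp

lemma hm_ac (w : ℂ) : hm w ≪ volume := by
  unfold hm
  exact (withDensity_absolutelyContinuous _ _).trans (Measure.absolutelyContinuous_of_le Measure.restrict_le_self)

end Pool.Agent.Helper401.Dw
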