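import Pool.Agent.Helper401.Dw1

set_option autoImplicit false
open MeasureTheory Filter Topology Metric Set
open scoped ComplexConjugate

namespace Pool.Agent.Helper401.Dw

noncomputable def a (n : ℕ) : ℝ := (1/2)^(n+1)
noncomputable def ze (n : ℕ) : ℂ := ⟨Real.sqrt (1 - (a n)^2), a n⟩
noncomputable def D (n : ℕ) : ℝ := (a n)^2/100
noncomputable def de (n : ℕ) : ℝ := D n * (a n)^2
noncomputable def r (n : ℕ) : ℝ := 1 - de n
noncomputable def zz (n : ℕ) : ℂ := (r n : ℂ) * ze n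

lemma a_pos (n : ℕ) : 0 < a n := by unfold a; positivity
lemma a_le (n : ℕ) : a n ≤ 1/2 := by
  unfold a
  rw [pow_succ]
  have : ((1:ℝ)/2)^n ≤ 1 := pow_le_one₀ (by norm_num) (by norm_num)
  linarith
lemma a_anti {n m : ℕ} (h : n < m) : a m ≤ a n / 2 := by
  unfold a
  have : ((1:ℝ)/2)^(m+1) ≤ (1/2)^(n+1+1) := pow_le_pow_of_le_one (by norm_num) (by norm_num) (by omega)
  rw [pow_succ _ (n+1)] at this
  linarith

lemma D_pos (n : ℕ) : 0 < D n := by unfold D; have := a_pos n; positivity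
lemma D_le (n : ℕ) : D n ≤ 1/400 := by
  unfold D; have := a_pos n; have := a_le n; nlinarith
lemma de_pos (n : ℕ) : 0 < de n := by unfold de; have := a_pos n; have := D_pos n; positivity
lemma de_le (n : ℕ) : de n ≤ 1/1600 := by
  unfold de
  have h1 := a_pos n; have h2 := a_le n; have h3 := D_pos n; have h4 := D_le n
  have h5 : (a n)^2 ≤ 1/4 := by nlinarith
  nlinarith [sq_nonneg (a n)]
lemma r_pos (n : ℕ) : 0 < r n := by unfold r; have := de_le n; linarith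
lemma r_lt (n : ℕ) : r n < 1 := by unfold r; have := de_pos n; linarith

lemma norm_ze (n : ℕ) : ‖ze n‖ = 1 := by
  have h1 := a_pos n; have h2 := a_le n
  have h3 : (0:ℝ) ≤ 1 - (a n)^2 := by nlinarith
  have h : ‖ze n‖^2 = 1 := by
    rw [← Complex.normSq_eq_norm_sq, Complex.normSq_apply]
    simp only [ze]
    rw [Real.mul_self_sqrt h3]; ring
  have h0 := norm_nonneg (ze n)
  nlinarith

lemma conj_ze_mul (n : ℕ) : conj (ze n) * ze n = 1 := by
  rw [mul_comm, Complex.mul_conj, Complex.normSq_eq_norm_sq, norm_ze]; norm_num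

lemma norm_zz (n : ℕ) : ‖zz n‖ = r n := by
  unfold zz
  rw [norm_mul, norm_ze, Complex.norm_real, Real.norm_eq_abs, abs_of_pos (r_pos n), mul_one]

lemma norm_zz_lt (n : ℕ) : ‖zz n‖ < 1 := by rw [norm_zz]; exact r_lt n

instance (n : ℕ) : Fact (‖zz n‖ < 1) := ⟨norm_zz_lt n⟩

lemma zz_im (n : ℕ) : (zz n).im = r n * a n := by
  simp [zz, ze]

/-- denominators -/
noncomputable def den (n : ℕ) (z : ℂ) : ℂ := 1 + (D n : ℂ) - conj (ze n) * z
noncomputable def kk (n : ℕ) (z : ℂ) : ℂ := (D n : ℂ) / den n z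
noncomputable def K (n : ℕ) (z : ℂ) : ℂ := (kk n z)^2
noncomputable def bb (n : ℕ) (z : ℂ) : ℂ := (conj (ze n) * z - r n) / (1 - r n * (conj (ze n) * z))

lemma norm_om (n : ℕ) (z : ℂ) : ‖conj (ze n) * z‖ = ‖z‖ := by
  rw [norm_mul, Complex.norm_conj, norm_ze, one_mul]

lemma re_om_le {n : ℕ} {z : ℂ} (hz : ‖z‖ ≤ 1) : (conj (ze n) * z).re ≤ 1 := by
  calc (conj (ze n) * z).re ≤ ‖conj (ze n) * z‖ := Complex.re_le_norm _
    _ ≤ 1 := by rw [norm_om]; exact hz

lemma den_re {n : ℕ} {z : ℂ} (hz : ‖z‖ ≤ 1) : D n ≤ (den n z).re := by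
  have := re_om_le (n := n) hz
  unfold den
  simp only [Complex.sub_re, Complex.add_re, Complex.one_re, Complex.ofReal_re]
  linarith

lemma den_ne {n : ℕ} {z : ℂ} (hz : ‖z‖ ≤ 1) : den n z ≠ 0 := by
  intro h
  have := den_re (n := n) hz
  rw [h] at this
  have h2 := D_pos n
  simp at this; linarith

lemma kk_norm_sq_le {n : ℕ} {z : ℂ} (hz : ‖z‖ ≤ 1) : ‖kk n z‖^2 ≤ (kk n z).re := by
  have h1 := den_re (n := n) hz
  have h2 := den_ne (n := n) hz
  have h3 := D_pos n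
  have h4 : 0 < Complex.normSq (den n z) := Complex.normSq_pos.mpr h2
  unfold kk
  rw [norm_div, div_pow, Complex.div_re]
  simp only [Complex.ofReal_re, Complex.ofReal_im, zero_mul, zero_div, add_zero, Complex.norm_real,
    Real.norm_eq_abs, sq_abs]
  rw [← Complex.normSq_eq_norm_sq]
  rw [div_le_div_iff_of_pos_right h4]
  nlinarith

lemma kk_norm_le {n : ℕ} {z : ℂ} (hz : ‖z‖ ≤ 1) : ‖kk n z‖ ≤ 1 := by
  have h1 := kk_norm_sq_le (n := n) hz
  have h2 := Complex.re_le_norm (kk n z)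
  have h3 := norm_nonneg (kk n z)
  nlinarith

lemma one_sub_kk_norm_sq_le {n : ℕ} {z : ℂ} (hz : ‖z‖ ≤ 1) : ‖1 - kk n z‖^2 ≤ 1 - (kk n z).re := by
  have h1 := kk_norm_sq_le (n := n) hz
  have : ‖1 - kk n z‖^2 = 1 - 2 * (kk n z).re + ‖kk n z‖^2 := by
    rw [← Complex.normSq_eq_norm_sq, ← Complex.normSq_eq_norm_sq, Complex.normSq_sub]
    simp
    ring
  rw [this]; linarith

lemma den_ge {n : ℕ} {z : ℂ} (hz : ‖z‖ ≤ 1) : |z.im - a n| ≤ ‖den n z‖ := by
  have h1 : ‖ze n - z‖ = ‖1 - conj (ze n) * z‖ := by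
    rw [← conj_ze_mul n, ← mul_sub, norm_mul, Complex.norm_conj, norm_ze, one_mul]
  have h2 : |z.im - a n| ≤ ‖ze n - z‖ := by
    have := Complex.abs_im_le_norm (ze n - z)
    rw [abs_sub_comm]
    simpa [ze] using this
  have h3 : ‖1 - conj (ze n) * z‖ ≤ ‖den n z‖ := by
    apply le_of_sq_le_sq _ (norm_nonneg _)
    rw [← Complex.normSq_eq_norm_sq, ← Complex.normSq_eq_norm_sq, Complex.normSq_apply,
      Complex.normSq_apply]
    have h4 := re_om_le (n := n) hz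
    have h5 := D_pos n
    unfold den
    simp only [Complex.sub_re, Complex.add_re, Complex.one_re, Complex.ofReal_re, Complex.sub_im,
      Complex.add_im, Complex.one_im, Complex.ofReal_im]
    nlinarith
  linarith

lemma kk_le_div {n : ℕ} {z : ℂ} (hz : ‖z‖ ≤ 1) (h : a n / 4 ≤ |z.im - a n|) : ‖kk n z‖ ≤ a n / 25 := by
  have h1 := den_ge (n := n) hz
  have h2 := a_pos n
  have h3 := D_pos n
  have h4 : 0 < ‖den n z‖ := norm_pos_iff.mpr (den_ne hz)
  unfold kk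
  rw [norm_div, Complex.norm_real, Real.norm_eq_abs, abs_of_pos h3, div_le_iff₀ h4]
  unfold D
  nlinarith

lemma kk_one {n : ℕ} : ‖kk n 1‖ ≤ a n / 100 := by
  have hz : ‖(1:ℂ)‖ ≤ 1 := by simp
  have h1 := den_ge (n := n) hz
  have h2 := a_pos n
  have h3 := D_pos n
  have h4 : 0 < ‖den n 1‖ := norm_pos_iff.mpr (den_ne hz)
  simp only [Complex.one_im, zero_sub, abs_neg, abs_of_pos h2] at h1
  unfold kk
  rw [norm_div, Complex.norm_real, Real.norm_eq_abs, abs_of_pos h3, div_le_iff₀ h4]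
  unfold D
  nlinarith

lemma strip_unique {y : ℝ} {n m : ℕ} (hnm : n < m) (hn : |y - a n| < a n / 4) : a m / 4 ≤ |y - a m| := by
  have h1 := a_anti hnm
  have h2 := a_pos m
  have h3 := a_pos n
  rw [abs_lt] at hn
  rw [le_abs]; left
  linarith

lemma strip_unique' {y : ℝ} {n m : ℕ} (hnm : m < n) (hn : |y - a n| < a n / 4) : a m / 4 ≤ |y - a m| := by
  have h1 := a_anti hnm
  have h2 := a_pos m
  have h3 := a_pos n
  rw [abs_lt] at hn
  rw [le_abs]; right
  linarith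

lemma exists_star (y : ℝ) : ∃ n : ℕ, ∀ m, m ≠ n → a m / 4 ≤ |y - a m| := by
  by_cases h : ∃ n, |y - a n| < a n / 4
  · obtain ⟨n, hn⟩ := h
    refine ⟨n, fun m hm => ?_⟩
    rcases lt_or_gt_of_ne hm with h1 | h1
    · exact strip_unique' h1 hn
    · exact strip_unique h1 hn
  · push Not at h
    exact ⟨0, fun m _ => h m⟩

lemma zz_strip {n m : ℕ} (hm : m ≠ n) : a m / 4 ≤ |(zz n).im - a m| := by
  have h : |(zz n).im - a n| < a n / 4 := by
    rw [zz_im]
    have h1 := a_pos n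
    have h2 := de_pos n
    have h3 := de_le n
    unfold r
    rw [abs_lt]
    constructor <;> nlinarith
  rcases lt_or_gt_of_ne hm with h1 | h1
  · exact strip_unique' h1 h
  · exact strip_unique h1 h

lemma bb_den_ne {n : ℕ} {z : ℂ} (hz : ‖z‖ ≤ 1) : 1 - (r n : ℂ) * (conj (ze n) * z) ≠ 0 := by
  intro h
  have h1 : (r n : ℂ) * (conj (ze n) * z) = 1 := by
    rw [sub_eq_zero] at h; exact h.symm
  have h2 : ‖(r n : ℂ) * (conj (ze n) * z)‖ < 1 := by
    rw [norm_mul, norm_om, Complex.norm_real, Real.norm_eq_abs, abs_of_pos (r_pos n)]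
    have := r_lt n; have := r_pos n; nlinarith [norm_nonneg z]
  rw [h1] at h2; simp at h2

lemma bb_sq (n : ℕ) (z : ℂ) : ‖1 - (r n : ℂ) * (conj (ze n) * z)‖^2 - ‖conj (ze n) * z - r n‖^2
    = (1 - (r n)^2) * (1 - ‖z‖^2) := by
  rw [← norm_om n z, ← Complex.normSq_eq_norm_sq, ← Complex.normSq_eq_norm_sq, ← Complex.normSq_eq_norm_sq,
    Complex.normSq_apply, Complex.normSq_apply, Complex.normSq_apply]
  generalize conj (ze n) * z = w
  simp
  ring

lemma bb_norm_le {n : ℕ} {z : ℂ} (hz : ‖z‖ ≤ 1) : ‖bb n z‖ ≤ 1 := by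
  have h1 := bb_sq n z
  have h2 := norm_pos_iff.mpr (bb_den_ne (n := n) hz)
  have h3 := r_lt n
  have h4 := r_pos n
  unfold bb
  rw [norm_div, div_le_one h2]
  apply le_of_sq_le_sq _ h2.le
  have h5 : 0 ≤ (1 - (r n)^2) * (1 - ‖z‖^2) := by
    apply mul_nonneg
    · nlinarith
    · nlinarith [norm_nonneg z]
  linarith

lemma bb_norm_eq {n : ℕ} {z : ℂ} (hz : ‖z‖ = 1) : ‖bb n z‖ = 1 := by
  have h1 := bb_sq n z
  have h2 := norm_pos_iff.mpr (bb_den_ne (n := n) hz.le)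
  unfold bb
  rw [norm_div, div_eq_one_iff_eq h2.ne']
  rw [hz] at h1
  have h5 : ‖1 - (r n : ℂ) * (conj (ze n) * z)‖^2 = ‖conj (ze n) * z - r n‖^2 := by linarith
  exact ((sq_eq_sq₀ (norm_nonneg _) (norm_nonneg _)).mp h5).symm

end Pool.Agent.Helper401.Dw
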