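import Pool.Agent.Helper401.Dw2

set_option autoImplicit false
open MeasureTheory Filter Topology Metric Set
open scoped ComplexConjugate

namespace Pool.Agent.Helper401.Dw

lemma L1 {h : ℝ → ℂ} (hint : IntervalIntegrable h volume 0 (2 * Real.pi))
    (hh : ∀ j : ℕ, 0 < j → ∫ t in (0:ℝ)..(2 * Real.pi), h t * Complex.exp ((j : ℂ) * (t : ℂ) * Complex.I) = 0)
    {q : ℂ → ℂ} {R : NNReal} (hR : 1 < R) (hq : DifferentiableOn ℂ q (closedBall 0 R)) :
    ∫ t in (0:ℝ)..(2 * Real.pi), h t * (ex t * q (ex t)) = 0 := by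
  have hpi : (0:ℝ) < 2 * Real.pi := by positivity
  have hps := hq.hasFPowerSeriesOnBall (by exact_mod_cast (zero_lt_one.trans hR))
  obtain ⟨r', hr1, hr2⟩ := exists_between hR
  have hunif := hps.tendstoUniformlyOn (r' := r') (by exact_mod_cast hr2)
  set p := cauchyPowerSeries q 0 R with hp
  rw [Metric.tendstoUniformlyOn_iff] at hunif
  -- partial sums give zero
  have hz : ∀ n, ∫ t in (0:ℝ)..(2 * Real.pi), h t * (ex t * p.partialSum n (ex t)) = 0 := by
    intro n
    have : ∀ t, h t * (ex t * p.partialSum n (ex t)) =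
        ∑ k ∈ Finset.range n, (p.coeff k) * (h t * Complex.exp (((k+1 : ℕ) : ℂ) * (t : ℂ) * Complex.I)) := by
      intro t
      unfold FormalMultilinearSeries.partialSum
      rw [Finset.mul_sum, Finset.mul_sum]
      apply Finset.sum_congr rfl
      intro k _
      rw [FormalMultilinearSeries.apply_eq_pow_smul_coeff, smul_eq_mul]
      have : Complex.exp (((k+1 : ℕ) : ℂ) * (t : ℂ) * Complex.I) = ex t ^ (k+1) := by
        unfold ex
        rw [← Complex.exp_nat_mul]
        congr 1; push_cast; ring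
      rw [this]; ring
    simp_rw [this]
    rw [intervalIntegral.integral_finsetSum]
    · apply Finset.sum_eq_zero
      intro k _
      rw [intervalIntegral.integral_const_mul, hh (k+1) (by omega), mul_zero]
    · intro k _
      apply IntervalIntegrable.const_mul
      apply hint.mul_continuousOn
      fun_prop
  have hc : ContinuousOn (fun t : ℝ => ex t * q (ex t)) (uIcc 0 (2 * Real.pi)) := by
    apply ContinuousOn.mul continuous_ex.continuousOn
    apply hq.continuousOn.comp continuous_ex.continuousOn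
    intro t _
    simp only [mem_closedBall, dist_zero_right, norm_ex]
    exact_mod_cast hR.le
  have hcn : ∀ n, ContinuousOn (fun t : ℝ => ex t * p.partialSum n (ex t)) (uIcc 0 (2 * Real.pi)) := by
    intro n
    apply ContinuousOn.mul continuous_ex.continuousOn
    exact ((p.partialSum_continuous n).comp continuous_ex).continuousOn
  by_contra hne
  have hpos : 0 < ‖∫ t in (0:ℝ)..(2 * Real.pi), h t * (ex t * q (ex t))‖ := norm_pos_iff.mpr hne
  set C := ∫ t in (0:ℝ)..(2 * Real.pi), ‖h t‖ with hC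
  have hC0 : 0 ≤ C := intervalIntegral.integral_nonneg hpi.le (fun t _ => norm_nonneg _)
  obtain ⟨n, hn⟩ := (hunif (‖∫ t in (0:ℝ)..(2 * Real.pi), h t * (ex t * q (ex t))‖ / (C + 1)) (by positivity)).exists
  have key : ‖∫ t in (0:ℝ)..(2 * Real.pi), h t * (ex t * q (ex t))‖ ≤
      C * (‖∫ t in (0:ℝ)..(2 * Real.pi), h t * (ex t * q (ex t))‖ / (C + 1)) := by
    calc ‖∫ t in (0:ℝ)..(2 * Real.pi), h t * (ex t * q (ex t))‖
        = ‖(∫ t in (0:ℝ)..(2 * Real.pi), h t * (ex t * q (ex t))) -
            ∫ t in (0:ℝ)..(2 * Real.pi), h t * (ex t * p.partialSum n (ex t))‖ := by rw [hz n, sub_zero]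
      _ = ‖∫ t in (0:ℝ)..(2 * Real.pi), (h t * (ex t * q (ex t)) - h t * (ex t * p.partialSum n (ex t)))‖ := by
          rw [intervalIntegral.integral_sub]
          · exact hint.mul_continuousOn hc
          · exact hint.mul_continuousOn (hcn n)
      _ ≤ ∫ t in (0:ℝ)..(2 * Real.pi), ‖h t‖ * (‖∫ t in (0:ℝ)..(2 * Real.pi), h t * (ex t * q (ex t))‖ / (C + 1)) := by
          apply intervalIntegral.norm_integral_le_of_norm_le hpi.le
          · filter_upwards with t _
            rw [← mul_sub, ← mul_sub, norm_mul, norm_mul, norm_ex, one_mul]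
            apply mul_le_mul_of_nonneg_left _ (norm_nonneg _)
            have := hn (ex t) (by simp only [mem_ball, dist_zero_right, norm_ex]; exact_mod_cast hr1)
            rw [dist_eq_norm, zero_add] at this
            exact this.le
          · exact hint.norm.mul_const _
      _ = _ := by rw [intervalIntegral.integral_mul_const]
  have : C * (‖∫ t in (0:ℝ)..(2 * Real.pi), h t * (ex t * q (ex t))‖ / (C + 1)) <
      ‖∫ t in (0:ℝ)..(2 * Real.pi), h t * (ex t * q (ex t))‖ := by
    rw [mul_div_assoc', div_lt_iff₀ (by positivity)]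
    nlinarith
  linarith

lemma ze_inv (n : ℕ) (t : ℝ) : conj (conj (ze n) * ex t) * (conj (ze n) * ex t) = 1 := by
  rw [mul_comm, Complex.mul_conj, Complex.normSq_eq_norm_sq, norm_om, norm_ex]; norm_num

lemma pk_zz (n : ℕ) (t : ℝ) : ((pk (zz n) t : ℝ) : ℂ) =
    (1 - (r n : ℂ)^2) / ((1 - r n * (conj (ze n) * ex t)) * (1 - r n * conj (conj (ze n) * ex t))) := by
  have h1 : ‖ex t - zz n‖ = ‖1 - (r n : ℂ) * conj (conj (ze n) * ex t)‖ := by
    have : ex t - zz n = ze n * ((conj (ze n) * ex t) * (1 - (r n : ℂ) * conj (conj (ze n) * ex t))) := by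
      have e1 := ze_inv n t
      have e2 := conj_ze_mul n
      unfold zz
      have : ze n * ((conj (ze n) * ex t) * (1 - (r n : ℂ) * conj (conj (ze n) * ex t)))
        = (conj (ze n) * ze n) * ex t - ze n * (r n : ℂ) * (conj (conj (ze n) * ex t) * (conj (ze n) * ex t)) := by ring
      rw [this, e1, e2]; ring
    rw [this, norm_mul, norm_ze, one_mul, norm_mul, norm_om, norm_ex, one_mul]
  unfold pk
  change (((1 - ‖zz n‖^2) / ‖ex t - zz n‖^2 : ℝ) : ℂ) = _
  rw [h1, norm_zz]
  have h2 : (1 - (r n : ℂ) * (conj (ze n) * ex t)) * (1 - r n * conj (conj (ze n) * ex t)) =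
      ((‖1 - (r n : ℂ) * conj (conj (ze n) * ex t)‖^2 : ℝ) : ℂ) := by
    rw [← Complex.normSq_eq_norm_sq, ← Complex.mul_conj]
    simp only [map_sub, map_one, map_mul, Complex.conj_conj, Complex.conj_ofReal]
    ring
  rw [h2]
  push_cast
  rfl

lemma bb_pk (n : ℕ) (j : ℕ) (t : ℝ) : (bb n (ex t))^(j+1) * ((pk (zz n) t : ℝ) : ℂ) =
    ex t * ((1 - (r n : ℂ)^2) * conj (ze n) * (conj (ze n) * ex t - r n)^j /
      (1 - r n * (conj (ze n) * ex t))^(j+2)) := by
  rw [pk_zz]
  have hd := bb_den_ne (n := n) (z := ex t) (norm_ex t).le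
  have e1 := ze_inv n t
  unfold bb
  have e3 : ex t * ((1 - (r n : ℂ)^2) * conj (ze n) * (conj (ze n) * ex t - r n)^j /
      (1 - r n * (conj (ze n) * ex t))^(j+2)) = (conj (ze n) * ex t) * ((1 - (r n : ℂ)^2) * (conj (ze n) * ex t - r n)^j /
      (1 - r n * (conj (ze n) * ex t))^(j+2)) := by ring
  rw [e3]
  have hd2 : 1 - (r n : ℂ) * conj (conj (ze n) * ex t) ≠ 0 := by
    intro h
    apply hd
    have := congrArg conj h
    simpa using this
  generalize conj (ze n) * ex t = w at *
  have e4 : w - r n = w * (1 - r n * conj w) := by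
    have : w * (1 - r n * conj w) = w - r n * (conj w * w) := by ring
    rw [this, e1]; ring
  rw [e4]
  rw [div_pow, div_mul_div_comm, mul_div_assoc', div_eq_div_iff]
  · ring
  · exact mul_ne_zero (pow_ne_zero _ hd) (mul_ne_zero hd hd2)
  · exact pow_ne_zero _ hd

lemma P3 {h : ℝ → ℂ} (hint : IntervalIntegrable h volume 0 (2 * Real.pi))
    (hh : ∀ j : ℕ, 0 < j → ∫ t in (0:ℝ)..(2 * Real.pi), h t * Complex.exp ((j : ℂ) * (t : ℂ) * Complex.I) = 0)
    (n j : ℕ) : ∫ t, h t * (bb n (ex t))^(j+1) ∂(hm (zz n)) = 0 := by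
  rw [integral_hm (norm_zz_lt n)]
  have hR : 1 < (1 + de n / 2) := by have := de_pos n; linarith
  have := L1 (R := ⟨1 + de n / 2, by linarith⟩) hint hh (by exact_mod_cast hR)
    (q := fun z => (1 - (r n : ℂ)^2) * conj (ze n) * (conj (ze n) * z - r n)^j /
      (1 - r n * (conj (ze n) * z))^(j+2)) ?_
  · simp_rw [mul_assoc, bb_pk]
    simp only [mul_assoc] at this ⊢
    rw [this, zero_div]
  · apply DifferentiableOn.div
    · fun_prop
    · fun_prop
    · intro z hz
      apply pow_ne_zero
      intro h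
      have h1 : (r n : ℂ) * (conj (ze n) * z) = 1 := by
        rw [sub_eq_zero] at h; exact h.symm
      have h2 : ‖(r n : ℂ) * (conj (ze n) * z)‖ < 1 := by
        rw [norm_mul, norm_om, Complex.norm_real, Real.norm_eq_abs, abs_of_pos (r_pos n)]
        simp only [mem_closedBall, dist_zero_right] at hz
        change ‖z‖ ≤ 1 + de n / 2 at hz
        have h3 := r_pos n
        have h4 := de_pos n
        calc r n * ‖z‖ ≤ r n * (1 + de n / 2) := by gcongr
          _ < 1 := by unfold r; nlinarith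
      rw [h1] at h2; simp at h2

lemma diffcl_kk (n : ℕ) : DiffContOnCl ℂ (kk n) (ball 0 1) := by
  apply DifferentiableOn.diffContOnCl
  rw [closure_ball _ one_ne_zero]
  unfold kk
  apply DifferentiableOn.div
  · fun_prop
  · unfold den; fun_prop
  · intro z hz
    exact den_ne (by simpa using hz)

lemma diffcl_K (n : ℕ) : DiffContOnCl ℂ (K n) (ball 0 1) := by
  have := diffcl_kk n
  have h2 := this.smul this
  unfold K
  simpa only [smul_eq_mul, pow_two] using h2

lemma diffcl_bb (n : ℕ) : DiffContOnCl ℂ (bb n) (ball 0 1) := by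
  apply DifferentiableOn.diffContOnCl
  rw [closure_ball _ one_ne_zero]
  unfold bb
  apply DifferentiableOn.div
  · fun_prop
  · fun_prop
  · intro z hz
    exact bb_den_ne (by simpa using hz)

lemma bb_zz (n : ℕ) : bb n (zz n) = 0 := by
  unfold bb zz
  have : conj (ze n) * ((r n : ℂ) * ze n) - r n = (r n : ℂ) * (conj (ze n) * ze n) - r n := by ring
  rw [this, conj_ze_mul]; simp

lemma int_bb_pow (n j : ℕ) : ∫ t, (bb n (ex t))^(j+1) ∂(hm (zz n)) = 0 := by
  have h : DiffContOnCl ℂ (fun z => (bb n z)^(j+1)) (ball 0 1) := by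
    induction j with
    | zero => simpa using diffcl_bb n
    | succ k ih =>
      have := ih.smul (diffcl_bb n)
      simpa only [smul_eq_mul, ← pow_succ] using this
  rw [integral_hm_poisson (norm_zz_lt n) h, bb_zz]
  simp

end Pool.Agent.Helper401.Dw
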