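import Pool.Agent.Helper401.Dw3

set_option autoImplicit false
open MeasureTheory Filter Topology Metric Set
open scoped ComplexConjugate

namespace Pool.Agent.Helper401.Dw

abbrev U := UnitAddCircle
noncomputable abbrev hU : Measure U := AddCircle.haarAddCircle

/-- a continuous function on the circle with no negative Fourier coefficients -/
def Ana (F : C(U, ℂ)) : Prop := ∀ j : ℕ, fourierCoeff F (-((j : ℤ) + 1)) = 0

lemma fc_star (F : C(U, ℂ)) (i : ℤ) : fourierCoeff (star F : C(U, ℂ)) i = conj (fourierCoeff F (-i)) := by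
  unfold fourierCoeff
  rw [← integral_conj]
  congr 1
  ext x
  simp only [smul_eq_mul, map_mul, ContinuousMap.star_apply, neg_neg]
  rw [fourier_neg]
  rfl

lemma fc_zero (F : C(U, ℂ)) : fourierCoeff F 0 = ∫ x, F x ∂hU := by
  unfold fourierCoeff
  simp

lemma L5 (F G : C(U, ℂ)) (hF : Ana F) (hG : Ana G) :
    ∫ x, F x * G x ∂hU = (∫ x, F x ∂hU) * (∫ x, G x ∂hU) := by
  have hs := (fourierBasis (T := 1)).hasSum_inner_mul_inner
    (ContinuousMap.toLp 2 hU ℂ (star F)) (ContinuousMap.toLp 2 hU ℂ G)
  rw [ContinuousMap.inner_toLp] at hs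
  have e1 : ∫ x, G x * conj ((star F : C(U, ℂ)) x) ∂hU = ∫ x, F x * G x ∂hU := by
    congr 1
    ext x
    simp [mul_comm]
  rw [e1] at hs
  have e2 : ∀ i : ℤ, inner ℂ (ContinuousMap.toLp 2 hU ℂ (star F)) (fourierBasis (T := 1) i) *
      inner ℂ (fourierBasis (T := 1) i) (ContinuousMap.toLp 2 hU ℂ G) =
      fourierCoeff F (-i) * fourierCoeff G i := by
    intro i
    rw [← (fourierBasis (T := 1)).repr_apply_apply, fourierBasis_repr, fourierCoeff_toLp,
      ← inner_conj_symm, ← (fourierBasis (T := 1)).repr_apply_apply, fourierBasis_repr,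
      fourierCoeff_toLp, fc_star]
    simp
  simp_rw [e2] at hs
  have e3 : ∀ i : ℤ, i ≠ 0 → fourierCoeff F (-i) * fourierCoeff G i = 0 := by
    intro i hi
    rcases lt_or_gt_of_ne hi with h | h
    · obtain ⟨j, hj⟩ := Int.eq_ofNat_of_zero_le (show 0 ≤ -i - 1 by omega)
      have : i = -((j : ℤ) + 1) := by omega
      rw [this, hG j, mul_zero]
    · obtain ⟨j, hj⟩ := Int.eq_ofNat_of_zero_le (show 0 ≤ i - 1 by omega)
      have : i = ((j : ℤ) + 1) := by omega
      rw [this, hF j, zero_mul]
  have hs2 := hasSum_single (f := fun i : ℤ => fourierCoeff F (-i) * fourierCoeff G i) 0 e3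
  have := hs.unique hs2
  rw [this]
  simp only [neg_zero]
  rw [fc_zero, fc_zero]

/-- angle coordinate on block n -/
noncomputable def ang (n : ℕ) (t : ℝ) : U := (((bb n (ex t)).arg / (2 * Real.pi) : ℝ) : U)

lemma fourier_ang (n : ℕ) (j : ℤ) (t : ℝ) : (fourier j (ang n t) : ℂ) = (bb n (ex t))^j := by
  unfold ang
  rw [fourier_coe_apply]
  have h1 : ‖bb n (ex t)‖ = 1 := bb_norm_eq (norm_ex t)
  have h2 : bb n (ex t) = Complex.exp ((bb n (ex t)).arg * Complex.I) := by
    conv_lhs => rw [← Complex.norm_mul_exp_arg_mul_I (bb n (ex t)), h1]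
    simp
  conv_rhs => rw [h2]
  rw [← Complex.exp_int_mul]
  congr 1
  have : (Real.pi : ℂ) ≠ 0 := by exact_mod_cast Real.pi_ne_zero
  push_cast
  field_simp

lemma measurable_ang (n : ℕ) : Measurable (ang n) := by
  unfold ang
  apply AddCircle.measurable_mk'.comp
  apply Measurable.div_const
  apply Complex.measurable_arg.comp
  have : Continuous (fun t => bb n (ex t)) := by
    have h := (diffcl_bb n).continuousOn
    rw [closure_ball _ one_ne_zero] at h
    apply h.comp_continuous continuous_ex
    intro t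
    simp [norm_ex]
  exact this.measurable

lemma int_fourier_ang (n : ℕ) (j : ℤ) : ∫ t, (fourier j (ang n t) : ℂ) ∂(hm (zz n)) = ∫ x, (fourier j x : ℂ) ∂hU := by
  have hR : ∫ x, (fourier j x : ℂ) ∂hU = if j = 0 then 1 else 0 := by
    have := congrFun (fourierCoeff_fourier (T := 1) j) 0
    rw [fc_zero] at this
    rw [this]
    split_ifs with h
    · subst h; simp
    · rw [Pi.single_eq_of_ne]; exact fun h' => h h'.symm
  rw [hR]
  simp_rw [fourier_ang]
  split_ifs with h
  · subst h; simp
  · rcases lt_or_gt_of_ne h with h | h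
    · obtain ⟨k, hk⟩ := Int.eq_ofNat_of_zero_le (show 0 ≤ -j - 1 by omega)
      have hj : j = -((k + 1 : ℕ) : ℤ) := by push_cast; omega
      have e : ∀ t, (bb n (ex t))^j = conj ((bb n (ex t))^(k+1)) := by
        intro t
        rw [hj, zpow_neg, zpow_natCast, map_pow, ← inv_pow]
        congr 1
        rw [Complex.inv_def, Complex.normSq_eq_norm_sq, bb_norm_eq (norm_ex t)]
        simp
      simp_rw [e]
      rw [integral_conj, int_bb_pow, map_zero]
    · obtain ⟨k, hk⟩ := Int.eq_ofNat_of_zero_le (show 0 ≤ j - 1 by omega)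
      have hj : j = ((k + 1 : ℕ) : ℤ) := by push_cast; omega
      rw [hj]
      simp_rw [zpow_natCast]
      exact int_bb_pow n k

lemma integrable_comp {X : Type*} [TopologicalSpace X] [CompactSpace X] [MeasurableSpace X] [BorelSpace X]
    {Y : Type*} [MeasurableSpace Y]
    (ν : Measure Y) [IsFiniteMeasure ν] {g : Y → X} (hg : Measurable g) (H : C(X, ℂ)) :
    Integrable (fun t => H (g t)) ν := by
  apply Integrable.of_bound (C := ‖H‖)
  · exact (H.continuous.measurable.comp hg).aestronglyMeasurable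
  · filter_upwards with t
    exact H.norm_coe_le_norm _

lemma integrable_C {X : Type*} [TopologicalSpace X] [CompactSpace X] [MeasurableSpace X] [BorelSpace X]
    (ν : Measure X) [IsFiniteMeasure ν] (H : C(X, ℂ)) : Integrable (fun t => H t) ν :=
  integrable_comp ν measurable_id H

lemma push (n : ℕ) (H : C(U, ℂ)) : ∫ t, H (ang n t) ∂(hm (zz n)) = ∫ x, H x ∂hU := by
  -- the span
  have hspan : ∀ P ∈ Submodule.span ℂ (range (@fourier (1:ℝ))),
      ∫ t, P (ang n t) ∂(hm (zz n)) = ∫ x, P x ∂hU := by
    intro P hP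
    induction hP using Submodule.span_induction with
    | mem x hx =>
      obtain ⟨j, rfl⟩ := hx
      exact int_fourier_ang n j
    | zero => simp
    | add x y _ _ hx hy =>
      simp only [ContinuousMap.add_apply]
      rw [integral_add (integrable_comp _ (measurable_ang n) x) (integrable_comp _ (measurable_ang n) y),
        integral_add (integrable_C _ x) (integrable_C _ y), hx, hy]
    | smul c x _ hx =>
      simp only [ContinuousMap.smul_apply]
      rw [integral_smul, integral_smul, hx]
  have hden : H ∈ (Submodule.span ℂ (range (@fourier (1:ℝ)))).topologicalClosure := by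
    rw [span_fourier_closure_eq_top]; trivial
  rw [← SetLike.mem_coe, Submodule.topologicalClosure_coe, Metric.mem_closure_iff] at hden
  apply eq_of_forall_dist_le
  intro ε hε
  obtain ⟨P, hP, hd⟩ := hden (ε/2) (by positivity)
  have h1 := hspan P hP
  have h2 : ‖(∫ t, H (ang n t) ∂(hm (zz n))) - ∫ t, P (ang n t) ∂(hm (zz n))‖ ≤ ε/2 := by
    rw [← integral_sub (integrable_comp _ (measurable_ang n) H) (integrable_comp _ (measurable_ang n) P)]
    have := norm_integral_le_of_norm_le_const (μ := hm (zz n)) (C := ε/2) (f := fun t => H (ang n t) - P (ang n t)) ?_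
    · simpa using this
    · filter_upwards with t
      rw [dist_eq_norm] at hd
      exact ((H - P).norm_coe_le_norm _).trans hd.le
  have h3 : ‖(∫ x, H x ∂hU) - ∫ x, P x ∂hU‖ ≤ ε/2 := by
    rw [← integral_sub (integrable_C _ H) (integrable_C _ P)]
    have := norm_integral_le_of_norm_le_const (μ := hU) (C := ε/2) (f := fun t => H t - P t) ?_
    · simpa using this
    · filter_upwards with t
      rw [dist_eq_norm] at hd
      exact ((H - P).norm_coe_le_norm _).trans hd.le
  rw [dist_eq_norm]
  calc ‖(∫ t, H (ang n t) ∂(hm (zz n))) - ∫ x, H x ∂hU‖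
      = ‖((∫ t, H (ang n t) ∂(hm (zz n))) - ∫ t, P (ang n t) ∂(hm (zz n))) -
        ((∫ x, H x ∂hU) - ∫ x, P x ∂hU)‖ := by rw [h1]; congr 1; ring
    _ ≤ _ := norm_sub_le _ _
    _ ≤ ε := by linarith

end Pool.Agent.Helper401.Dw
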