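import Pool.Agent.Helper401.Dw4

set_option autoImplicit false
open MeasureTheory Filter Topology Metric Set
open scoped ComplexConjugate

namespace Pool.Agent.Helper401.Dw

/-- a sequence with every point as a cluster point -/
noncomputable def ga (k : ℕ) : U := TopologicalSpace.denseSeq U (Nat.unpair k).1

lemma ga_cluster (x : U) : MapClusterPt x atTop ga := by
  rw [mapClusterPt_iff_frequently]
  intro s hs
  rw [frequently_atTop]
  intro N
  obtain ⟨o, ho1, ho2, ho3⟩ := _root_.mem_nhds_iff.mp hs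
  obtain ⟨j, hj⟩ := (TopologicalSpace.denseRange_denseSeq U).exists_mem_open ho2 ⟨x, ho3⟩
  refine ⟨Nat.pair j N, Nat.right_le_pair j N, ?_⟩
  apply ho1
  unfold ga
  rw [Nat.unpair_pair]
  exact hj

lemma zero_of_cluster {E : Type*} [NormedAddCommGroup E] {J : U → E} (hJ : Continuous J)
    (h : Tendsto (fun k => J (ga k)) atTop (𝓝 0)) (y : U) : J y = 0 := by
  have h1 : MapClusterPt (J y) atTop (J ∘ ga) := (ga_cluster y).continuousAt_comp hJ.continuousAt
  by_contra hne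
  have hpos : 0 < ‖J y‖ := norm_pos_iff.mpr hne
  rw [mapClusterPt_iff_frequently] at h1
  have h2 := h1 (ball (J y) (‖J y‖/2)) (ball_mem_nhds _ (by positivity))
  have h3 : ∀ᶠ k in atTop, J (ga k) ∈ ball (0:E) (‖J y‖/2) := h (ball_mem_nhds _ (by positivity))
  obtain ⟨k, hk1, hk2⟩ := (h2.and_eventually h3).exists
  simp only [Function.comp_apply, mem_ball, dist_eq_norm, sub_zero] at hk1 hk2
  have : ‖J y‖ ≤ ‖J (ga k) - J y‖ + ‖J (ga k)‖ := by
    calc ‖J y‖ = ‖J (ga k) - (J (ga k) - J y)‖ := by congr 1; abel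
      _ ≤ _ := by rw [add_comm]; exact norm_sub_le _ _
  linarith

noncomputable def sym (n : ℕ) (t : ℝ) : U × U :=
  if Even n then (ang n t, ga (n/2)) else (ga (n/2), ang n t)

lemma sym_even (k : ℕ) (t : ℝ) : sym (2*k) t = (ang (2*k) t, ga k) := by
  unfold sym
  rw [if_pos (even_two_mul k)]
  congr 2
  omega

lemma sym_odd (k : ℕ) (t : ℝ) : sym (2*k+1) t = (ga k, ang (2*k+1) t) := by
  unfold sym
  rw [if_neg (by rw [Nat.not_even_iff_odd]; exact odd_two_mul_add_one k)]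
  congr 2
  omega

lemma measurable_sym (n : ℕ) : Measurable (sym n) := by
  unfold sym
  split_ifs
  · exact (measurable_ang n).prodMk measurable_const
  · exact measurable_const.prodMk (measurable_ang n)

def Bd (f : ℝ → ℂ) (c : ℝ) : Prop := AEStronglyMeasurable f volume ∧ ∀ᵐ t ∂(volume : Measure ℝ), ‖f t‖ ≤ c

/-- G is the symbol of f -/
def Sy (f : ℝ → ℂ) (G : C(U × U, ℂ)) : Prop :=
  Tendsto (fun n => ∫ t, ‖f t - G (sym n t)‖ ∂(hm (zz n))) atTop (𝓝 0)

lemma Bd.integrable {f : ℝ → ℂ} {c : ℝ} (hf : Bd f c) (n : ℕ) : Integrable f (hm (zz n)) := by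
  apply Integrable.of_bound (C := c)
  · exact hf.1.mono_ac (hm_ac _)
  · exact (hm_ac _).ae_le hf.2

lemma Bd.integrable_sub {f : ℝ → ℂ} {c : ℝ} (hf : Bd f c) (G : C(U × U, ℂ)) (n : ℕ) :
    Integrable (fun t => f t - G (sym n t)) (hm (zz n)) :=
  (hf.integrable n).sub (integrable_comp _ (measurable_sym n) G)

lemma Sy_of_le {f f1 f2 : ℝ → ℂ} {G G1 G2 : C(U × U, ℂ)} {C1 C2 c c1 c2 : ℝ} (hb : Bd f c)
    (hb1 : Bd f1 c1) (hb2 : Bd f2 c2)
    (h1 : Sy f1 G1) (h2 : Sy f2 G2)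
    (h : ∀ n, ∀ᵐ t ∂(volume : Measure ℝ), ‖f t - G (sym n t)‖ ≤ C1 * ‖f1 t - G1 (sym n t)‖ + C2 * ‖f2 t - G2 (sym n t)‖) :
    Sy f G := by
  unfold Sy at *
  have h3 := (h1.const_mul C1).add (h2.const_mul C2)
  simp only [mul_zero, add_zero] at h3
  apply squeeze_zero (fun n => integral_nonneg (fun t => norm_nonneg _)) _ h3
  intro n
  have i1 := (hb1.integrable_sub G1 n).norm
  have i2 := (hb2.integrable_sub G2 n).norm
  rw [← integral_const_mul, ← integral_const_mul, ← integral_add (i1.const_mul _) (i2.const_mul _)]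
  apply integral_mono_ae (hb.integrable_sub G n).norm ((i1.const_mul _).add (i2.const_mul _))
  exact (hm_ac _).ae_le (h n)

lemma Bd.add {f g : ℝ → ℂ} {c d : ℝ} (hf : Bd f c) (hg : Bd g d) : Bd (f + g) (c + d) := by
  refine ⟨hf.1.add hg.1, ?_⟩
  filter_upwards [hf.2, hg.2] with t h1 h2
  exact (norm_add_le _ _).trans (add_le_add h1 h2)

lemma Bd.mul {f g : ℝ → ℂ} {c d : ℝ} (hf : Bd f c) (hg : Bd g d) : Bd (f * g) (c * d) := by
  refine ⟨hf.1.mul hg.1, ?_⟩
  filter_upwards [hf.2, hg.2] with t h1 h2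
  simp only [Pi.mul_apply, norm_mul]
  have := (norm_nonneg (f t)).trans h1
  gcongr

lemma Bd.smul {f : ℝ → ℂ} {c : ℝ} (hf : Bd f c) (a : ℂ) : Bd (a • f) (‖a‖ * c) := by
  refine ⟨hf.1.const_smul a, ?_⟩
  filter_upwards [hf.2] with t h1
  simp only [Pi.smul_apply, smul_eq_mul, norm_mul]
  gcongr

lemma Bd.star {f : ℝ → ℂ} {c : ℝ} (hf : Bd f c) : Bd (fun t => star (f t)) c := by
  refine ⟨continuous_star.comp_aestronglyMeasurable hf.1, ?_⟩
  filter_upwards [hf.2] with t h1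
  simpa using h1

lemma Sy.add {f g : ℝ → ℂ} {c d : ℝ} {G H : C(U × U, ℂ)} (hf : Bd f c) (hg : Bd g d) (h1 : Sy f G) (h2 : Sy g H) :
    Sy (f + g) (G + H) := by
  apply Sy_of_le (C1 := 1) (C2 := 1) (hf.add hg) hf hg h1 h2
  intro n
  filter_upwards with t
  simp only [Pi.add_apply, ContinuousMap.add_apply, one_mul]
  calc ‖f t + g t - (G (sym n t) + H (sym n t))‖ = ‖(f t - G (sym n t)) + (g t - H (sym n t))‖ := by congr 1; ring
    _ ≤ _ := norm_add_le _ _

lemma Sy.mul {f g : ℝ → ℂ} {c d : ℝ} {G H : C(U × U, ℂ)} (hf : Bd f c) (hg : Bd g d) (h1 : Sy f G) (h2 : Sy g H) :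
    Sy (f * g) (G * H) := by
  apply Sy_of_le (C1 := ‖H‖) (C2 := c) (hf.mul hg) hf hg h1 h2
  intro n
  filter_upwards [hf.2] with t ht
  simp only [Pi.mul_apply, ContinuousMap.mul_apply]
  calc ‖f t * g t - (G (sym n t) * H (sym n t))‖
      = ‖H (sym n t) * (f t - G (sym n t)) + f t * (g t - H (sym n t))‖ := by congr 1; ring
    _ ≤ _ := norm_add_le _ _
    _ ≤ _ := by
      rw [norm_mul, norm_mul]
      have := H.norm_coe_le_norm (sym n t)
      gcongr

lemma Sy.smul {f : ℝ → ℂ} {c : ℝ} {G : C(U × U, ℂ)} (hf : Bd f c) (h1 : Sy f G) (a : ℂ) :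
    Sy (a • f) (a • G) := by
  apply Sy_of_le (C1 := ‖a‖) (C2 := 0) (hf.smul a) hf hf h1 h1
  intro n
  filter_upwards with t
  simp only [Pi.smul_apply, ContinuousMap.smul_apply, smul_eq_mul, zero_mul, add_zero]
  rw [← mul_sub, norm_mul]

lemma Sy.star {f : ℝ → ℂ} {c : ℝ} {G : C(U × U, ℂ)} (hf : Bd f c) (h1 : Sy f G) :
    Sy (fun t => star (f t)) (star G) := by
  apply Sy_of_le (C1 := 1) (C2 := 0) hf.star hf hf h1 h1
  intro n
  filter_upwards with t
  simp only [ContinuousMap.star_apply, zero_mul, add_zero, one_mul]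
  rw [← star_sub, norm_star]

lemma Sy.congr {f g : ℝ → ℂ} {G : C(U × U, ℂ)} (h1 : Sy f G) (h : f =ᵐ[volume] g) : Sy g G := by
  unfold Sy at *
  refine h1.congr (fun n => ?_)
  apply integral_congr_ae
  have := (hm_ac (zz n)).ae_le h
  filter_upwards [this] with t ht
  rw [ht]

lemma cont_int (F : C(U × U, ℂ)) : Continuous (fun y : U => ∫ x, F (x, y) ∂hU) := by
  have := continuous_parametric_integral_of_continuous (μ := hU) (f := fun (y : U) (x : U) => F (x, y))
    (by exact F.continuous.comp continuous_swap) (s := univ) isCompact_univ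
  simpa using this

lemma cont_int' (F : C(U × U, ℂ)) : Continuous (fun x : U => ∫ y, F (x, y) ∂hU) := by
  have := continuous_parametric_integral_of_continuous (μ := hU) (f := fun (x : U) (y : U) => F (x, y))
    (by exact F.continuous) (s := univ) isCompact_univ
  simpa using this

lemma tendsto_even {f : ℝ → ℂ} {G : C(U × U, ℂ)} (h : Sy f G) :
    Tendsto (fun k => ∫ t, ‖f t - G (sym (2*k) t)‖ ∂(hm (zz (2*k)))) atTop (𝓝 0) :=
  h.comp (tendsto_atTop_mono (fun k => by simp only [id]; omega) tendsto_id)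

lemma tendsto_odd {f : ℝ → ℂ} {G : C(U × U, ℂ)} (h : Sy f G) :
    Tendsto (fun k => ∫ t, ‖f t - G (sym (2*k+1) t)‖ ∂(hm (zz (2*k+1)))) atTop (𝓝 0) :=
  h.comp (tendsto_atTop_mono (fun k => by simp only [id]; omega) tendsto_id)

/-- norm bound for symbols -/
lemma Sy.norm_le {f : ℝ → ℂ} {c : ℝ} {G : C(U × U, ℂ)} (hf : Bd f c) (h1 : Sy f G) (p : U × U) : ‖G p‖ ≤ c := by
  obtain ⟨x, y⟩ := p
  let F : C(U × U, ℂ) := ⟨fun q => ((max (‖G q‖ - c) 0 : ℝ) : ℂ), by fun_prop⟩
  have hF : ∀ q, F q = ((max (‖G q‖ - c) 0 : ℝ) : ℂ) := fun q => rfl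
  have h0 : ∀ y, ∫ x, F (x, y) ∂hU = 0 := by
    apply zero_of_cluster (cont_int F)
    have h2 := tendsto_even h1
    apply squeeze_zero_norm _ h2
    intro k
    let H : C(U, ℂ) := ⟨fun x => F (x, ga k), by fun_prop⟩
    have hp := push (2*k) H
    have hH : ∀ x, H x = F (x, ga k) := fun x => rfl
    simp only [hH] at hp
    rw [← hp]
    refine (norm_integral_le_integral_norm _).trans ?_
    apply integral_mono_ae
    · exact (integrable_comp _ (measurable_ang (2*k)) H).norm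
    · exact (hf.integrable_sub G _).norm
    · filter_upwards [(hm_ac (zz (2*k))).ae_le hf.2] with t ht
      rw [hF, sym_even, Complex.norm_real, Real.norm_eq_abs, abs_of_nonneg (le_max_right _ _)]
      apply max_le _ (norm_nonneg _)
      have := norm_sub_norm_le (G (ang (2*k) t, ga k)) (f t)
      rw [norm_sub_rev] at this
      linarith
  have h3 := h0 y
  have h4 : ∫ x, (max (‖G (x, y)‖ - c) 0 : ℝ) ∂hU = 0 := by
    have : ∫ x, F (x, y) ∂hU = ((∫ x, (max (‖G (x, y)‖ - c) 0 : ℝ) ∂hU : ℝ) : ℂ) :=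
      integral_ofReal (𝕜 := ℂ) (μ := hU) (f := fun x => (max (‖G (x, y)‖ - c) 0 : ℝ))
    rw [this] at h3
    exact_mod_cast h3
  have hcont : Continuous (fun x : U => (max (‖G (x, y)‖ - c) 0 : ℝ)) := by fun_prop
  have hint : Integrable (fun x : U => (max (‖G (x, y)‖ - c) 0 : ℝ)) hU := by
    apply hcont.integrable_of_hasCompactSupport
    exact HasCompactSupport.of_compactSpace _
  have h4' := (integral_eq_zero_iff_of_nonneg (f := fun x : U => (max (‖G (x, y)‖ - c) 0 : ℝ))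
    (fun x => le_max_right _ _) hint).mp h4
  have h5 := (hcont.ae_eq_iff_eq hU continuous_const).mp h4'
  have h6 : max (‖G (x, y)‖ - c) 0 = 0 := congrFun h5 x
  have := le_max_left (‖G (x, y)‖ - c) 0
  linarith

lemma Sy.unique {f g : ℝ → ℂ} {c d : ℝ} {G H : C(U × U, ℂ)} (hf : Bd f c) (hg : Bd g d) (h1 : Sy f G) (h2 : Sy g H)
    (h : f =ᵐ[volume] g) : G = H := by
  have h3 := h1.add hf (hg.smul (-1)) (h2.smul hg (-1))
  have hb : Bd (f + (-1 : ℂ) • g) 0 := by
    refine ⟨(hf.add (hg.smul (-1))).1, ?_⟩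
    filter_upwards [h] with t ht
    simp [ht]
  ext p
  have := h3.norm_le hb p
  simp only [ContinuousMap.add_apply, ContinuousMap.smul_apply, smul_eq_mul, neg_mul, one_mul, norm_le_zero_iff] at this
  linear_combination this

/-- the slices -/
noncomputable def sl1 (G : C(U × U, ℂ)) (y : U) : C(U, ℂ) := ⟨fun x => G (x, y), by fun_prop⟩
noncomputable def sl2 (G : C(U × U, ℂ)) (x : U) : C(U, ℂ) := ⟨fun y => G (x, y), by fun_prop⟩

lemma ana1 {f : ℝ → ℂ} {c : ℝ} {G : C(U × U, ℂ)} (hf : Bd f c) (h1 : Sy f G)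
    (hh : ∀ j : ℕ, 0 < j → ∫ t in (0:ℝ)..(2 * Real.pi), f t * Complex.exp ((j : ℂ) * (t : ℂ) * Complex.I) = 0)
    (y : U) : Ana (sl1 G y) := by
  have hint : IntervalIntegrable f volume 0 (2 * Real.pi) := by
    rw [intervalIntegrable_iff, uIoc_of_le (by positivity)]
    apply Integrable.of_bound hf.1.restrict (C := c)
    exact ae_restrict_of_ae hf.2
  intro j
  revert y
  let F : C(U × U, ℂ) := ⟨fun q => fourier ((j:ℤ) + 1) q.1 * G q, by fun_prop⟩
  have hfc : ∀ y, fourierCoeff (sl1 G y) (-((j:ℤ)+1)) = ∫ x, F (x, y) ∂hU := by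
    intro y
    unfold fourierCoeff
    simp only [neg_neg, smul_eq_mul]
    rfl
  simp_rw [hfc]
  apply zero_of_cluster (cont_int F)
  apply squeeze_zero_norm _ (tendsto_even h1)
  intro k
  let H : C(U, ℂ) := ⟨fun x => F (x, ga k), by fun_prop⟩
  have hp := push (2*k) H
  have hH : ∀ x, H x = F (x, ga k) := fun x => rfl
  simp only [hH] at hp
  rw [← hp]
  have e1 : ∀ t, F (ang (2*k) t, ga k) = (bb (2*k) (ex t))^(j+1) * G (sym (2*k) t) := by
    intro t
    rw [sym_even]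
    change (fourier ((j:ℤ)+1) (ang (2*k) t) : ℂ) * _ = _
    rw [fourier_ang]
    norm_cast
  have e2 := P3 hint hh (2*k) j
  have i1 : Integrable (fun t => F (ang (2*k) t, ga k)) (hm (zz (2*k))) := integrable_comp _ (measurable_ang (2*k)) H
  have hbm : Measurable (fun t => (bb (2*k) (ex t))^(j+1)) := by
    have : Measurable (fun t => (fourier ((j:ℤ)+1) (ang (2*k) t) : ℂ)) :=
      (ContinuousMap.continuous _).measurable.comp (measurable_ang (2*k))
    convert this using 2 with t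
    rw [fourier_ang]; norm_cast
  have i2 : Integrable (fun t => f t * (bb (2*k) (ex t))^(j+1)) (hm (zz (2*k))) := by
    apply (hf.integrable (2*k)).mul_bdd (c := 1) hbm.aestronglyMeasurable
    filter_upwards with t
    rw [norm_pow, bb_norm_eq (norm_ex t), one_pow]
  have e3 : ∫ t, F (ang (2*k) t, ga k) ∂(hm (zz (2*k))) =
      ∫ t, (F (ang (2*k) t, ga k) - f t * (bb (2*k) (ex t))^(j+1)) ∂(hm (zz (2*k))) := by
    rw [integral_sub i1 i2, e2, sub_zero]
  rw [e3]
  refine (norm_integral_le_integral_norm _).trans ?_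
  apply le_of_eq
  congr 1
  ext t
  rw [e1]
  have : (bb (2*k) (ex t))^(j+1) * G (sym (2*k) t) - f t * (bb (2*k) (ex t))^(j+1) =
    - ((bb (2*k) (ex t))^(j+1) * (f t - G (sym (2*k) t))) := by ring
  rw [this, norm_neg, norm_mul, norm_pow, bb_norm_eq (norm_ex t), one_pow, one_mul]

lemma ana2 {f : ℝ → ℂ} {c : ℝ} {G : C(U × U, ℂ)} (hf : Bd f c) (h1 : Sy f G)
    (hh : ∀ j : ℕ, 0 < j → ∫ t in (0:ℝ)..(2 * Real.pi), f t * Complex.exp ((j : ℂ) * (t : ℂ) * Complex.I) = 0)
    (x : U) : Ana (sl2 G x) := by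
  have hint : IntervalIntegrable f volume 0 (2 * Real.pi) := by
    rw [intervalIntegrable_iff, uIoc_of_le (by positivity)]
    apply Integrable.of_bound hf.1.restrict (C := c)
    exact ae_restrict_of_ae hf.2
  intro j
  revert x
  let F : C(U × U, ℂ) := ⟨fun q => fourier ((j:ℤ) + 1) q.2 * G q, by fun_prop⟩
  have hfc : ∀ x, fourierCoeff (sl2 G x) (-((j:ℤ)+1)) = ∫ y, F (x, y) ∂hU := by
    intro y
    unfold fourierCoeff
    simp only [neg_neg, smul_eq_mul]
    rfl
  simp_rw [hfc]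
  apply zero_of_cluster (cont_int' F)
  apply squeeze_zero_norm _ (tendsto_odd h1)
  intro k
  let H : C(U, ℂ) := ⟨fun x => F (ga k, x), by fun_prop⟩
  have hp := push (2*k+1) H
  have hH : ∀ x, H x = F (ga k, x) := fun x => rfl
  simp only [hH] at hp
  rw [← hp]
  have e1 : ∀ t, F (ga k, ang (2*k+1) t) = (bb (2*k+1) (ex t))^(j+1) * G (sym (2*k+1) t) := by
    intro t
    rw [sym_odd]
    change (fourier ((j:ℤ)+1) (ang (2*k+1) t) : ℂ) * _ = _
    rw [fourier_ang]
    norm_cast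
  have e2 := P3 hint hh (2*k+1) j
  have i1 : Integrable (fun t => F (ga k, ang (2*k+1) t)) (hm (zz (2*k+1))) := integrable_comp _ (measurable_ang (2*k+1)) H
  have hbm : Measurable (fun t => (bb (2*k+1) (ex t))^(j+1)) := by
    have : Measurable (fun t => (fourier ((j:ℤ)+1) (ang (2*k+1) t) : ℂ)) :=
      (ContinuousMap.continuous _).measurable.comp (measurable_ang (2*k+1))
    convert this using 2 with t
    rw [fourier_ang]; norm_cast
  have i2 : Integrable (fun t => f t * (bb (2*k+1) (ex t))^(j+1)) (hm (zz (2*k+1))) := by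
    apply (hf.integrable (2*k+1)).mul_bdd (c := 1) hbm.aestronglyMeasurable
    filter_upwards with t
    rw [norm_pow, bb_norm_eq (norm_ex t), one_pow]
  have e3 : ∫ t, F (ga k, ang (2*k+1) t) ∂(hm (zz (2*k+1))) =
      ∫ t, (F (ga k, ang (2*k+1) t) - f t * (bb (2*k+1) (ex t))^(j+1)) ∂(hm (zz (2*k+1))) := by
    rw [integral_sub i1 i2, e2, sub_zero]
  rw [e3]
  refine (norm_integral_le_integral_norm _).trans ?_
  apply le_of_eq
  congr 1
  ext t
  rw [e1]
  have : (bb (2*k+1) (ex t))^(j+1) * G (sym (2*k+1) t) - f t * (bb (2*k+1) (ex t))^(j+1) =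
    - ((bb (2*k+1) (ex t))^(j+1) * (f t - G (sym (2*k+1) t))) := by ring
  rw [this, norm_neg, norm_mul, norm_pow, bb_norm_eq (norm_ex t), one_pow, one_mul]

end Pool.Agent.Helper401.Dw
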