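import Pool.Agent.Helper401.Dw5

set_option autoImplicit false
open MeasureTheory Filter Topology Metric Set
open scoped ComplexConjugate

namespace Pool.Agent.Helper401.Dw

/-- mean over the torus -/
noncomputable def M (G : C(U × U, ℂ)) : ℂ := ∫ y, ∫ x, G (x, y) ∂hU ∂hU

noncomputable def inn (G : C(U × U, ℂ)) : C(U, ℂ) := ⟨fun y => ∫ x, G (x, y) ∂hU, cont_int G⟩

lemma ana_inn {G : C(U × U, ℂ)} (h : ∀ x, Ana (sl2 G x)) : Ana (inn G) := by
  intro j
  have h1 : fourierCoeff (inn G) (-((j:ℤ)+1)) = ∫ y, ∫ x, fourier ((j:ℤ)+1) y * G (x, y) ∂hU ∂hU := by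
    unfold fourierCoeff
    congr 1
    ext y
    simp only [neg_neg, smul_eq_mul]
    rw [integral_const_mul]
    rfl
  rw [h1, integral_integral_swap]
  · have h2 : ∀ x, ∫ y, (fourier ((j:ℤ)+1) y : ℂ) * G (x, y) ∂hU = 0 := by
      intro x
      have := h x j
      unfold fourierCoeff at this
      simp only [neg_neg, smul_eq_mul] at this
      exact this
    simp_rw [h2]
    simp
  · let F : C(U × U, ℂ) := ⟨fun q => fourier ((j:ℤ) + 1) q.1 * G (q.2, q.1), by fun_prop⟩
    exact integrable_C (hU.prod hU) F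

lemma M_mul {G H : C(U × U, ℂ)} (hG1 : ∀ y, Ana (sl1 G y)) (hG2 : ∀ x, Ana (sl2 G x))
    (hH1 : ∀ y, Ana (sl1 H y)) (hH2 : ∀ x, Ana (sl2 H x)) : M (G * H) = M G * M H := by
  unfold M
  have h1 : ∀ y, ∫ x, (G * H) (x, y) ∂hU = inn G y * inn H y := by
    intro y
    exact L5 (sl1 G y) (sl1 H y) (hG1 y) (hH1 y)
  simp_rw [h1]
  exact L5 (inn G) (inn H) (ana_inn hG2) (ana_inn hH2)

lemma M_add (G H : C(U × U, ℂ)) : M (G + H) = M G + M H := by
  unfold M
  have h1 : ∀ y, ∫ x, (G + H) (x, y) ∂hU = inn G y + inn H y := by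
    intro y
    simp only [ContinuousMap.add_apply]
    exact integral_add (integrable_C _ (sl1 G y)) (integrable_C _ (sl1 H y))
  simp_rw [h1]
  exact integral_add (integrable_C _ (inn G)) (integrable_C _ (inn H))

lemma M_smul (c : ℂ) (G : C(U × U, ℂ)) : M (c • G) = c * M G := by
  unfold M
  simp only [ContinuousMap.smul_apply, smul_eq_mul]
  simp_rw [integral_const_mul]

lemma M_const (c : ℂ) : M (ContinuousMap.const _ c) = c := by
  unfold M; simp

lemma hm_mem (w : ℂ) : ∀ᵐ t ∂(hm w), t ∈ Ioc 0 (2 * Real.pi) := by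
  unfold hm
  exact (withDensity_absolutelyContinuous _ _).ae_le (ae_restrict_mem measurableSet_Ioc)

lemma tendsto_a : Tendsto a atTop (𝓝 0) := by
  unfold a
  exact (tendsto_pow_atTop_nhds_zero_of_lt_one (by norm_num) (by norm_num : (1:ℝ)/2 < 1)).comp (tendsto_add_atTop_nat 1)

lemma tendsto_zz_re : Tendsto (fun n => (zz n).re) atTop (𝓝 1) := by
  have h1 : ∀ n, (zz n).re = (1 - (a n)^2/100 * (a n)^2) * Real.sqrt (1 - (a n)^2) := by
    intro n
    unfold zz
    rw [Complex.re_ofReal_mul]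
    simp only [ze, r, de, D]
  simp_rw [h1]
  have h2 := tendsto_a
  have h3 : Tendsto (fun x : ℝ => (1 - x^2/100 * x^2) * Real.sqrt (1 - x^2)) (𝓝 0) (𝓝 ((1 - 0^2/100 * 0^2) * Real.sqrt (1 - 0^2))) := by
    apply Continuous.tendsto
    fun_prop
  have h4 := h3.comp h2
  simp only [ne_eq, OfNat.ofNat_ne_zero, not_false_eq_true, zero_pow, zero_div, mul_zero, sub_zero,
    Real.sqrt_one, mul_one] at h4
  exact h4

lemma re_poisson {w : ℂ} (hw : ‖w‖ < 1) {q : ℂ → ℂ} (hq : DiffContOnCl ℂ q (ball 0 1)) :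
    ∫ t, (q (ex t)).re ∂(hm w) = (q w).re := by
  have : Fact (‖w‖ < 1) := ⟨hw⟩
  have h := integral_hm_poisson hw hq
  rw [← h]
  have hc : ContinuousOn q (closedBall 0 1) := by
    have := hq.continuousOn
    rwa [closure_ball _ one_ne_zero] at this
  have hcont : Continuous (fun t => q (ex t)) :=
    hc.comp_continuous continuous_ex (fun t => by simp [norm_ex])
  obtain ⟨C, hC⟩ := (isCompact_closedBall (0:ℂ) 1).exists_bound_of_continuousOn hc
  have hint : Integrable (fun t => q (ex t)) (hm w) := by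
    apply Integrable.of_bound hcont.aestronglyMeasurable C
    filter_upwards with t
    exact hC _ (by simp [norm_ex])
  exact integral_re hint

lemma int_one_sub_cos (n : ℕ) : ∫ t, (1 - Real.cos t) ∂(hm (zz n)) = 1 - (zz n).re := by
  have hq : DiffContOnCl ℂ (fun z : ℂ => 1 - z) (ball 0 1) :=
    DifferentiableOn.diffContOnCl (by fun_prop)
  have := re_poisson (norm_zz_lt n) hq
  simp only [Complex.sub_re, Complex.one_re] at this
  rw [← this]
  congr 1
  ext t
  congr 1
  unfold ex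
  rw [Complex.exp_ofReal_mul_I_re]

lemma periodic_bound {f : ℝ → ℂ} (hf : Continuous f) (hp : Function.Periodic f (2 * Real.pi)) :
    ∃ C, ∀ t, ‖f t‖ ≤ C := by
  obtain ⟨C, hC⟩ := (isCompact_Icc (a := (0:ℝ)) (b := 2 * Real.pi)).exists_bound_of_continuousOn hf.continuousOn
  refine ⟨C, fun t => ?_⟩
  obtain ⟨s, hs, hst⟩ := hp.exists_mem_Ico₀ (by positivity) t
  rw [hst]
  exact hC s ⟨hs.1, hs.2.le⟩

lemma cont_est {f : ℝ → ℂ} (hf : Continuous f) (hp : Function.Periodic f (2 * Real.pi)) {ε : ℝ} (hε : 0 < ε) :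
    ∃ C, 0 ≤ C ∧ ∀ t ∈ Ioc 0 (2 * Real.pi), ‖f t - f 0‖ ≤ ε + C * (1 - Real.cos t) := by
  obtain ⟨B, hB⟩ := periodic_bound hf hp
  have hB0 : 0 ≤ B := (norm_nonneg _).trans (hB 0)
  let Kε : Set ℝ := Icc 0 (2 * Real.pi) ∩ {t | ε ≤ ‖f t - f 0‖}
  have hK : IsCompact Kε := isCompact_Icc.inter_right (isClosed_le continuous_const (by fun_prop))
  have hpos : ∀ t ∈ Kε, 0 < 1 - Real.cos t := by
    intro t ht
    have h0 : t ≠ 0 := by
      rintro rfl
      have := ht.2
      simp at this; linarith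
    have h2 : t ≠ 2 * Real.pi := by
      rintro rfl
      have := ht.2
      have h3 := hp 0
      simp only [zero_add] at h3
      simp [h3] at this; linarith
    have h3 : Real.cos t ≠ 1 := by
      intro h
      have hlt : t < 2 * Real.pi := lt_of_le_of_ne ht.1.2 h2
      have hgt : 0 < t := lt_of_le_of_ne ht.1.1 (Ne.symm h0)
      have := (Real.cos_eq_one_iff_of_lt_of_lt (by linarith [Real.pi_pos]) hlt).mp h
      exact h0 this
    have := Real.cos_le_one t
    have := lt_of_le_of_ne this h3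
    linarith
  by_cases hne : Kε.Nonempty
  · obtain ⟨t0, ht0, hmin⟩ := hK.exists_isMinOn hne (f := fun t => 1 - Real.cos t) (by fun_prop)
    have hc := hpos t0 ht0
    refine ⟨2 * B / (1 - Real.cos t0), by positivity, ?_⟩
    intro t ht
    by_cases h : ε ≤ ‖f t - f 0‖
    · have htK : t ∈ Kε := ⟨⟨ht.1.le, ht.2⟩, h⟩
      have h1 := hmin htK
      change 1 - Real.cos t0 ≤ 1 - Real.cos t at h1
      have h2 : ‖f t - f 0‖ ≤ 2 * B := by
        calc ‖f t - f 0‖ ≤ ‖f t‖ + ‖f 0‖ := norm_sub_le _ _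
          _ ≤ 2 * B := by linarith [hB t, hB 0]
      have h3 : 2 * B ≤ 2 * B / (1 - Real.cos t0) * (1 - Real.cos t) := by
        rw [div_mul_eq_mul_div, le_div_iff₀ hc]
        gcongr
      linarith
    · push Not at h
      have h1 : 0 ≤ 2 * B / (1 - Real.cos t0) * (1 - Real.cos t) := by
        have := Real.cos_le_one t
        apply mul_nonneg (by positivity); linarith
      linarith
  · refine ⟨0, le_refl _, ?_⟩
    intro t ht
    by_contra h
    push Not at h
    apply hne
    exact ⟨t, ⟨ht.1.le, ht.2⟩, by simp at h; exact h.le⟩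

lemma cont_tendsto {f : ℝ → ℂ} (hf : Continuous f) (hp : Function.Periodic f (2 * Real.pi)) :
    Tendsto (fun n => ∫ t, ‖f t - f 0‖ ∂(hm (zz n))) atTop (𝓝 0) := by
  rw [Metric.tendsto_atTop]
  intro ε hε
  obtain ⟨C, hC0, hC⟩ := cont_est hf hp (half_pos hε)
  obtain ⟨B, hB⟩ := periodic_bound hf hp
  have h1 : Tendsto (fun n => C * (1 - (zz n).re)) atTop (𝓝 0) := by
    have := (tendsto_zz_re.const_sub 1).const_mul C
    simpa using this
  rw [Metric.tendsto_atTop] at h1
  obtain ⟨N, hN⟩ := h1 (ε/2) (half_pos hε)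
  refine ⟨N, fun n hn => ?_⟩
  have h2 := hN n hn
  rw [Real.dist_eq, sub_zero] at h2 ⊢
  have h3 : ∫ t, ‖f t - f 0‖ ∂(hm (zz n)) ≤ ε/2 + C * (1 - (zz n).re) := by
    have i1 : Integrable (fun t => (1 - Real.cos t)) (hm (zz n)) := by
      apply Integrable.of_bound (C := 2)
      · exact (by fun_prop : Continuous (fun t => (1 - Real.cos t))).aestronglyMeasurable
      · filter_upwards with t
        rw [Real.norm_eq_abs, abs_of_nonneg (by linarith [Real.cos_le_one t])]
        linarith [Real.neg_one_le_cos t]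
    have i2 : Integrable (fun t => ‖f t - f 0‖) (hm (zz n)) := by
      apply Integrable.of_bound (C := B + B)
      · exact (by fun_prop : Continuous (fun t => ‖f t - f 0‖)).aestronglyMeasurable
      · filter_upwards with t
        rw [norm_norm]
        exact (norm_sub_le _ _).trans (add_le_add (hB t) (hB 0))
    calc ∫ t, ‖f t - f 0‖ ∂(hm (zz n)) ≤ ∫ t, (ε/2 + C * (1 - Real.cos t)) ∂(hm (zz n)) := by
          apply integral_mono_ae i2 ((integrable_const _).add (i1.const_mul C))
          filter_upwards [hm_mem (zz n)] with t ht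
          exact hC t ht
      _ = ε/2 + C * (1 - (zz n).re) := by
          rw [integral_add (integrable_const _) (i1.const_mul C), integral_const_mul, int_one_sub_cos]
          simp
  rw [abs_of_nonneg (integral_nonneg (fun t => norm_nonneg _))]
  have := (abs_lt.mp h2).2
  linarith

end Pool.Agent.Helper401.Dw
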