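import Pool.Agent.Helper401.Dw6

set_option autoImplicit false
open MeasureTheory Filter Topology Metric Set
open scoped ComplexConjugate

namespace Pool.Agent.Helper401.Dw

lemma hasSum_a_sq : HasSum (fun m => (a m)^2) (1/3) := by
  have h := (hasSum_geometric_of_lt_one (r := (1:ℝ)/4) (by norm_num) (by norm_num)).mul_left (1/4)
  have e : ∀ m, (1/4 : ℝ) * (1/4)^m = (a m)^2 := by
    intro m
    unfold a
    rw [← pow_mul, mul_comm (m+1) 2, pow_mul, pow_succ]
    norm_num
    ring
  simp_rw [e] at h
  have e3 : (1/4 : ℝ) * (1 - 1/4)⁻¹ = 1/3 := by norm_num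
  rw [e3] at h
  exact h

lemma hasSum_a_div (q : ℝ) : HasSum (fun m => (a m/q)^2) (1/3/q^2) := by
  have h := hasSum_a_sq.div_const (q^2)
  have e : (fun m => (a m/q)^2) = fun m => (a m)^2/q^2 := by
    funext m
    rw [div_pow]
  rw [e]
  exact h

lemma K_one (m : ℕ) : ‖K m 1‖ ≤ (a m/100)^2 := by
  unfold K
  rw [norm_pow]
  have := kk_one (n := m)
  gcongr

lemma K_star {z : ℂ} (hz : ‖z‖ ≤ 1) : ∃ n, ∀ m, ‖K m z‖ ≤ (a m/25)^2 + (if m = n then 1 else 0) ∧
    (m ≠ n → ‖K m z‖ ≤ (a m / 25)^2) := by
  obtain ⟨n, hn⟩ := exists_star z.im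
  have h2 : ∀ m, m ≠ n → ‖K m z‖ ≤ (a m / 25)^2 := by
    intro m hm
    unfold K
    rw [norm_pow]
    have := kk_le_div hz (hn m hm)
    gcongr
  refine ⟨n, fun m => ⟨?_, h2 m⟩⟩
  by_cases h : m = n
  · rw [if_pos h]
    have h1 : ‖K m z‖ ≤ 1 := by
      unfold K
      rw [norm_pow]
      exact pow_le_one₀ (norm_nonneg _) (kk_norm_le hz)
    nlinarith [sq_nonneg (a m / 25)]
  · rw [if_neg h, add_zero]
    exact h2 m h

section
variable {c : ℕ → ℂ → ℂ} (e : ℂ) (hc_le : ∀ m z, ‖z‖ ≤ 1 → ‖c m z‖ ≤ ‖K m z‖)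

noncomputable def FF (c : ℕ → ℂ → ℂ) (e : ℂ) (z : ℂ) : ℂ := e + ∑' m, (c m z - c m 1)
noncomputable def PS (c : ℕ → ℂ → ℂ) (e : ℂ) (N : ℕ) (z : ℂ) : ℂ := e + ∑ m ∈ Finset.range N, (c m z - c m 1)

include hc_le

lemma term_le {z : ℂ} (hz : ‖z‖ ≤ 1) (m : ℕ) : ‖c m z - c m 1‖ ≤ ‖K m z‖ + (a m/100)^2 := by
  have h1 := hc_le m z hz
  have h2 := hc_le m 1 (by simp)
  have h3 := K_one m
  have h4 := norm_sub_le (c m z) (c m 1)
  linarith

lemma sum_bd {z : ℂ} (hz : ‖z‖ ≤ 1) (s : Finset ℕ) : ∑ m ∈ s, ‖c m z - c m 1‖ ≤ 2 := by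
  obtain ⟨n, hn⟩ := K_star hz
  have h1 : HasSum (fun m => (a m/25)^2 + (if m = n then (1:ℝ) else 0) + (a m/100)^2)
      (1/3/625 + 1 + 1/3/10000) := by
    have e1 : HasSum (fun m => (a m/25)^2) (1/3/625) := by
      have := hasSum_a_div 25
      have e3 : (1/3/25^2 : ℝ) = 1/3/625 := by norm_num
      rwa [e3] at this
    have e2 : HasSum (fun m => (a m/100)^2) (1/3/10000) := by
      have := hasSum_a_div 100
      have e3 : (1/3/100^2 : ℝ) = 1/3/10000 := by norm_num
      rwa [e3] at this
    exact (e1.add (hasSum_ite_eq n 1)).add e2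
  calc ∑ m ∈ s, ‖c m z - c m 1‖ ≤ ∑ m ∈ s, ((a m/25)^2 + (if m = n then (1:ℝ) else 0) + (a m/100)^2) := by
        apply Finset.sum_le_sum
        intro m _
        have := term_le hc_le hz m
        have := (hn m).1
        linarith
    _ ≤ 1/3/625 + 1 + 1/3/10000 := by
        apply sum_le_hasSum s _ h1
        intro m _
        have : (0:ℝ) ≤ if m = n then (1:ℝ) else 0 := by split_ifs <;> norm_num
        positivity
    _ ≤ 2 := by norm_num

lemma summable_term {z : ℂ} (hz : ‖z‖ ≤ 1) : Summable (fun m => ‖c m z - c m 1‖) :=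
  summable_of_sum_le (fun _ => norm_nonneg _) (sum_bd hc_le hz)

lemma PS_bd {z : ℂ} (hz : ‖z‖ ≤ 1) (N : ℕ) : ‖PS c e N z‖ ≤ ‖e‖ + 2 := by
  unfold PS
  refine (norm_add_le _ _).trans ?_
  gcongr
  exact (norm_sum_le _ _).trans (sum_bd hc_le hz _)

lemma PS_tendsto {z : ℂ} (hz : ‖z‖ ≤ 1) : Tendsto (fun N => PS c e N z) atTop (𝓝 (FF c e z)) := by
  unfold PS FF
  apply Tendsto.const_add
  exact (summable_term hc_le hz).of_norm.hasSum.tendsto_sum_nat

lemma FF_bd {z : ℂ} (hz : ‖z‖ ≤ 1) : ‖FF c e z‖ ≤ ‖e‖ + 2 :=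
  le_of_tendsto (PS_tendsto e hc_le hz).norm (Eventually.of_forall (fun N => PS_bd e hc_le hz N))

end

lemma cont_of_diffcl {q : ℂ → ℂ} (hq : DiffContOnCl ℂ q (ball 0 1)) : Continuous (fun t => q (ex t)) := by
  have hc : ContinuousOn q (closedBall 0 1) := by
    have := hq.continuousOn
    rwa [closure_ball _ one_ne_zero] at this
  exact hc.comp_continuous continuous_ex (fun t => by simp [norm_ex])

lemma lim_poisson {q : ℕ → ℂ → ℂ} {f : ℝ → ℂ} {C : ℝ} (hq : ∀ N, DiffContOnCl ℂ (q N) (ball 0 1))
    (hb : ∀ N t, ‖q N (ex t)‖ ≤ C) (hl : ∀ t, Tendsto (fun N => q N (ex t)) atTop (𝓝 (f t)))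
    {w : ℂ} (hw : ‖w‖ < 1) {L : ℂ} (hL : Tendsto (fun N => q N w) atTop (𝓝 L)) : ∫ t, f t ∂(hm w) = L := by
  have : Fact (‖w‖ < 1) := ⟨hw⟩
  have h1 : Tendsto (fun N => ∫ t, q N (ex t) ∂(hm w)) atTop (𝓝 (∫ t, f t ∂(hm w))) := by
    apply tendsto_integral_of_dominated_convergence (fun _ => C)
    · intro N
      exact (cont_of_diffcl (hq N)).aestronglyMeasurable
    · exact integrable_const _
    · intro N
      filter_upwards with t
      exact hb N t
    · filter_upwards with t
      exact hl t
  have h2 : ∀ N, ∫ t, q N (ex t) ∂(hm w) = q N w := fun N => integral_hm_poisson hw (hq N)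
  simp_rw [h2] at h1
  exact tendsto_nhds_unique h1 hL

lemma pk_zero (t : ℝ) : pk 0 t = 1 := by
  have h := norm_ex t
  unfold ex at h
  unfold pk
  simp [h]

section
variable {c : ℕ → ℂ → ℂ} (e : ℂ) (hc_le : ∀ m z, ‖z‖ ≤ 1 → ‖c m z‖ ≤ ‖K m z‖)
  (hc : ∀ m, DiffContOnCl ℂ (c m) (ball 0 1))

include hc in
lemma PS_diff (N : ℕ) : DiffContOnCl ℂ (PS c e N) (ball 0 1) := by
  induction N with
  | zero => 
    have : PS c e 0 = fun _ => e := by ext z; simp [PS]
    rw [this]
    exact diffContOnCl_const
  | succ k ih =>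
    have : PS c e (k+1) = fun z => PS c e k z + (c k z - c k 1) := by
      ext z
      unfold PS
      rw [Finset.sum_range_succ]
      ring
    rw [this]
    exact ih.add ((hc k).sub diffContOnCl_const)

include hc hc_le in
lemma FF_poisson {w : ℂ} (hw : ‖w‖ < 1) : ∫ t, FF c e (ex t) ∂(hm w) = FF c e w := by
  apply lim_poisson (q := PS c e) (C := ‖e‖ + 2) (PS_diff e hc)
  · intro N t; exact PS_bd e hc_le (norm_ex t).le N
  · intro t; exact PS_tendsto e hc_le (norm_ex t).le
  · exact hw
  · exact PS_tendsto e hc_le hw.le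

include hc hc_le in
lemma FF_fourier (j : ℕ) (hj : 0 < j) :
    ∫ t in (0:ℝ)..(2 * Real.pi), FF c e (ex t) * Complex.exp ((j : ℂ) * (t : ℂ) * Complex.I) = 0 := by
  have h0 : ‖(0:ℂ)‖ < 1 := by simp
  have h1 : ∫ t, FF c e (ex t) * (ex t)^j ∂(hm 0) = 0 := by
    apply lim_poisson (q := fun N z => PS c e N z * z^j) (C := ‖e‖ + 2)
    · intro N
      exact (PS_diff e hc N).smul (DifferentiableOn.diffContOnCl (by fun_prop) : DiffContOnCl ℂ (fun z : ℂ => z^j) (ball 0 1))
    · intro N t
      rw [norm_mul, norm_pow, norm_ex, one_pow, mul_one]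
      exact PS_bd e hc_le (norm_ex t).le N
    · intro t
      exact (PS_tendsto e hc_le (norm_ex t).le).mul_const _
    · exact h0
    · simp only [zero_pow hj.ne', mul_zero]
      exact tendsto_const_nhds
  rw [integral_hm h0] at h1
  simp_rw [pk_zero] at h1
  have hpi : (2 * (Real.pi : ℂ)) ≠ 0 := by
    apply mul_ne_zero two_ne_zero; exact_mod_cast Real.pi_ne_zero
  rw [div_eq_zero_iff, or_iff_left hpi] at h1
  rw [← h1]
  congr 1
  ext t
  rw [Complex.ofReal_one, mul_one]
  congr 1
  unfold ex
  rw [← Complex.exp_nat_mul]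
  congr 1; ring

lemma FF_periodic : Function.Periodic (fun t => FF c e (ex t)) (2 * Real.pi) := by
  intro t
  have : ex (t + 2 * Real.pi) = ex t := by
    unfold ex
    push_cast
    rw [add_mul]
    exact Complex.exp_periodic _
  simp only [this]

include hc hc_le in
lemma FF_Bd : Bd (fun t => FF c e (ex t)) (‖e‖ + 2) := by
  constructor
  · apply aestronglyMeasurable_of_tendsto_ae atTop (f := fun N t => PS c e N (ex t))
    · intro N
      exact (cont_of_diffcl (PS_diff e hc N)).aestronglyMeasurable
    · filter_upwards with t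
      exact PS_tendsto e hc_le (norm_ex t).le
  · filter_upwards with t
    exact FF_bd e hc_le (norm_ex t).le

lemma kk_int_sq (m n : ℕ) : ∫ t, ‖kk m (ex t)‖^2 ∂(hm (zz n)) ≤ (kk m (zz n)).re := by
  rw [← re_poisson (norm_zz_lt n) (diffcl_kk m)]
  have hcont := cont_of_diffcl (diffcl_kk m)
  apply integral_mono
  · apply Integrable.of_bound (C := 1)
    · exact (hcont.norm.pow 2).aestronglyMeasurable
    · filter_upwards with t
      rw [Real.norm_eq_abs, abs_of_nonneg (by positivity)]
      exact pow_le_one₀ (norm_nonneg _) (kk_norm_le (norm_ex t).le)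
  · apply Integrable.of_bound (C := 1)
    · exact (Complex.continuous_re.comp hcont).aestronglyMeasurable
    · filter_upwards with t
      exact (Complex.abs_re_le_norm _).trans (kk_norm_le (norm_ex t).le)
  · intro t
    exact kk_norm_sq_le (norm_ex t).le

lemma int_K_le {m n : ℕ} (h : m ≠ n) : ∫ t, ‖K m (ex t)‖ ∂(hm (zz n)) ≤ a m / 25 := by
  unfold K
  simp_rw [norm_pow]
  refine (kk_int_sq m n).trans ?_
  refine (Complex.re_le_norm _).trans ?_
  exact kk_le_div (norm_zz_lt n).le (zz_strip h)

lemma kk_zz (n : ℕ) : kk n (zz n) = ((D n / (D n + de n) : ℝ) : ℂ) := by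
  unfold kk den zz
  have : conj (ze n) * ((r n : ℂ) * ze n) = r n * (conj (ze n) * ze n) := by ring
  rw [this, conj_ze_mul]
  unfold r
  push_cast
  congr 1
  ring

lemma int_one_sub_K (n : ℕ) : ∫ t, ‖1 - K n (ex t)‖ ∂(hm (zz n)) ≤ 2 * a n := by
  have hcont := cont_of_diffcl (diffcl_kk n)
  have ha := a_pos n
  have hpt : ∀ t, ‖1 - K n (ex t)‖ ≤ a n + (1 - (kk n (ex t)).re) / a n := by
    intro t
    have h1 : ‖1 - K n (ex t)‖ ≤ 2 * ‖1 - kk n (ex t)‖ := by
      have : 1 - K n (ex t) = (1 - kk n (ex t)) * (1 + kk n (ex t)) := by unfold K; ring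
      rw [this, norm_mul, mul_comm]
      gcongr
      calc ‖1 + kk n (ex t)‖ ≤ ‖(1:ℂ)‖ + ‖kk n (ex t)‖ := norm_add_le _ _
        _ ≤ 2 := by rw [norm_one]; linarith [kk_norm_le (n := n) (norm_ex t).le]
    have h2 := one_sub_kk_norm_sq_le (n := n) (norm_ex t).le
    have h3 : 2 * ‖1 - kk n (ex t)‖ ≤ a n + ‖1 - kk n (ex t)‖^2 / a n := by
      rw [← sub_nonneg]
      have : a n + ‖1 - kk n (ex t)‖^2 / a n - 2 * ‖1 - kk n (ex t)‖ = (a n - ‖1 - kk n (ex t)‖)^2 / a n := by
        field_simp; ring
      rw [this]; positivity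
    have h4 : ‖1 - kk n (ex t)‖^2 / a n ≤ (1 - (kk n (ex t)).re) / a n := by gcongr
    linarith
  have i2 : Integrable (fun t => (kk n (ex t)).re) (hm (zz n)) := by
    apply Integrable.of_bound (C := 1)
    · exact (Complex.continuous_re.comp hcont).aestronglyMeasurable
    · filter_upwards with t
      exact (Complex.abs_re_le_norm _).trans (kk_norm_le (norm_ex t).le)
  have i4 : Integrable (fun t => (1 - (kk n (ex t)).re) / a n) (hm (zz n)) :=
    ((integrable_const _).sub i2).div_const _
  have i3 : Integrable (fun t => a n + (1 - (kk n (ex t)).re) / a n) (hm (zz n)) :=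
    (integrable_const _).add i4
  have i1 : Integrable (fun t => ‖1 - K n (ex t)‖) (hm (zz n)) := by
    apply Integrable.of_bound (C := 2)
    · exact ((continuous_const.sub (cont_of_diffcl (diffcl_K n))).norm).aestronglyMeasurable
    · filter_upwards with t
      rw [norm_norm]
      have : ‖K n (ex t)‖ ≤ 1 := by
        unfold K; rw [norm_pow]; exact pow_le_one₀ (norm_nonneg _) (kk_norm_le (norm_ex t).le)
      calc ‖1 - K n (ex t)‖ ≤ ‖(1:ℂ)‖ + ‖K n (ex t)‖ := norm_sub_le _ _
        _ ≤ 2 := by rw [norm_one]; linarith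
  calc ∫ t, ‖1 - K n (ex t)‖ ∂(hm (zz n)) ≤ ∫ t, (a n + (1 - (kk n (ex t)).re) / a n) ∂(hm (zz n)) :=
        integral_mono i1 i3 hpt
    _ = a n + (1 - (kk n (zz n)).re) / a n := by
        rw [integral_add (integrable_const _) i4,
          integral_div, integral_sub (integrable_const _) i2, re_poisson (norm_zz_lt n) (diffcl_kk n)]
        simp
    _ ≤ 2 * a n := by
        rw [kk_zz, Complex.ofReal_re]
        have hD := D_pos n
        have hde := de_pos n
        have : 1 - D n / (D n + de n) ≤ (a n)^2 := by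
          have : 1 - D n / (D n + de n) = de n / (D n + de n) := by field_simp; ring
          rw [this, div_le_iff₀ (by positivity)]
          unfold de
          nlinarith [mul_pos hD (pow_pos ha 2), pow_pos ha 2]
        have h2 : (1 - D n / (D n + de n)) / a n ≤ a n := by
          rw [div_le_iff₀ ha]; nlinarith
        linarith

include hc hc_le in
lemma FF_Sy {G : C(U × U, ℂ)} (hsym : ∀ n t, ‖e + c n (ex t) - G (sym n t)‖ ≤ ‖1 - K n (ex t)‖) :
    Sy (fun t => FF c e (ex t)) G := by
  -- the tail quantities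
  let τ : ℕ → ℕ → ℝ := fun n m => if m = n then 0 else ∫ t, ‖c m (ex t) - c m 1‖ ∂(hm (zz n))
  have hcm : ∀ m, Continuous (fun t => c m (ex t)) := fun m => cont_of_diffcl (hc m)
  have hint : ∀ m n, Integrable (fun t => ‖c m (ex t) - c m 1‖) (hm (zz n)) := by
    intro m n
    apply Integrable.of_bound (C := 2)
    · exact (((hcm m).sub continuous_const).norm).aestronglyMeasurable
    · filter_upwards with t
      rw [norm_norm]
      have := sum_bd hc_le (norm_ex t).le {m}
      simpa using this
  have hτ0 : ∀ n m, 0 ≤ τ n m := by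
    intro n m
    simp only [τ]
    split_ifs
    · exact le_refl _
    · exact integral_nonneg (fun t => norm_nonneg _)
  have hτb : ∀ n m, τ n m ≤ a m / 25 + (a m/100)^2 := by
    intro n m
    simp only [τ]
    have ha := a_pos m
    split_ifs with h
    · positivity
    · calc ∫ t, ‖c m (ex t) - c m 1‖ ∂(hm (zz n)) ≤ ∫ t, (‖K m (ex t)‖ + (a m/100)^2) ∂(hm (zz n)) := by
            apply integral_mono (hint m n)
            · apply Integrable.add _ (integrable_const _)
              apply Integrable.of_bound (C := 1)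
              · exact (cont_of_diffcl (diffcl_K m)).norm.aestronglyMeasurable
              · filter_upwards with t
                rw [norm_norm]
                unfold K; rw [norm_pow]; exact pow_le_one₀ (norm_nonneg _) (kk_norm_le (norm_ex t).le)
            · intro t
              exact term_le hc_le (norm_ex t).le m
        _ ≤ a m / 25 + (a m/100)^2 := by
            rw [integral_add]
            · simp only [integral_const, probReal_univ, smul_eq_mul, one_mul]
              gcongr
              exact int_K_le h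
            · apply Integrable.of_bound (C := 1)
              · exact (cont_of_diffcl (diffcl_K m)).norm.aestronglyMeasurable
              · filter_upwards with t
                rw [norm_norm]
                unfold K; rw [norm_pow]; exact pow_le_one₀ (norm_nonneg _) (kk_norm_le (norm_ex t).le)
            · exact integrable_const _
  have hsumb : Summable (fun m => a m / 25 + (a m/100)^2) := by
    apply Summable.add
    · apply Summable.div_const
      unfold a
      have := (summable_geometric_of_lt_one (r := (1:ℝ)/2) (by norm_num) (by norm_num))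
      exact (summable_nat_add_iff 1).mpr this
    · exact (hasSum_a_div 100).summable
  have hτlim : ∀ m, Tendsto (fun n => τ n m) atTop (𝓝 0) := by
    intro m
    have hper : Function.Periodic (fun t => c m (ex t)) (2 * Real.pi) := by
      intro t
      have : ex (t + 2 * Real.pi) = ex t := by
        unfold ex
        push_cast
        rw [add_mul]
        exact Complex.exp_periodic _
      simp only [this]
    have h1 := cont_tendsto (hcm m) hper
    have e0 : ex 0 = 1 := by unfold ex; simp
    simp only [e0] at h1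
    apply squeeze_zero (fun n => hτ0 n m) _ h1
    intro n
    simp only [τ]
    split_ifs
    · exact integral_nonneg (fun t => norm_nonneg _)
    · exact le_refl _
  have hT : Tendsto (fun n => ∑' m, τ n m) atTop (𝓝 0) := by
    have := tendsto_tsum_of_dominated_convergence (f := τ) (g := fun _ => 0) (bound := fun m => a m / 25 + (a m/100)^2)
      (𝓕 := atTop) hsumb hτlim (Eventually.of_forall (fun n m => by
        rw [Real.norm_eq_abs, abs_of_nonneg (hτ0 n m)]; exact hτb n m))
    simpa using this
  have hmain : Tendsto (fun n => 2 * a n + (a n/100)^2 + ∑' m, τ n m) atTop (𝓝 0) := by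
    have h1 := (tendsto_a.const_mul 2).add ((tendsto_a.div_const 100).pow 2)
    have := h1.add hT
    simpa using this
  unfold Sy
  apply squeeze_zero (fun n => integral_nonneg (fun t => norm_nonneg _)) _ hmain
  intro n
  have hsumτ : Summable (fun m => τ n m) := Summable.of_nonneg_of_le (hτ0 n) (hτb n) hsumb
  -- pointwise estimate
  let g : ℕ → ℝ → ℝ := fun m t => if m = n then 0 else ‖c m (ex t) - c m 1‖
  have hg : ∀ m, ∫ t, g m t ∂(hm (zz n)) = τ n m := by
    intro m
    simp only [g, τ]
    split_ifs <;> simp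
  have hgi : ∀ m, Integrable (g m) (hm (zz n)) := by
    intro m
    simp only [g]
    split_ifs
    · exact integrable_zero _ _ _
    · exact hint m n
  have hg0 : ∀ m t, 0 ≤ g m t := by
    intro m t
    simp only [g]
    split_ifs
    · exact le_refl _
    · exact norm_nonneg _
  have hgs : ∀ t, Summable (fun m => g m t) := by
    intro t
    apply Summable.of_nonneg_of_le (fun m => hg0 m t) _ (summable_term hc_le (norm_ex t).le)
    intro m
    simp only [g]
    split_ifs
    · exact norm_nonneg _
    · exact le_refl _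
  have hpt : ∀ t, ‖FF c e (ex t) - G (sym n t)‖ ≤ ‖1 - K n (ex t)‖ + (a n/100)^2 + ∑' m, g m t := by
    intro t
    have hs := (summable_term hc_le (norm_ex t).le).of_norm
    have h1 : FF c e (ex t) = e + ((c n (ex t) - c n 1) + ∑' m, (if m = n then 0 else (c m (ex t) - c m 1))) := by
      unfold FF
      rw [hs.tsum_eq_add_tsum_ite n]
    have h2 : FF c e (ex t) - G (sym n t) = (e + c n (ex t) - G (sym n t)) + (- c n 1) +
        ∑' m, (if m = n then 0 else (c m (ex t) - c m 1)) := by rw [h1]; ring
    rw [h2]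
    refine (norm_add_le _ _).trans ?_
    refine add_le_add ((norm_add_le _ _).trans (add_le_add (hsym n t) ?_)) ?_
    · rw [norm_neg]
      exact (hc_le n 1 (by simp)).trans (K_one n)
    · have h3 : ∀ m, ‖(if m = n then 0 else (c m (ex t) - c m 1))‖ = g m t := by
        intro m
        simp only [g]
        split_ifs <;> simp
      refine (norm_tsum_le_tsum_norm ?_).trans ?_
      · simp_rw [h3]; exact hgs t
      · simp_rw [h3]; exact le_refl _
  have hsg : Summable (fun m => ∫ t, ‖g m t‖ ∂(hm (zz n))) := by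
    have : ∀ m, ∫ t, ‖g m t‖ ∂(hm (zz n)) = τ n m := by
      intro m
      rw [← hg m]
      congr 1
      ext t
      rw [Real.norm_eq_abs, abs_of_nonneg (hg0 m t)]
    simp_rw [this]
    exact hsumτ
  have hts := integral_tsum_of_summable_integral_norm hgi hsg
  have htsi : Integrable (fun t => ∑' m, g m t) (hm (zz n)) := by
    apply Integrable.of_bound (C := 2)
    · apply Measurable.aestronglyMeasurable
      apply measurable_of_tendsto_metrizable (f := fun N t => ∑ m ∈ Finset.range N, g m t)
      · intro N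
        apply Finset.measurable_fun_sum
        intro m _
        simp only [g]
        split_ifs
        · exact measurable_const
        · exact (((hcm m).sub continuous_const).norm).measurable
      · rw [tendsto_pi_nhds]
        intro t
        exact (hgs t).hasSum.tendsto_sum_nat
    · filter_upwards with t
      rw [Real.norm_eq_abs, abs_of_nonneg (tsum_nonneg (fun m => hg0 m t))]
      apply (hgs t).tsum_le_of_sum_le
      intro s
      refine le_trans ?_ (sum_bd hc_le (norm_ex t).le s)
      apply Finset.sum_le_sum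
      intro m _
      simp only [g]
      split_ifs
      · exact norm_nonneg _
      · exact le_refl _
  have i1 : Integrable (fun t => ‖1 - K n (ex t)‖) (hm (zz n)) := by
    apply Integrable.of_bound (C := 2)
    · exact ((continuous_const.sub (cont_of_diffcl (diffcl_K n))).norm).aestronglyMeasurable
    · filter_upwards with t
      rw [norm_norm]
      have : ‖K n (ex t)‖ ≤ 1 := by
        unfold K; rw [norm_pow]; exact pow_le_one₀ (norm_nonneg _) (kk_norm_le (norm_ex t).le)
      calc ‖1 - K n (ex t)‖ ≤ ‖(1:ℂ)‖ + ‖K n (ex t)‖ := norm_sub_le _ _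
        _ ≤ 2 := by rw [norm_one]; linarith
  have i5 : Integrable (fun t => ‖1 - K n (ex t)‖ + (a n/100)^2) (hm (zz n)) := i1.add (integrable_const _)
  calc ∫ t, ‖FF c e (ex t) - G (sym n t)‖ ∂(hm (zz n))
      ≤ ∫ t, (‖1 - K n (ex t)‖ + (a n/100)^2 + ∑' m, g m t) ∂(hm (zz n)) := by
        apply integral_mono ((FF_Bd e hc_le hc).integrable_sub G n).norm
          (i5.add htsi)
        exact hpt
    _ = (∫ t, ‖1 - K n (ex t)‖ ∂(hm (zz n))) + (a n/100)^2 + ∑' m, τ n m := by
        rw [integral_add i5 htsi, integral_add i1 (integrable_const _), ← hts]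
        simp only [integral_const, probReal_univ, smul_eq_mul, one_mul]
        simp_rw [hg]
    _ ≤ 2 * a n + (a n/100)^2 + ∑' m, τ n m := by
        gcongr
        exact int_one_sub_K n

end

end Pool.Agent.Helper401.Dw
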