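import Pool.Agent.Helper401.Dw7

set_option autoImplicit false
open MeasureTheory Filter Topology Metric Set
open scoped ComplexConjugate

namespace Pool.Agent.Helper401.Dw

/-- the C*-algebra of the example -/
def SS : Set (ℝ → ℂ) := {f | Function.Periodic f (2 * Real.pi) ∧ AEStronglyMeasurable f volume ∧
  eLpNorm f (⊤ : ENNReal) volume < ⊤ ∧ ∃ G : C(U × U, ℂ), Sy f G}

lemma bd_of_le {f : ℝ → ℂ} {c : ℝ} (h1 : AEStronglyMeasurable f volume) (hc : 0 ≤ c)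
    (h2 : eLpNorm f (⊤ : ENNReal) volume ≤ ENNReal.ofReal c) : Bd f c := by
  refine ⟨h1, ?_⟩
  rw [eLpNorm_exponent_top] at h2
  filter_upwards [enorm_ae_le_eLpNormEssSup f volume] with t ht
  have := ht.trans h2
  rw [← ofReal_norm, ENNReal.ofReal_le_ofReal_iff hc] at this
  exact this

lemma bd_of_lt {f : ℝ → ℂ} (h1 : AEStronglyMeasurable f volume)
    (h2 : eLpNorm f (⊤ : ENNReal) volume < ⊤) : Bd f (eLpNorm f (⊤ : ENNReal) volume).toReal := by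
  apply bd_of_le h1 ENNReal.toReal_nonneg
  rw [ENNReal.ofReal_toReal h2.ne]

lemma lt_of_bd {f : ℝ → ℂ} {c : ℝ} (h : Bd f c) : eLpNorm f (⊤ : ENNReal) volume < ⊤ := by
  rw [eLpNorm_exponent_top]
  exact (eLpNormEssSup_lt_top_of_ae_bound h.2)

lemma SS_bd {f : ℝ → ℂ} (h : f ∈ SS) : ∃ c, Bd f c := ⟨_, bd_of_lt h.2.1 h.2.2.1⟩

lemma SS_mk {f : ℝ → ℂ} {c : ℝ} {G : C(U × U, ℂ)} (h1 : Function.Periodic f (2 * Real.pi)) (h2 : Bd f c)
    (h3 : Sy f G) : f ∈ SS := ⟨h1, h2.1, lt_of_bd h2, G, h3⟩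

lemma SS_add {f g : ℝ → ℂ} (hf : f ∈ SS) (hg : g ∈ SS) : f + g ∈ SS := by
  obtain ⟨c, hc⟩ := SS_bd hf
  obtain ⟨d, hd⟩ := SS_bd hg
  obtain ⟨p1, -, -, G, hG⟩ := hf
  obtain ⟨p2, -, -, H, hH⟩ := hg
  exact SS_mk (p1.add p2) (hc.add hd) (hG.add hc hd hH)

lemma SS_mul {f g : ℝ → ℂ} (hf : f ∈ SS) (hg : g ∈ SS) : f * g ∈ SS := by
  obtain ⟨c, hc⟩ := SS_bd hf
  obtain ⟨d, hd⟩ := SS_bd hg
  obtain ⟨p1, -, -, G, hG⟩ := hf
  obtain ⟨p2, -, -, H, hH⟩ := hg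
  exact SS_mk (p1.mul p2) (hc.mul hd) (hG.mul hc hd hH)

lemma SS_smul {f : ℝ → ℂ} (hf : f ∈ SS) (a : ℂ) : a • f ∈ SS := by
  obtain ⟨c, hc⟩ := SS_bd hf
  obtain ⟨p1, -, -, G, hG⟩ := hf
  exact SS_mk (p1.smul a) (hc.smul a) (hG.smul hc a)

lemma SS_star {f : ℝ → ℂ} (hf : f ∈ SS) : (fun t => star (f t)) ∈ SS := by
  obtain ⟨c, hc⟩ := SS_bd hf
  obtain ⟨p1, -, -, G, hG⟩ := hf
  refine SS_mk ?_ hc.star (hG.star hc)
  intro t
  simp only [p1 t]

lemma SS_cont {f : ℝ → ℂ} (hf : Continuous f) (hp : Function.Periodic f (2 * Real.pi)) : f ∈ SS := by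
  obtain ⟨C, hC⟩ := periodic_bound hf hp
  have hb : Bd f C := ⟨hf.aestronglyMeasurable, Eventually.of_forall hC⟩
  apply SS_mk (G := ContinuousMap.const _ (f 0)) hp hb
  exact cont_tendsto hf hp

lemma one_div_lt' {ε : ℝ} (hε : 0 < ε) : ∃ k : ℕ, 1 / ((k:ℝ) + 1) < ε := exists_nat_one_div_lt hε

lemma SS_closed (F : ℕ → ℝ → ℂ) (f : ℝ → ℂ) (hF : ∀ n, F n ∈ SS) (hp : Function.Periodic f (2 * Real.pi))
    (hm' : AEStronglyMeasurable f volume)
    (hl : Tendsto (fun n => eLpNorm (F n - f) (⊤ : ENNReal) volume) atTop (𝓝 0)) : f ∈ SS := by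
  -- choose a subsequence
  have h1 : ∀ k : ℕ, ∃ n, eLpNorm (F n - f) (⊤ : ENNReal) volume ≤ ENNReal.ofReal (1 / ((k:ℝ)+1)) := by
    intro k
    have hpos : (0:ENNReal) < ENNReal.ofReal (1 / ((k:ℝ)+1)) := by
      rw [ENNReal.ofReal_pos]; positivity
    have := hl.eventually (gt_mem_nhds hpos)
    obtain ⟨n, hn⟩ := this.exists
    exact ⟨n, hn.le⟩
  choose N hN using h1
  have hB : ∀ k, Bd (F (N k) - f) (1 / ((k:ℝ)+1)) := by
    intro k
    apply bd_of_le ((hF _).2.1.sub hm') (by positivity) (hN k)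
  choose G hG using fun k => (hF (N k)).2.2.2
  obtain ⟨c0, hc0⟩ := SS_bd (hF (N 0))
  have hfb : Bd f (c0 + ‖(-1:ℂ)‖ * (1 / (((0:ℕ):ℝ)+1))) := by
    have := hc0.add ((hB 0).smul (-1))
    have e : F (N 0) + (-1 : ℂ) • (F (N 0) - f) = f := by
      ext t; simp
    rwa [e] at this
  have hGG : ∀ k l, ‖G k - G l‖ ≤ 1 / ((k:ℝ)+1) + 1 / ((l:ℝ)+1) := by
    intro k l
    obtain ⟨c, hc⟩ := SS_bd (hF (N k))
    obtain ⟨d, hd⟩ := SS_bd (hF (N l))
    have hsy := (hG k).add hc (hd.smul (-1)) ((hG l).smul hd (-1))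
    have hb : Bd (F (N k) + (-1 : ℂ) • F (N l)) (1 / ((k:ℝ)+1) + 1 / ((l:ℝ)+1)) := by
      have := (hB k).add ((hB l).smul (-1))
      have e : (F (N k) - f) + (-1 : ℂ) • (F (N l) - f) = F (N k) + (-1 : ℂ) • F (N l) := by
        ext t
        simp only [Pi.add_apply, Pi.sub_apply, Pi.smul_apply, smul_eq_mul]
        ring
      rw [e] at this
      simpa using this
    rw [ContinuousMap.norm_le _ (by positivity)]
    intro p
    have := hsy.norm_le hb p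
    have e : (G k + (-1 : ℂ) • G l) p = (G k - G l) p := by
      simp [sub_eq_add_neg]
    rwa [e] at this
  have hcau : CauchySeq G := by
    rw [Metric.cauchySeq_iff']
    intro ε hε
    obtain ⟨k, hk⟩ := exists_nat_one_div_lt (half_pos hε)
    refine ⟨k, fun n hn => ?_⟩
    rw [dist_eq_norm]
    have h2 : 1 / ((n:ℝ)+1) ≤ 1 / ((k:ℝ)+1) := by
      apply one_div_le_one_div_of_le (by positivity)
      have : (k:ℝ) ≤ n := by exact_mod_cast hn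
      linarith
    have := hGG n k
    linarith
  obtain ⟨G0, hG0⟩ := cauchySeq_tendsto_of_complete hcau
  have hGk : ∀ k, ‖G k - G0‖ ≤ 1 / ((k:ℝ)+1) := by
    intro k
    have h2 : Tendsto (fun l => ‖G k - G l‖) atTop (𝓝 ‖G k - G0‖) := (tendsto_const_nhds.sub hG0).norm
    have h3 : Tendsto (fun l : ℕ => 1 / ((k:ℝ)+1) + 1 / ((l:ℝ)+1)) atTop (𝓝 (1 / ((k:ℝ)+1) + 0)) :=
      tendsto_const_nhds.add tendsto_one_div_add_atTop_nhds_zero_nat
    have := le_of_tendsto_of_tendsto' h2 h3 (fun l => hGG k l)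
    simpa using this
  apply SS_mk hp hfb (G := G0)
  unfold Sy
  rw [Metric.tendsto_atTop]
  intro ε hε
  obtain ⟨k, hk⟩ := exists_nat_one_div_lt (show (0:ℝ) < ε/3 by positivity)
  obtain ⟨c, hc⟩ := SS_bd (hF (N k))
  have h4 := hG k
  unfold Sy at h4
  rw [Metric.tendsto_atTop] at h4
  obtain ⟨M0, hM0⟩ := h4 (ε/3) (by positivity)
  refine ⟨M0, fun n hn => ?_⟩
  have h5 := hM0 n hn
  rw [Real.dist_eq, sub_zero, abs_of_nonneg (integral_nonneg (fun t => norm_nonneg _))] at h5 ⊢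
  have i1 := (hc.integrable_sub (G k) n).norm
  have i2 := (hfb.integrable_sub G0 n).norm
  calc ∫ t, ‖f t - G0 (sym n t)‖ ∂(hm (zz n))
      ≤ ∫ t, (‖F (N k) t - G k (sym n t)‖ + (1/((k:ℝ)+1) + 1/((k:ℝ)+1))) ∂(hm (zz n)) := by
        apply integral_mono_ae i2 (i1.add (integrable_const _))
        filter_upwards [(hm_ac (zz n)).ae_le (hB k).2] with t ht
        have e : f t - G0 (sym n t) = (F (N k) t - G k (sym n t)) + (-((F (N k) - f) t) + (G k - G0) (sym n t)) := by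
          simp only [Pi.sub_apply, ContinuousMap.sub_apply]; ring
        rw [e]
        refine (norm_add_le _ _).trans (add_le_add (le_refl _) ?_)
        refine (norm_add_le _ _).trans (add_le_add ?_ ?_)
        · rw [norm_neg]; exact ht
        · exact ((G k - G0).norm_coe_le_norm _).trans (hGk k)
    _ = (∫ t, ‖F (N k) t - G k (sym n t)‖ ∂(hm (zz n))) + (1/((k:ℝ)+1) + 1/((k:ℝ)+1)) := by
        rw [integral_add i1 (integrable_const _)]
        simp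
    _ < ε := by linarith

/-- the Hardy part -/
def AA : Set (ℝ → ℂ) := {f | f ∈ SS ∧ ∀ n : ℕ, 0 < n →
        ∫ t in (0:ℝ)..(2 * Real.pi), f t * Complex.exp ((n : ℂ) * (t : ℂ) * Complex.I) = 0}

open Classical in
/-- the character -/
noncomputable def ph (f : ℝ → ℂ) : ℂ := if h : ∃ G : C(U × U, ℂ), Sy f G then M h.choose else 0

lemma ph_eq {f : ℝ → ℂ} {c : ℝ} {G : C(U × U, ℂ)} (hf : Bd f c) (h : Sy f G) : ph f = M G := by
  have h1 : ∃ G : C(U × U, ℂ), Sy f G := ⟨G, h⟩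
  unfold ph
  rw [dif_pos h1]
  congr 1
  exact h1.choose_spec.unique hf hf h (ae_eq_refl f)

lemma ph_one : ph (fun _ => 1) = 1 := by
  have hb : Bd (fun _ => (1:ℂ)) 1 := ⟨aestronglyMeasurable_const, by simp⟩
  rw [ph_eq (G := ContinuousMap.const _ 1) hb, M_const]
  unfold Sy
  simp

lemma ph_add {f g : ℝ → ℂ} (hf : f ∈ SS) (hg : g ∈ SS) : ph (f + g) = ph f + ph g := by
  obtain ⟨c, hc⟩ := SS_bd hf
  obtain ⟨d, hd⟩ := SS_bd hg
  obtain ⟨p1, -, -, G, hG⟩ := hf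
  obtain ⟨p2, -, -, H, hH⟩ := hg
  rw [ph_eq hc hG, ph_eq hd hH, ph_eq (hc.add hd) (hG.add hc hd hH), M_add]

lemma ph_smul {f : ℝ → ℂ} (hf : f ∈ SS) (a : ℂ) : ph (a • f) = a * ph f := by
  obtain ⟨c, hc⟩ := SS_bd hf
  obtain ⟨p1, -, -, G, hG⟩ := hf
  rw [ph_eq hc hG, ph_eq (hc.smul a) (hG.smul hc a), M_smul]

lemma ph_mul {f g : ℝ → ℂ} (hf : f ∈ AA) (hg : g ∈ AA) : ph (f * g) = ph f * ph g := by
  obtain ⟨hf, hf'⟩ := hf
  obtain ⟨hg, hg'⟩ := hg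
  obtain ⟨c, hc⟩ := SS_bd hf
  obtain ⟨d, hd⟩ := SS_bd hg
  obtain ⟨p1, -, -, G, hG⟩ := hf
  obtain ⟨p2, -, -, H, hH⟩ := hg
  rw [ph_eq hc hG, ph_eq hd hH, ph_eq (hc.mul hd) (hG.mul hc hd hH)]
  exact M_mul (ana1 hc hG hf') (ana2 hc hG hf') (ana1 hd hH hg') (ana2 hd hH hg')

lemma ph_congr {f g : ℝ → ℂ} (hf : f ∈ SS) (hg : g ∈ SS) (h : f =ᵐ[volume] g) : ph f = ph g := by
  obtain ⟨c, hc⟩ := SS_bd hf
  obtain ⟨d, hd⟩ := SS_bd hg
  obtain ⟨p1, -, -, G, hG⟩ := hf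
  rw [ph_eq hc hG, ph_eq hd (hG.congr h)]

/-! the three functions -/

noncomputable def gg (k : ℕ) : ℂ := fourier 1 (ga k)

lemma norm_gg (k : ℕ) : ‖gg k‖ = 1 := by
  unfold gg
  rw [fourier_apply]
  exact Circle.norm_coe _

noncomputable def c1 (n : ℕ) (z : ℂ) : ℂ := if Even n then K n z * bb n z else gg (n/2) * K n z
noncomputable def c2 (n : ℕ) (z : ℂ) : ℂ := if Even n then gg (n/2) * K n z else K n z * bb n z
noncomputable def c3 (n : ℕ) (z : ℂ) : ℂ := - K n z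

lemma c1_le (m : ℕ) (z : ℂ) (hz : ‖z‖ ≤ 1) : ‖c1 m z‖ ≤ ‖K m z‖ := by
  unfold c1
  split_ifs
  · rw [norm_mul]
    exact mul_le_of_le_one_right (norm_nonneg _) (bb_norm_le hz)
  · rw [norm_mul, norm_gg, one_mul]

lemma c2_le (m : ℕ) (z : ℂ) (hz : ‖z‖ ≤ 1) : ‖c2 m z‖ ≤ ‖K m z‖ := by
  unfold c2
  split_ifs
  · rw [norm_mul, norm_gg, one_mul]
  · rw [norm_mul]
    exact mul_le_of_le_one_right (norm_nonneg _) (bb_norm_le hz)

lemma c3_le (m : ℕ) (z : ℂ) (_hz : ‖z‖ ≤ 1) : ‖c3 m z‖ ≤ ‖K m z‖ := by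
  unfold c3
  rw [norm_neg]

lemma c1_diff (m : ℕ) : DiffContOnCl ℂ (c1 m) (ball 0 1) := by
  by_cases h : Even m
  · have : c1 m = fun z => K m z • bb m z := by
      ext z; simp [c1, h]
    rw [this]
    exact (diffcl_K m).smul (diffcl_bb m)
  · have : c1 m = fun z => gg (m/2) • K m z := by
      ext z; simp [c1, h]
    rw [this]
    exact (diffcl_K m).const_smul (gg (m/2))

lemma c2_diff (m : ℕ) : DiffContOnCl ℂ (c2 m) (ball 0 1) := by
  by_cases h : Even m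
  · have : c2 m = fun z => gg (m/2) • K m z := by
      ext z; simp [c2, h]
    rw [this]
    exact (diffcl_K m).const_smul (gg (m/2))
  · have : c2 m = fun z => K m z • bb m z := by
      ext z; simp [c2, h]
    rw [this]
    exact (diffcl_K m).smul (diffcl_bb m)

lemma c3_diff (m : ℕ) : DiffContOnCl ℂ (c3 m) (ball 0 1) := (diffcl_K m).neg

noncomputable def G1 : C(U × U, ℂ) := ⟨fun p => fourier 1 p.1, by fun_prop⟩
noncomputable def G2 : C(U × U, ℂ) := ⟨fun p => fourier 1 p.2, by fun_prop⟩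

lemma fa1 (n : ℕ) (t : ℝ) : (fourier 1 (ang n t) : ℂ) = bb n (ex t) := by
  rw [fourier_ang, zpow_one]

lemma s1 (n : ℕ) (t : ℝ) : ‖(0:ℂ) + c1 n (ex t) - G1 (sym n t)‖ ≤ ‖1 - K n (ex t)‖ := by
  have hG : ∀ p, G1 p = fourier 1 p.1 := fun p => rfl
  rw [hG]
  unfold c1 sym
  split_ifs
  · simp only [fa1]
    have : 0 + K n (ex t) * bb n (ex t) - bb n (ex t) = - (bb n (ex t) * (1 - K n (ex t))) := by ring
    rw [this, norm_neg, norm_mul]
    exact mul_le_of_le_one_left (norm_nonneg _) (bb_norm_le (norm_ex t).le)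
  · have : 0 + gg (n/2) * K n (ex t) - fourier 1 (ga (n/2)) = - (gg (n/2) * (1 - K n (ex t))) := by
      unfold gg; ring
    rw [this, norm_neg, norm_mul, norm_gg, one_mul]

lemma s2 (n : ℕ) (t : ℝ) : ‖(0:ℂ) + c2 n (ex t) - G2 (sym n t)‖ ≤ ‖1 - K n (ex t)‖ := by
  have hG : ∀ p, G2 p = fourier 1 p.2 := fun p => rfl
  rw [hG]
  unfold c2 sym
  split_ifs
  · have : 0 + gg (n/2) * K n (ex t) - fourier 1 (ga (n/2)) = - (gg (n/2) * (1 - K n (ex t))) := by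
      unfold gg; ring
    rw [this, norm_neg, norm_mul, norm_gg, one_mul]
  · simp only [fa1]
    have : 0 + K n (ex t) * bb n (ex t) - bb n (ex t) = - (bb n (ex t) * (1 - K n (ex t))) := by ring
    rw [this, norm_neg, norm_mul]
    exact mul_le_of_le_one_left (norm_nonneg _) (bb_norm_le (norm_ex t).le)

lemma s3 (n : ℕ) (t : ℝ) : ‖(1:ℂ) + c3 n (ex t) - (0 : C(U × U, ℂ)) (sym n t)‖ ≤ ‖1 - K n (ex t)‖ := by
  unfold c3
  simp [sub_eq_add_neg]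

lemma int_f1 : ∫ x, (fourier 1 x : ℂ) ∂hU = 0 := by
  have := congrFun (fourierCoeff_fourier (T := 1) 1) 0
  rw [fc_zero] at this
  rw [this, Pi.single_eq_of_ne]
  norm_num

lemma M_G1 : M G1 = 0 := by
  unfold M
  have hG : ∀ p, G1 p = fourier 1 p.1 := fun p => rfl
  simp_rw [hG, int_f1]
  simp

lemma M_G2 : M G2 = 0 := by
  unfold M
  have hG : ∀ p, G2 p = fourier 1 p.2 := fun p => rfl
  simp_rw [hG]
  simp only [integral_const, probReal_univ, one_smul]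
  exact int_f1

lemma M_zero : M 0 = 0 := by
  unfold M; simp

lemma FF_mem {c : ℕ → ℂ → ℂ} (e : ℂ) (hc_le : ∀ m z, ‖z‖ ≤ 1 → ‖c m z‖ ≤ ‖K m z‖)
    (hc : ∀ m, DiffContOnCl ℂ (c m) (ball 0 1)) {G : C(U × U, ℂ)}
    (hsym : ∀ n t, ‖e + c n (ex t) - G (sym n t)‖ ≤ ‖1 - K n (ex t)‖) :
    (fun t => FF c e (ex t)) ∈ AA ∧ ph (fun t => FF c e (ex t)) = M G := by
  have hS := FF_Sy e hc_le hc hsym
  refine ⟨⟨SS_mk (FF_periodic e) (FF_Bd e hc_le hc) hS, ?_⟩, ph_eq (FF_Bd e hc_le hc) hS⟩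
  intro n hn
  exact FF_fourier e hc_le hc n hn

lemma FF_approx {c : ℕ → ℂ → ℂ} (e : ℂ) (hc_le : ∀ m z, ‖z‖ ≤ 1 → ‖c m z‖ ≤ ‖K m z‖) {z : ℂ} (hz : ‖z‖ ≤ 1)
    {n : ℕ} (hn : ∀ m, m ≠ n → ‖K m z‖ ≤ (a m / 25)^2) : ‖FF c e z - (e + c n z)‖ ≤ 1/100 := by
  have hs := (summable_term hc_le hz).of_norm
  have h1 : FF c e z = e + ((c n z - c n 1) + ∑' m, (if m = n then 0 else (c m z - c m 1))) := by
    unfold FF
    rw [hs.tsum_eq_add_tsum_ite n]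
  have h2 : FF c e z - (e + c n z) = - c n 1 + ∑' m, (if m = n then 0 else (c m z - c m 1)) := by
    rw [h1]; ring
  have hb := (hasSum_a_div 25).add (hasSum_a_div 100)
  rw [h2]
  have h3 : ‖- c n 1‖ ≤ (a n/100)^2 := by
    rw [norm_neg]
    exact (hc_le n 1 (by simp)).trans (K_one n)
  have h4 : ‖∑' m, (if m = n then 0 else (c m z - c m 1))‖ ≤ 1/3/25^2 + 1/3/100^2 := by
    apply tsum_of_norm_bounded hb
    intro m
    by_cases h : m = n
    · rw [if_pos h, norm_zero]; positivity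
    · rw [if_neg h]
      have := term_le hc_le hz m
      have := hn m h
      linarith
  have h5 : (a n/100)^2 ≤ 1/10000 := by
    have h6 := a_le n
    have h7 := a_pos n
    have : (a n/100)^2 ≤ ((1/2)/100)^2 := by gcongr
    linarith
  calc ‖- c n 1 + ∑' m, (if m = n then 0 else (c m z - c m 1))‖ ≤ _ := norm_add_le _ _
    _ ≤ 1/10000 + (1/3/25^2 + 1/3/100^2) := add_le_add (h3.trans h5) h4
    _ ≤ 1/100 := by norm_num

lemma corona {z : ℂ} (hz : ‖z‖ < 1) (h1 : ‖FF c1 0 z‖ < 1/4) (h2 : ‖FF c2 0 z‖ < 1/4) (h3 : ‖FF c3 1 z‖ < 1/4) : False := by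
  obtain ⟨n, hn⟩ := K_star hz.le
  have hn' : ∀ m, m ≠ n → ‖K m z‖ ≤ (a m / 25)^2 := fun m hm => (hn m).2 hm
  have e1 := FF_approx 0 c1_le hz.le hn'
  have e2 := FF_approx 0 c2_le hz.le hn'
  have e3 := FF_approx 1 c3_le hz.le hn'
  have hK : 1/2 ≤ ‖K n z‖ := by
    have h4 : (1:ℂ) = K n z + (FF c3 1 z - (FF c3 1 z - (1 + c3 n z))) := by unfold c3; ring
    have h5 : ‖(1:ℂ)‖ ≤ ‖K n z‖ + (‖FF c3 1 z‖ + ‖FF c3 1 z - (1 + c3 n z)‖) := by
      conv_lhs => rw [h4]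
      refine (norm_add_le _ _).trans (add_le_add (le_refl _) (norm_sub_le _ _))
    rw [norm_one] at h5
    linarith
  by_cases hev : Even n
  · have h6 : c2 n z = gg (n/2) * K n z := by unfold c2; rw [if_pos hev]
    have h7 : ‖c2 n z‖ = ‖K n z‖ := by rw [h6, norm_mul, norm_gg, one_mul]
    have h8 : ‖c2 n z‖ ≤ ‖FF c2 0 z‖ + ‖FF c2 0 z - (0 + c2 n z)‖ := by
      have : c2 n z = FF c2 0 z - (FF c2 0 z - (0 + c2 n z)) := by ring
      conv_lhs => rw [this]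
      exact norm_sub_le _ _
    linarith
  · have h6 : c1 n z = gg (n/2) * K n z := by unfold c1; rw [if_neg hev]
    have h7 : ‖c1 n z‖ = ‖K n z‖ := by rw [h6, norm_mul, norm_gg, one_mul]
    have h8 : ‖c1 n z‖ ≤ ‖FF c1 0 z‖ + ‖FF c1 0 z - (0 + c1 n z)‖ := by
      have : c1 n z = FF c1 0 z - (FF c1 0 z - (0 + c1 n z)) := by ring
      conv_lhs => rw [this]
      exact norm_sub_le _ _
    linarith

end Pool.Agent.Helper401.Dw
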