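import Mathlib

set_option autoImplicit false
open Polynomial Filter Topology Metric Set

namespace Pool.Agent.Helper401.Gp

noncomputable def FF (P : ℂ[X][X]) (z y : ℂ) : ℂ := (P.map (evalRingHom z)).eval y

lemma FF_eq (P : ℂ[X][X]) (z y : ℂ) :
    FF P z y = ∑ i ∈ Finset.range (P.natDegree + 1), (P.coeff i).eval z * y^i := by
  unfold FF
  rw [eval_map, eval₂_eq_sum_range]
  rfl

lemma FF_cont (P : ℂ[X][X]) : Continuous (fun q : ℂ × ℂ => FF P q.1 q.2) := by
  simp_rw [FF_eq]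
  fun_prop

lemma prod_lower (s : Multiset ℂ) (S : ℝ) (y : ℂ) (hS : S ≤ ‖y‖) (hs : ∀ x ∈ s, ‖x‖ ≤ S) :
    (‖y‖ - S)^(Multiset.card s) ≤ ‖(s.map (fun x => y - x)).prod‖ := by
  induction s using Multiset.induction_on with
  | empty => simp
  | cons a s ih =>
    rw [Multiset.map_cons, Multiset.prod_cons, Multiset.card_cons, norm_mul, pow_succ, mul_comm]
    have h1 := ih (fun x hx => hs x (Multiset.mem_cons_of_mem hx))
    have h2 : ‖y‖ - S ≤ ‖y - a‖ := by
      have := hs a (Multiset.mem_cons_self a s)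
      have := norm_sub_norm_le y a
      linarith
    have h3 : 0 ≤ ‖y‖ - S := by linarith
    gcongr

lemma FF_lower (P : ℂ[X][X]) (hP : P.Monic) (S : ℝ) (z y : ℂ)
    (h : ∀ y, FF P z y = 0 → ‖y‖ ≤ S) (hy : S ≤ ‖y‖) : (‖y‖ - S)^P.natDegree ≤ ‖FF P z y‖ := by
  have hm : (P.map (evalRingHom z)).Monic := hP.map _
  have hs : (P.map (evalRingHom z)).Splits := IsAlgClosed.splits _
  have h1 : FF P z y = ((P.map (evalRingHom z)).roots.map (fun x => y - x)).prod := by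
    unfold FF
    rw [hs.eval_eq_prod_roots_of_monic hm]
  rw [h1]
  have h2 : P.natDegree = Multiset.card (P.map (evalRingHom z)).roots := by
    rw [← hs.natDegree_eq_card_roots, hP.natDegree_map]
  rw [h2]
  apply prod_lower _ _ _ hy
  intro x hx
  apply h
  unfold FF
  exact (mem_roots'.mp hx).2

lemma root_bound (P : ℂ[X][X]) (hP : P.Monic) :
    ∃ C : ℝ, ∀ z y : ℂ, ‖z‖ ≤ 1 → FF P z y = 0 → ‖y‖ ≤ C := by
  have h1 : ∀ i : ℕ, ∃ c : ℝ, 0 ≤ c ∧ ∀ z : ℂ, ‖z‖ ≤ 1 → ‖(P.coeff i).eval z‖ ≤ c := by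
    intro i
    obtain ⟨c, hc⟩ := (isCompact_closedBall (0:ℂ) 1).exists_bound_of_continuousOn
      (f := fun z => (P.coeff i).eval z) (by fun_prop)
    refine ⟨max c 0, le_max_right _ _, fun z hz => (hc z (by simpa using hz)).trans (le_max_left _ _)⟩
  choose c hc0 hc using h1
  refine ⟨(∑ i ∈ Finset.range P.natDegree, c i) + 1, ?_⟩
  intro z y hz hy
  have hm : (P.map (evalRingHom z)).Monic := hP.map _
  have hr : (P.map (evalRingHom z)).IsRoot y := hy
  have h2 : ‖y‖ ≤ (cauchyBound (P.map (evalRingHom z)) : ℝ) := by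
    have := (hr.norm_lt_cauchyBound hm.ne_zero).le
    exact_mod_cast this
  refine h2.trans ?_
  unfold cauchyBound
  rw [hm.leadingCoeff, hP.natDegree_map, nnnorm_one, div_one, NNReal.coe_add, NNReal.coe_one]
  gcongr
  have hn : 0 ≤ ∑ i ∈ Finset.range P.natDegree, c i := Finset.sum_nonneg (fun i _ => hc0 i)
  have : Finset.sup (Finset.range P.natDegree) (fun i => ‖(P.map (evalRingHom z)).coeff i‖₊) ≤
      Real.toNNReal (∑ i ∈ Finset.range P.natDegree, c i) := by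
    apply Finset.sup_le
    intro i hi
    rw [Real.le_toNNReal_iff_coe_le hn, coe_nnnorm, coeff_map, coe_evalRingHom]
    exact (hc i z hz).trans (Finset.single_le_sum (f := c) (fun i _ => hc0 i) hi)
  have h3 := NNReal.coe_le_coe.mpr this
  rwa [Real.coe_toNNReal _ hn] at h3

lemma mp (P : ℂ[X][X]) (hP : P.Monic) (S : ℝ) (hS : 0 ≤ S) (Dn : Set ℂ) (hD : ∀ z : ℂ, ‖z‖ = 1 → z ∈ closure Dn)
    (h : ∀ z ∈ Dn, ∀ y, FF P z y = 0 → ‖y‖ ≤ S) {z0 y0 : ℂ} (hz0 : ‖z0‖ ≤ 1) (h0 : FF P z0 y0 = 0) :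
    ‖y0‖ ≤ S := by
  by_contra hlt
  push Not at hlt
  have hy0 : 0 < ‖y0‖ := lt_of_le_of_lt hS hlt
  set δ : ℝ := (‖y0‖ - S)^P.natDegree with hδ
  have hδ0 : 0 < δ := by
    rw [hδ]
    have : 0 < ‖y0‖ - S := by linarith
    positivity
  -- lower bound on the circle
  have hcirc : ∀ s : ℝ, 1 ≤ s → ∀ z : ℂ, ‖z‖ = 1 → δ ≤ ‖FF P z (s * y0)‖ := by
    intro s hs z hz
    have hcl : IsClosed {z : ℂ | δ ≤ ‖FF P z (s * y0)‖} := by
      apply isClosed_le continuous_const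
      exact ((FF_cont P).comp (by fun_prop : Continuous (fun z : ℂ => (z, (s:ℂ) * y0)))).norm
    have hsub : Dn ⊆ {z : ℂ | δ ≤ ‖FF P z (s * y0)‖} := by
      intro z hz
      have hn : ‖(s:ℂ) * y0‖ = s * ‖y0‖ := by
        rw [norm_mul, Complex.norm_real, Real.norm_eq_abs, abs_of_nonneg (by linarith)]
      have h3 : ‖y0‖ ≤ ‖(s:ℂ) * y0‖ := by
        rw [hn]; nlinarith
      have := FF_lower P hP S z (s * y0) (h z hz) (by linarith)
      refine le_trans ?_ this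
      rw [hδ]
      have : 0 ≤ ‖y0‖ - S := by linarith
      gcongr
    exact (closure_minimal hsub hcl) (hD z hz)
  -- max modulus
  have hmax : ∀ s : ℝ, 1 ≤ s → (∀ z : ℂ, ‖z‖ ≤ 1 → FF P z (s * y0) ≠ 0) →
      ∀ z : ℂ, ‖z‖ ≤ 1 → δ ≤ ‖FF P z (s * y0)‖ := by
    intro s hs hne z hz
    have hdiff : Differentiable ℂ (fun z => FF P z (s * y0)) := by
      simp_rw [FF_eq]
      fun_prop
    have hd : DiffContOnCl ℂ (fun z => (FF P z (s * y0))⁻¹) (ball 0 1) := by
      apply DifferentiableOn.diffContOnCl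
      rw [closure_ball _ one_ne_zero]
      intro w hw
      exact (hdiff.differentiableAt.inv (hne w (by simpa using hw))).differentiableWithinAt
    have := Complex.norm_le_of_forall_mem_frontier_norm_le (C := δ⁻¹) isBounded_ball hd (by
      intro w hw
      rw [frontier_ball _ one_ne_zero] at hw
      rw [norm_inv]
      apply inv_anti₀ hδ0
      exact hcirc s hs w (by simpa using hw)) (z := z) (by
        rw [closure_ball _ one_ne_zero]; simpa using hz)
    rw [norm_inv] at this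
    have hpos : 0 < ‖FF P z (s * y0)‖ := norm_pos_iff.mpr (hne z hz)
    exact (inv_le_inv₀ hpos hδ0).mp this
  obtain ⟨C, hC⟩ := root_bound P hP
  -- the bad set
  let Q : Set (ℝ × ℂ) := (Icc (1:ℝ) (C / ‖y0‖) ×ˢ closedBall (0:ℂ) 1) ∩ {q | FF P q.2 ((q.1 : ℂ) * y0) = 0}
  have hQc : IsCompact Q := by
    apply (isCompact_Icc.prod (isCompact_closedBall _ _)).inter_right
    apply isClosed_eq _ continuous_const
    exact (FF_cont P).comp (by fun_prop : Continuous (fun q : ℝ × ℂ => (q.2, (q.1:ℂ) * y0)))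
  have hmem : ∀ s : ℝ, 1 ≤ s → ∀ z : ℂ, ‖z‖ ≤ 1 → FF P z (s * y0) = 0 → (s, z) ∈ Q := by
    intro s hs z hz hf
    refine ⟨⟨⟨hs, ?_⟩, by simpa using hz⟩, hf⟩
    have := hC z _ hz hf
    rw [norm_mul, Complex.norm_real, Real.norm_eq_abs, abs_of_nonneg (by linarith)] at this
    exact (le_div_iff₀ hy0).mpr this
  have hne : (Prod.fst '' Q).Nonempty := ⟨1, (1, z0), hmem 1 le_rfl z0 hz0 (by simpa using h0), rfl⟩
  have hcomp : IsCompact (Prod.fst '' Q) := hQc.image continuous_fst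
  obtain ⟨⟨s, z⟩, hsz, hs'⟩ := hcomp.sSup_mem hne
  simp only at hs'
  have hs1 : 1 ≤ s := hsz.1.1.1
  have hz1 : ‖z‖ ≤ 1 := by simpa using hsz.1.2
  have hup : ∀ s', s < s' → ∀ z : ℂ, ‖z‖ ≤ 1 → FF P z (s' * y0) ≠ 0 := by
    intro s' hs2 w hw hf
    have := le_csSup hcomp.bddAbove ⟨(s', w), hmem s' (by linarith) w hw hf, rfl⟩
    rw [← hs'] at this
    simp only at this
    linarith
  have hlim : ∀ᶠ s' : ℝ in 𝓝[>] s, δ ≤ ‖FF P z ((s' : ℂ) * y0)‖ := by
    filter_upwards [self_mem_nhdsWithin] with s' hs2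
    exact hmax s' (hs1.trans (le_of_lt hs2)) (hup s' hs2) z hz1
  have hcont : Continuous (fun s' : ℝ => ‖FF P z (s' * y0)‖) :=
    ((FF_cont P).comp (by fun_prop : Continuous (fun s' : ℝ => (z, (s':ℂ) * y0)))).norm
  have ht : Tendsto (fun s' : ℝ => ‖FF P z (s' * y0)‖) (𝓝[>] s) (𝓝 ‖FF P z (s * y0)‖) :=
    (hcont.tendsto s).mono_left nhdsWithin_le_nhds
  have := ge_of_tendsto ht hlim
  have hz2 : FF P z (s * y0) = 0 := hsz.2
  rw [hz2, norm_zero] at this
  linarith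

end Pool.Agent.Helper401.Gp
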