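import Pool.Agent.Helper401.Gp1

set_option autoImplicit false
open Polynomial Filter Topology Metric Set

namespace Pool.Agent.Helper401.Gp

section
variable {k : Type} [Field k] [Algebra k ℂ]

abbrev Kf (k : Type) [Field k] : Type := FractionRing k[X]
abbrev Kb (k : Type) [Field k] : Type := AlgebraicClosure (Kf k)

noncomputable def ev (z : ℂ) : k[X] →+* ℂ := eval₂RingHom (algebraMap k ℂ) z

lemma ev_X (z : ℂ) : ev (k := k) z X = z := by
  unfold ev; simp

lemma ev_C (z : ℂ) (q : k) : ev (k := k) z (C q) = algebraMap k ℂ q := by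
  unfold ev; simp

lemma ev_injective {z : ℂ} (hz : Transcendental k z) : Function.Injective (ev (k := k) z) := by
  rw [transcendental_iff_injective] at hz
  exact hz

noncomputable def lft (p : k[X][X]) : ℂ[X][X] := p.map (mapRingHom (algebraMap k ℂ))

lemma FF_lft (p : k[X][X]) (z y : ℂ) : FF (lft p) z y = eval₂ (ev z) y p := by
  unfold FF lft
  rw [Polynomial.map_map, eval_map]
  congr 1
  ext q
  · simp [ev]
  · simp [ev]

lemma lft_monic {p : k[X][X]} (hp : p.Monic) : (lft p).Monic := hp.map _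

/-- ring homs of the big field over the point z -/
def Over (z : ℂ) (om : Kb k →+* ℂ) : Prop := ∀ p : k[X], om (algebraMap k[X] (Kb k) p) = ev z p

lemma om_root {z : ℂ} {om : Kb k →+* ℂ} (h : Over z om) {x : Kb k} (_hx : IsIntegral k[X] x) :
    FF (lft (minpoly k[X] x)) z (om x) = 0 := by
  rw [FF_lft]
  have h1 : aeval x (minpoly k[X] x) = 0 := minpoly.aeval _ _
  have h2 := congrArg om h1
  rw [map_zero, aeval_def, hom_eval₂] at h2
  rw [← h2]
  congr 1
  ext p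
  · simpa using (h (C p)).symm
  · simpa using (h X).symm

lemma exists_om {z : ℂ} (hz : Transcendental k z) {x : Kb k} (hx : IsIntegral k[X] x) {y : ℂ}
    (hy : FF (lft (minpoly k[X] x)) z y = 0) : ∃ om : Kb k →+* ℂ, Over z om ∧ om x = y := by
  let _ : Algebra (Kf k) ℂ := (IsFractionRing.lift (ev_injective hz) : Kf k →+* ℂ).toAlgebra
  have halg : ∀ p : k[X], algebraMap (Kf k) ℂ (algebraMap k[X] (Kf k) p) = ev z p := by
    intro p
    exact IsFractionRing.lift_algebraMap (ev_injective hz) p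
  have h1 := Algebra.IsAlgebraic.range_eval_eq_rootSet_minpoly (F := Kf k) (K := Kb k) ℂ x
  have h2 : y ∈ (minpoly (Kf k) x).rootSet ℂ := by
    rw [mem_rootSet]
    refine ⟨minpoly.ne_zero (Algebra.IsIntegral.isIntegral x), ?_⟩
    rw [minpoly.isIntegrallyClosed_eq_field_fractions' (Kf k) hx, aeval_def, eval₂_map]
    rw [FF_lft] at hy
    have : (algebraMap (Kf k) ℂ).comp (algebraMap k[X] (Kf k)) = ev z := RingHom.ext halg
    rw [this]
    exact hy
  rw [← h1] at h2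
  obtain ⟨ψ, hψ⟩ := h2
  refine ⟨ψ.toRingHom, ?_, hψ⟩
  intro p
  have : algebraMap k[X] (Kb k) p = algebraMap (Kf k) (Kb k) (algebraMap k[X] (Kf k) p) :=
    IsScalarTower.algebraMap_apply _ _ _ _
  rw [this]
  change ψ (algebraMap (Kf k) (Kb k) (algebraMap k[X] (Kf k) p)) = _
  rw [ψ.commutes, halg]


lemma exists_over {z : ℂ} (hz : Transcendental k z) : ∃ om : Kb k →+* ℂ, Over z om := by
  let _ : Algebra (Kf k) ℂ := (IsFractionRing.lift (ev_injective hz) : Kf k →+* ℂ).toAlgebra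
  have halg : ∀ p : k[X], algebraMap (Kf k) ℂ (algebraMap k[X] (Kf k) p) = ev z p := by
    intro p
    exact IsFractionRing.lift_algebraMap (ev_injective hz) p
  let ψ : Kb k →ₐ[Kf k] ℂ := IsAlgClosed.lift
  refine ⟨ψ.toRingHom, ?_⟩
  intro p
  have : algebraMap k[X] (Kb k) p = algebraMap (Kf k) (Kb k) (algebraMap k[X] (Kf k) p) :=
    IsScalarTower.algebraMap_apply _ _ _ _
  rw [this]
  change ψ (algebraMap (Kf k) (Kb k) (algebraMap k[X] (Kf k) p)) = _
  rw [ψ.commutes, halg]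

variable [Countable k]

lemma circle_dense {z0 : ℂ} (h0 : ‖z0‖ = 1) : z0 ∈ closure {z : ℂ | ‖z‖ = 1 ∧ Transcendental k z} := by
  let g : ℝ → ℂ := fun t => z0 * ((1 + t * Complex.I) / (1 - t * Complex.I))
  have hne : ∀ t : ℝ, (1 : ℂ) - t * Complex.I ≠ 0 := by
    intro t h
    have := congrArg Complex.re h
    simp at this
  have hne' : ∀ t : ℝ, (1 : ℂ) + t * Complex.I ≠ 0 := by
    intro t h
    have := congrArg Complex.re h
    simp at this
  have hz0 : z0 ≠ 0 := by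
    intro h; rw [h, norm_zero] at h0; norm_num at h0
  have hgc : Continuous g := by
    apply Continuous.mul continuous_const
    apply Continuous.div (by fun_prop) (by fun_prop) hne
  have hginj : Function.Injective g := by
    intro s t hst
    simp only [g] at hst
    have h1 := mul_left_cancel₀ hz0 hst
    rw [div_eq_div_iff (hne s) (hne t)] at h1
    have h2 := congrArg Complex.im h1
    simp only [Complex.mul_im, Complex.add_re, Complex.one_re, Complex.mul_re, Complex.ofReal_re,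
      Complex.I_re, mul_zero, Complex.ofReal_im, Complex.I_im, mul_one, sub_self, add_zero, Complex.sub_im,
      Complex.one_im, zero_sub, Complex.add_im, zero_add, Complex.sub_re, sub_zero, one_mul] at h2
    linarith
  have hg0 : g 0 = z0 := by simp [g]
  have hgn : ∀ t, ‖g t‖ = 1 := by
    intro t
    simp only [g]
    rw [norm_mul, h0, one_mul, norm_div]
    have : ‖(1:ℂ) - t * Complex.I‖ = ‖(1:ℂ) + t * Complex.I‖ := by
      rw [← Complex.norm_conj]
      congr 1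
      simp
    rw [this, div_self]
    exact norm_ne_zero_iff.mpr (hne' t)
  have hcount : {t : ℝ | IsAlgebraic k (g t)}.Countable :=
    Set.Countable.preimage_of_injOn (Algebraic.countable k ℂ) hginj.injOn
  have hd := hcount.dense_compl ℝ
  have h1 : (0:ℝ) ∈ closure {t : ℝ | IsAlgebraic k (g t)}ᶜ := hd 0
  have h2 := image_closure_subset_closure_image hgc ⟨0, h1, rfl⟩
  rw [hg0] at h2
  apply closure_mono _ h2
  rintro _ ⟨t, ht, rfl⟩
  exact ⟨hgn t, ht⟩

lemma exists_inside : ∃ z : ℂ, ‖z‖ ≤ 1/2 ∧ Transcendental k z := by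
  have hd := (Algebraic.countable k ℂ).dense_compl ℂ
  obtain ⟨z, hz1, hz2⟩ := hd.exists_mem_open (isOpen_ball (x := (0:ℂ)) (ε := 1/2)) ⟨0, by simp⟩
  refine ⟨z, ?_, hz1⟩
  have := mem_ball_zero_iff.mp hz2
  exact this.le

/-- the maximum principle for algebraic functions -/
lemma max_alg {z0 : ℂ} (hz0 : ‖z0‖ ≤ 1) {m0 : Kb k →+* ℂ} (h0 : Over z0 m0) {x : Kb k} (hx : IsIntegral k[X] x)
    {ε : ℝ} (hε : 0 < ε) :
    ∃ (z : ℂ) (om : Kb k →+* ℂ), ‖z‖ = 1 ∧ Over z om ∧ ‖m0 x‖ - ε ≤ ‖om x‖ := by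
  by_contra hcon
  push Not at hcon
  obtain ⟨z1, hz1, hz1'⟩ := closure_nonempty_iff.mp ⟨1, circle_dense (k := k) (z0 := 1) (by simp)⟩
  obtain ⟨om1, hom1⟩ := exists_over hz1'
  have h1 := hcon z1 om1 hz1 hom1
  have hS : 0 ≤ ‖m0 x‖ - ε := (norm_nonneg _).trans h1.le
  have := mp (lft (minpoly k[X] x)) (lft_monic (minpoly.monic hx)) (‖m0 x‖ - ε) hS
    {z : ℂ | ‖z‖ = 1 ∧ Transcendental k z} (fun z hz => circle_dense hz) (by
      rintro z ⟨hz, hz'⟩ y hy
      obtain ⟨om, ho, rfl⟩ := exists_om hz' hx hy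
      exact (hcon z om hz ho).le) hz0 (om_root h0 hx)
  linarith

omit [Countable k] in
lemma om_bdd {x : Kb k} (hx : IsIntegral k[X] x) : ∃ C : ℝ, ∀ (z : ℂ) (om : Kb k →+* ℂ), ‖z‖ ≤ 1 → Over z om →
    ‖om x‖ ≤ C := by
  obtain ⟨C, hC⟩ := root_bound (lft (minpoly k[X] x)) (lft_monic (minpoly.monic hx))
  exact ⟨C, fun z om hz ho => hC z _ hz (om_root ho hx)⟩

instance count_Kb : Countable (Kb k) := by
  have h1 : Cardinal.mk (Kb k) ≤ max (Cardinal.mk k[X]) Cardinal.aleph0 := by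
    have : Algebra.IsAlgebraic k[X] (Kb k) := by
      rw [IsFractionRing.comap_isAlgebraic_iff (A := k[X]) (K := Kf k)]
      infer_instance
    have : Module.IsTorsionFree k[X] (Kb k) := .trans_faithfulSMul k[X] (Kf k) (Kb k)
    exact Algebra.IsAlgebraic.cardinalMk_le_max k[X] (Kb k)
  have h2 : Cardinal.mk k[X] ≤ Cardinal.aleph0 := by
    refine (Polynomial.cardinalMk_le_max).trans ?_
    simp
  rw [← Cardinal.mk_le_aleph0_iff]
  exact h1.trans (max_le h2 le_rfl)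

theorem exists_dat0 (hd : DenseRange (algebraMap k ℂ)) :
    ∃ (O : Type) (_ : CommRing O) (om : ℕ → O →+* ℂ) (m0 : O →+* ℂ) (T : O),
    (∀ f, ∃ C : ℝ, ∀ n, ‖om n f‖ ≤ C) ∧
    (∀ c : ℂ, ∀ ε : ℝ, 0 < ε → ∃ q : O, ∃ c' : ℂ, ‖c' - c‖ ≤ ε ∧ (∀ n, om n q = c') ∧ m0 q = c') ∧
    (∀ f : O, ∃ g, g * g = f) ∧ (∀ n, ‖om n T‖ = 1) ∧ ‖m0 T‖ ≤ 1/2 ∧
    (∀ f, ∀ ε : ℝ, 0 < ε → ∀ N, ∃ n, N ≤ n ∧ ‖m0 f‖ - ε ≤ ‖om n f‖) := by
  classical
  let OO : Subalgebra k[X] (Kb k) := integralClosure k[X] (Kb k)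
  obtain ⟨z0, hz0, hz0'⟩ := exists_inside (k := k)
  obtain ⟨m0, hm0⟩ := exists_over hz0'
  have : Countable OO := inferInstance
  obtain ⟨s, hs⟩ := exists_surjective_nat OO
  have hpick : ∀ n : ℕ, ∃ (z : ℂ) (om : Kb k →+* ℂ), ‖z‖ = 1 ∧ Over z om ∧
      ‖m0 (s n.unpair.1 : Kb k)‖ - 1 / ((n.unpair.2 : ℝ) + 1) ≤ ‖om (s n.unpair.1 : Kb k)‖ := by
    intro n
    apply max_alg (by linarith) hm0 (s n.unpair.1).2 (by positivity)
  choose zz om hzz hom hle using hpick
  refine ⟨OO, inferInstance, fun n => (om n).comp (OO.val : OO →+* Kb k), m0.comp (OO.val : OO →+* Kb k),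
    algebraMap k[X] OO X, ?_, ?_, ?_, ?_, ?_, ?_⟩
  · intro f
    obtain ⟨C, hC⟩ := om_bdd f.2
    exact ⟨C, fun n => hC (zz n) (om n) (hzz n).le (hom n)⟩
  · intro c ε hε
    obtain ⟨q, hq⟩ := hd.exists_dist_lt c hε
    refine ⟨algebraMap k[X] OO (C q), algebraMap k ℂ q, ?_, ?_, ?_⟩
    · rw [dist_comm, dist_eq_norm] at hq
      exact hq.le
    · intro n
      have := hom n (C q)
      rw [ev_C] at this
      exact this
    · have := hm0 (C q)
      rw [ev_C] at this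
      exact this
  · intro f
    obtain ⟨g, hg⟩ := IsAlgClosed.exists_pow_nat_eq (f : Kb k) (n := 2) (by norm_num)
    have hgi : IsIntegral k[X] g := by
      apply IsIntegral.of_pow (n := 2) (by norm_num)
      rw [hg]; exact f.2
    refine ⟨⟨g, hgi⟩, ?_⟩
    apply Subtype.ext
    change g * g = f
    rw [← hg]; ring
  · intro n
    have := hom n X
    rw [ev_X] at this
    change ‖om n (algebraMap k[X] (Kb k) X)‖ = 1
    rw [this]; exact hzz n
  · have := hm0 X
    rw [ev_X] at this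
    change ‖m0 (algebraMap k[X] (Kb k) X)‖ ≤ 1/2
    rw [this]; exact hz0
  · intro f ε hε N
    obtain ⟨a, rfl⟩ := hs f
    obtain ⟨j0, hj0⟩ := exists_nat_one_div_lt hε
    refine ⟨Nat.pair a (max j0 N), (le_max_right _ _).trans (Nat.right_le_pair _ _), ?_⟩
    have h1 := hle (Nat.pair a (max j0 N))
    rw [Nat.unpair_pair] at h1
    have h2 : 1 / (((max j0 N : ℕ) : ℝ) + 1) ≤ 1 / ((j0 : ℝ) + 1) := by
      apply one_div_le_one_div_of_le (by positivity)
      have : (j0 : ℝ) ≤ ((max j0 N : ℕ) : ℝ) := by exact_mod_cast le_max_left _ _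
      linarith
    change ‖m0 (s a : Kb k)‖ - ε ≤ ‖om _ (s a : Kb k)‖
    simp only at h1
    linarith

end

lemma dense_k : DenseRange (algebraMap (algebraicClosure ℚ ℂ) ℂ) := by
  intro c
  rw [Metric.mem_closure_range_iff]
  intro ε hε
  obtain ⟨p, hp⟩ := Rat.denseRange_cast.exists_dist_lt c.re (half_pos hε)
  obtain ⟨q, hq⟩ := Rat.denseRange_cast.exists_dist_lt c.im (half_pos hε)
  have hI : Complex.I ∈ algebraicClosure ℚ ℂ := by
    rw [mem_algebraicClosure_iff]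
    refine ⟨X^2 + 1, ?_, by simp⟩
    have : (X^2 + 1 : ℚ[X]).Monic := by monicity!
    exact this.ne_zero
  have hp' : ((p : ℂ)) ∈ algebraicClosure ℚ ℂ := by
    exact (algebraicClosure ℚ ℂ).algebraMap_mem p
  have hq' : ((q : ℂ)) ∈ algebraicClosure ℚ ℂ := by
    exact (algebraicClosure ℚ ℂ).algebraMap_mem q
  refine ⟨⟨p + q * Complex.I, add_mem hp' (mul_mem hq' hI)⟩, ?_⟩
  change dist c (p + q * Complex.I) < ε
  rw [dist_eq_norm]
  refine (Complex.norm_le_abs_re_add_abs_im _).trans_lt ?_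
  rw [Real.dist_eq] at hp hq
  simp only [Complex.sub_re, Complex.add_re, Complex.ratCast_re, Complex.mul_re, Complex.I_re, mul_zero,
    Complex.ratCast_im, Complex.I_im, mul_one, sub_self, add_zero, Complex.sub_im, Complex.add_im,
    Complex.mul_im, zero_add]
  linarith

theorem exists_dat :
    ∃ (O : Type) (_ : CommRing O) (om : ℕ → O →+* ℂ) (m0 : O →+* ℂ) (T : O),
    (∀ f, ∃ C : ℝ, ∀ n, ‖om n f‖ ≤ C) ∧
    (∀ c : ℂ, ∀ ε : ℝ, 0 < ε → ∃ q : O, ∃ c' : ℂ, ‖c' - c‖ ≤ ε ∧ (∀ n, om n q = c') ∧ m0 q = c') ∧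
    (∀ f : O, ∃ g, g * g = f) ∧ (∀ n, ‖om n T‖ = 1) ∧ ‖m0 T‖ ≤ 1/2 ∧
    (∀ f, ∀ ε : ℝ, 0 < ε → ∀ N, ∃ n, N ≤ n ∧ ‖m0 f‖ - ε ≤ ‖om n f‖) := by
  have : Countable (algebraicClosure ℚ ℂ) := by
    have h := Algebraic.countable ℚ ℂ
    have : ((algebraicClosure ℚ ℂ : IntermediateField ℚ ℂ) : Set ℂ) = {x : ℂ | IsAlgebraic ℚ x} := by
      ext x
      exact mem_algebraicClosure_iff
    rw [← this] at h
    exact h.to_subtype
  exact exists_dat0 dense_k

end Pool.Agent.Helper401.Gp
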