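import Mathlib

set_option autoImplicit false
open Filter Topology Metric Set

namespace Pool.Agent.Helper401.Gp

noncomputable def ee (n : ℕ) : ℝ := (1/16)^(n^2)

lemma ee_pos (n : ℕ) : 0 < ee n := by unfold ee; positivity

noncomputable def ss (n : ℕ) (z : ℂ) : ℂ := (1 - z) / (ee n : ℂ) + (ee n : ℂ) / (1 - z)

noncomputable def K (n R : ℕ) (z : ℂ) : ℂ := (R : ℂ) / ((R : ℂ) + ss n z)

lemma re_pos {z : ℂ} (hz : ‖z‖ < 1) : 0 < (1 - z).re := by
  have := Complex.re_le_norm z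
  simp only [Complex.sub_re, Complex.one_re]
  linarith

lemma one_sub_ne {z : ℂ} (hz : ‖z‖ < 1) : 1 - z ≠ 0 := by
  intro h
  have := re_pos hz
  rw [h] at this
  simp at this

lemma norm_pos' {z : ℂ} (hz : ‖z‖ < 1) : 0 < ‖1 - z‖ := norm_pos_iff.mpr (one_sub_ne hz)

lemma norm_lt_two {z : ℂ} (hz : ‖z‖ < 1) : ‖1 - z‖ < 2 := by
  have := norm_sub_le 1 z
  rw [norm_one] at this
  linarith

lemma ss_re {n : ℕ} {z : ℂ} (hz : ‖z‖ < 1) : 0 < (ss n z).re := by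
  have h1 := re_pos hz
  have h2 := ee_pos n
  have h3 := norm_pos' hz
  unfold ss
  rw [Complex.add_re, Complex.div_ofReal_re]
  have : ((ee n : ℂ) / (1 - z)).re = ee n * (1 - z).re / ‖1 - z‖^2 := by
    rw [Complex.div_re, ← Complex.normSq_eq_norm_sq]
    simp
  rw [this]
  positivity

lemma den_ne {n R : ℕ} {z : ℂ} (hz : ‖z‖ < 1) : (R : ℂ) + ss n z ≠ 0 := by
  intro h
  have := congrArg Complex.re h
  have h1 := ss_re (n := n) hz
  simp only [Complex.add_re, Complex.natCast_re, Complex.zero_re] at this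
  have : (0:ℝ) ≤ R := Nat.cast_nonneg R
  linarith

lemma norm_ge1 {n R : ℕ} {z : ℂ} (hz : ‖z‖ < 1) : (R : ℝ) ≤ ‖(R : ℂ) + ss n z‖ := by
  have h1 := ss_re (n := n) hz
  have h2 := Complex.re_le_norm ((R : ℂ) + ss n z)
  simp only [Complex.add_re, Complex.natCast_re] at h2
  linarith

lemma norm_ge2 {n R : ℕ} {z : ℂ} (hz : ‖z‖ < 1) : ‖ss n z‖ ≤ ‖(R : ℂ) + ss n z‖ := by
  have h1 := ss_re (n := n) hz
  have hR : (0:ℝ) ≤ R := Nat.cast_nonneg R
  rw [← sq_le_sq₀ (norm_nonneg _) (norm_nonneg _), ← Complex.normSq_eq_norm_sq, ← Complex.normSq_eq_norm_sq,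
    Complex.normSq_apply, Complex.normSq_apply]
  simp only [Complex.add_re, Complex.natCast_re, Complex.add_im, Complex.natCast_im, zero_add]
  nlinarith [mul_nonneg hR h1.le]

lemma norm_ge3 {n R : ℕ} {z : ℂ} (hz : ‖z‖ < 1) : ‖(R : ℂ) - ss n z‖ ≤ ‖(R : ℂ) + ss n z‖ := by
  have h1 := ss_re (n := n) hz
  have hR : (0:ℝ) ≤ R := Nat.cast_nonneg R
  rw [← sq_le_sq₀ (norm_nonneg _) (norm_nonneg _), ← Complex.normSq_eq_norm_sq, ← Complex.normSq_eq_norm_sq,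
    Complex.normSq_apply, Complex.normSq_apply]
  simp only [Complex.add_re, Complex.natCast_re, Complex.add_im, Complex.natCast_im, zero_add, Complex.sub_re, Complex.sub_im, zero_sub]
  nlinarith [mul_nonneg hR h1.le]

lemma norm_pos_den {n R : ℕ} {z : ℂ} (hz : ‖z‖ < 1) : 0 < ‖(R : ℂ) + ss n z‖ := norm_pos_iff.mpr (den_ne hz)

lemma K_le_one {n R : ℕ} {z : ℂ} (hz : ‖z‖ < 1) : ‖K n R z‖ ≤ 1 := by
  unfold K
  rw [norm_div, div_le_one (norm_pos_den hz), Complex.norm_natCast]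
  exact norm_ge1 hz

lemma two_K {n R : ℕ} {z : ℂ} (hz : ‖z‖ < 1) : ‖2 * K n R z - 1‖ ≤ 1 := by
  have : 2 * K n R z - 1 = ((R : ℂ) - ss n z) / ((R : ℂ) + ss n z) := by
    unfold K
    have := den_ne (n := n) (R := R) hz
    field_simp
    ring
  rw [this, norm_div, div_le_one (norm_pos_den hz)]
  exact norm_ge3 hz

lemma K_mul_ss {n R : ℕ} {z : ℂ} (hz : ‖z‖ < 1) : ‖K n R z‖ * ‖ss n z‖ ≤ R := by
  unfold K
  rw [norm_div, Complex.norm_natCast, div_mul_eq_mul_div, div_le_iff₀ (norm_pos_den hz)]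
  have := norm_ge2 (n := n) (R := R) hz
  gcongr

lemma one_sub_K {n R : ℕ} {z : ℂ} (hz : ‖z‖ < 1) (hR : 0 < R) : ‖1 - K n R z‖ ≤ ‖ss n z‖ / R := by
  have : 1 - K n R z = ss n z / ((R : ℂ) + ss n z) := by
    unfold K
    have := den_ne (n := n) (R := R) hz
    field_simp
    ring
  rw [this, norm_div]
  have hR' : (0:ℝ) < R := by exact_mod_cast hR
  have := norm_ge1 (n := n) (R := R) hz
  gcongr

lemma ss_low1 {n : ℕ} {z : ℂ} (hz : ‖z‖ < 1) : ee n / ‖1 - z‖ - ‖1 - z‖ / ee n ≤ ‖ss n z‖ := by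
  have h2 := ee_pos n
  have h3 := norm_pos' hz
  unfold ss
  have h4 := norm_sub_norm_le ((ee n : ℂ) / (1 - z)) (-((1 - z) / (ee n : ℂ)))
  rw [sub_neg_eq_add, norm_neg, norm_div, norm_div, Complex.norm_real, Real.norm_eq_abs, abs_of_pos h2] at h4
  rw [add_comm]
  exact h4

lemma ss_low2 {n : ℕ} {z : ℂ} (hz : ‖z‖ < 1) : ‖1 - z‖ / ee n - ee n / ‖1 - z‖ ≤ ‖ss n z‖ := by
  have h2 := ee_pos n
  have h3 := norm_pos' hz
  unfold ss
  have h4 := norm_sub_norm_le ((1 - z) / (ee n : ℂ)) (-((ee n : ℂ) / (1 - z)))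
  rw [sub_neg_eq_add, norm_neg, norm_div, norm_div, Complex.norm_real, Real.norm_eq_abs, abs_of_pos h2] at h4
  exact h4

lemma ss_up {n : ℕ} {z : ℂ} : ‖ss n z‖ ≤ ‖1 - z‖ / ee n + ee n / ‖1 - z‖ := by
  have h2 := ee_pos n
  unfold ss
  refine (norm_add_le _ _).trans ?_
  rw [norm_div, norm_div, Complex.norm_real, Real.norm_eq_abs, abs_of_pos h2]

lemma far_aux {t q x : ℝ} (ht : 0 < t) (ht2 : t ≤ 1/2) (hq : 0 < q) (hqt : q ≤ t) (h : 1/q - q ≤ x) : 1/(2*t) ≤ x := by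
  have h1 : 1/t ≤ 1/q := one_div_le_one_div_of_le hq hqt
  have h2 : 1/(2*t) ≤ 1/t - t := by
    have : 1/t - t - 1/(2*t) = (1 - 2*t^2)/(2*t) := by field_simp; ring
    have h3 : 0 ≤ (1 - 2*t^2)/(2*t) := by
      apply div_nonneg _ (by positivity)
      nlinarith
    linarith
  linarith

lemma K_far {n R : ℕ} {z : ℂ} {t : ℝ} (hz : ‖z‖ < 1) (ht : 0 < t) (ht2 : t ≤ 1/2)
    (h : ‖1 - z‖ ≤ t * ee n ∨ ee n ≤ t * ‖1 - z‖) : ‖K n R z‖ ≤ 2 * t * R := by
  have h2 := ee_pos n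
  have h3 := norm_pos' hz
  have hs : 1/(2*t) ≤ ‖ss n z‖ := by
    rcases h with h | h
    · apply far_aux ht ht2 (q := ‖1 - z‖ / ee n) (by positivity) ((div_le_iff₀ h2).mpr h)
      have := ss_low1 (n := n) hz
      rwa [one_div_div]
    · apply far_aux ht ht2 (q := ee n / ‖1 - z‖) (by positivity) ((div_le_iff₀ h3).mpr h)
      have := ss_low2 (n := n) hz
      rwa [one_div_div]
  have h4 := K_mul_ss (n := n) (R := R) hz
  have h5 : ‖K n R z‖ * (1/(2*t)) ≤ R := (mul_le_mul_of_nonneg_left hs (norm_nonneg _)).trans h4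
  rw [mul_one_div, div_le_iff₀ (by positivity)] at h5
  linarith

/-- the zones -/
def Zn (n : ℕ) (ρ : ℝ) (z : ℂ) : Prop := ‖z‖ < 1 ∧ ee n ≤ ρ * ‖1 - z‖ ∧ ‖1 - z‖ ≤ ρ * ee n

lemma ss_zone {n : ℕ} {ρ : ℝ} {z : ℂ} (h : Zn n ρ z) : ‖ss n z‖ ≤ 2 * ρ := by
  have h2 := ee_pos n
  have h3 := norm_pos' h.1
  have h4 := ss_up (n := n) (z := z)
  have h5 : ‖1 - z‖ / ee n ≤ ρ := (div_le_iff₀ h2).mpr h.2.2
  have h6 : ee n / ‖1 - z‖ ≤ ρ := (div_le_iff₀ h3).mpr h.2.1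
  linarith

/-- thresholds -/
noncomputable def gam (n : ℕ) : ℝ := (1/2) * (1/16)^(n^2+n)

lemma exists_star {z : ℂ} (hz : ‖z‖ < 1) : ∃ n : ℕ, ∀ m R : ℕ, m ≠ n → ‖K m R z‖ ≤ 4 * R * (1/16)^m := by
  have h3 := norm_pos' hz
  have hex : ∃ n, gam n ≤ ‖1 - z‖ := by
    obtain ⟨n, hn⟩ := exists_pow_lt_of_lt_one h3 (by norm_num : (1/16 : ℝ) < 1)
    refine ⟨n, ?_⟩
    unfold gam
    have : ((1:ℝ)/16)^(n^2+n) ≤ (1/16)^n := pow_le_pow_of_le_one (by norm_num) (by norm_num) (by nlinarith)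
    have h0 : (0:ℝ) < (1/16)^(n^2+n) := by positivity
    linarith
  classical
  refine ⟨Nat.find hex, fun m R hm => ?_⟩
  by_cases hR : R = 0
  · subst hR; simp [K]
  have hR1 : (1:ℝ) ≤ R := by exact_mod_cast Nat.one_le_iff_ne_zero.mpr hR
  rcases Nat.eq_zero_or_pos m with h0 | h0
  · subst h0
    have := K_le_one (n := 0) (R := R) hz
    simp only [pow_zero, mul_one]
    linarith
  have ht2 : 2 * (1/16 : ℝ)^m ≤ 1/2 := by
    have : (1/16 : ℝ)^m ≤ (1/16)^1 := pow_le_pow_of_le_one (by norm_num) (by norm_num) h0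
    linarith
  have key := K_far (n := m) (R := R) hz (t := 2 * (1/16)^m) (by positivity) ht2 ?_
  · linarith
  · rcases Nat.lt_or_gt_of_ne hm with h | h
    · left
      have h4 := Nat.find_min hex h
      push Not at h4
      unfold gam at h4
      unfold ee
      rw [pow_add] at h4
      have h5 : (0:ℝ) < (1/16)^m * (1/16)^(m^2) := by positivity
      nlinarith
    · right
      have h4 := Nat.find_spec hex
      set p := Nat.find hex with hp
      obtain ⟨j, hj⟩ := Nat.exists_eq_add_of_lt h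
      have h5 : gam (p + j) ≤ gam p := by
        unfold gam
        have : ((1:ℝ)/16)^((p+j)^2+(p+j)) ≤ (1/16)^(p^2+p) := pow_le_pow_of_le_one (by norm_num) (by norm_num) (by nlinarith)
        linarith
      have h6 : ee m = 2 * (1/16)^m * gam (p+j) := by
        rw [hj]
        unfold ee gam
        have : (p + j + 1)^2 = (p + j + 1) + ((p+j)^2 + (p + j)) := by ring
        rw [this, pow_add]; ring
      rw [h6]
      have h7 : gam (p+j) ≤ ‖1 - z‖ := h5.trans h4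
      gcongr

lemma ee_ratio {m n : ℕ} (h : m < n) : ee n ≤ (1/16)^(n+m) * ee m := by
  unfold ee
  rw [← pow_add]
  apply pow_le_pow_of_le_one (by norm_num) (by norm_num)
  obtain ⟨j, hj⟩ := Nat.exists_eq_add_of_lt h
  subst hj
  nlinarith [Nat.zero_le (m*j), Nat.zero_le (j*j)]

lemma K_zone {n m R : ℕ} {ρ : ℝ} {z : ℂ} (h : Zn n ρ z) (hρ : 0 < ρ) (hn : ρ * (1/16)^n ≤ 1/2) (hm : m ≠ n) :
    ‖K m R z‖ ≤ 2 * (ρ * (1/16)^(n+m)) * R := by
  obtain ⟨hz, h1, h2⟩ := h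
  have h3 := norm_pos' hz
  apply K_far hz (by positivity)
  · refine le_trans ?_ hn
    have : ((1:ℝ)/16)^(n+m) ≤ (1/16)^n := pow_le_pow_of_le_one (by norm_num) (by norm_num) (by omega)
    gcongr
  · rcases Nat.lt_or_gt_of_ne hm with h | h
    · left
      have h4 := ee_ratio h
      calc ‖1 - z‖ ≤ ρ * ee n := h2
        _ ≤ ρ * ((1/16)^(n+m) * ee m) := by gcongr
        _ = _ := by ring
    · right
      have h4 := ee_ratio h
      calc ee m ≤ (1/16)^(m+n) * ee n := h4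
        _ ≤ (1/16)^(m+n) * (ρ * ‖1 - z‖) := by gcongr
        _ = _ := by rw [add_comm m n]; ring

/-- tsum with one exceptional term -/
lemma tsum_star {f : ℕ → ℂ} {g : ℕ → ℝ} {G : ℝ} (n : ℕ) (hg : HasSum g G) (hg0 : ∀ m, 0 ≤ g m)
    (h : ∀ m, m ≠ n → ‖f m‖ ≤ g m) : Summable f ∧ ‖(∑' m, f m) - f n‖ ≤ G := by
  have hb : ∀ m, ‖(if m = n then 0 else f m)‖ ≤ g m := by
    intro m
    split_ifs with hm
    · rw [norm_zero]; exact hg0 m
    · exact h m hm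
  have hs1 : Summable (fun m => if m = n then 0 else f m) := Summable.of_norm_bounded hg.summable hb
  have hs : Summable f := by
    refine hs1.congr_cofinite ?_
    rw [EventuallyEq, eventually_cofinite]
    apply (Set.finite_singleton n).subset
    intro m hm
    simp only [mem_ofPred_eq] at hm
    by_contra hmn
    apply hm
    rw [if_neg]
    exact hmn
  refine ⟨hs, ?_⟩
  rw [hs.tsum_eq_add_tsum_ite n, add_sub_cancel_left]
  exact tsum_of_norm_bounded hg hb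

end Pool.Agent.Helper401.Gp
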