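import Pool.Agent.Helper401.Gp3

set_option autoImplicit false
open Filter Topology Metric Set

namespace Pool.Agent.Helper401.Gp

structure Rad (R : ℕ → ℕ) (N : ℕ) : Prop where
  le : ∀ m, R m ≤ m
  cut : ∀ m, m < N → R m = 0
  lim : Tendsto R atTop atTop

/-- the standard choice -/
def Rst (N : ℕ) (m : ℕ) : ℕ := if m < N then 0 else m

lemma rad_st (N : ℕ) : Rad (Rst N) N := by
  refine ⟨?_, ?_, ?_⟩
  · intro m; unfold Rst; split_ifs <;> omega
  · intro m hm; unfold Rst; rw [if_pos hm]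
  · apply tendsto_id.congr'
    filter_upwards [eventually_ge_atTop N] with m hm
    unfold Rst
    rw [if_neg (by omega)]
    rfl

noncomputable def SS (b : ℕ → ℂ) (R : ℕ → ℕ) (z : ℂ) : ℂ := ∑' m, b m * K m (R m) z

lemma m16 (m : ℕ) : (m : ℝ) * (1/16)^m ≤ (1/8)^m := by
  have h : (m : ℝ) ≤ 2^m := by exact_mod_cast (Nat.lt_two_pow_self (n := m)).le
  have : ((1:ℝ)/8)^m = 2^m * (1/16)^m := by rw [← mul_pow]; norm_num
  rw [this]
  gcongr

lemma K_geo {R : ℕ → ℕ} {N : ℕ} (hR : Rad R N) {z : ℂ} {m : ℕ} (h : ‖K m (R m) z‖ ≤ 4 * (R m) * (1/16)^m) :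
    ‖K m (R m) z‖ ≤ 4 * (1/2)^N * (1/4)^m := by
  by_cases hm : m < N
  · rw [hR.cut m hm]
    have : K m 0 z = 0 := by simp [K]
    rw [this, norm_zero]; positivity
  · push Not at hm
    have h1 : (R m : ℝ) ≤ m := by exact_mod_cast hR.le m
    have h2 := m16 m
    have h3 : (1/8 : ℝ)^m = (1/2)^m * (1/4)^m := by rw [← mul_pow]; norm_num
    have h4 : ((1:ℝ)/2)^m ≤ (1/2)^N := pow_le_pow_of_le_one (by norm_num) (by norm_num) hm
    calc ‖K m (R m) z‖ ≤ 4 * (R m) * (1/16)^m := h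
      _ ≤ 4 * m * (1/16)^m := by gcongr
      _ ≤ 4 * (1/8)^m := by linarith
      _ = 4 * ((1/2)^m * (1/4)^m) := by rw [h3]
      _ ≤ 4 * ((1/2)^N * (1/4)^m) := by gcongr
      _ = _ := by ring

lemma hs_geo (c : ℝ) : HasSum (fun m : ℕ => c * (1/4 : ℝ)^m) (c * (4/3)) := by
  have h := (hasSum_geometric_of_lt_one (r := (1:ℝ)/4) (by norm_num) (by norm_num)).mul_left c
  have e : (1 - (1:ℝ)/4)⁻¹ = 4/3 := by norm_num
  rwa [e] at h

lemma hs_geo8 (c : ℝ) : HasSum (fun m : ℕ => c * (1/8 : ℝ)^m) (c * (8/7)) := by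
  have h := (hasSum_geometric_of_lt_one (r := (1:ℝ)/8) (by norm_num) (by norm_num)).mul_left c
  have e : (1 - (1:ℝ)/8)⁻¹ = 8/7 := by norm_num
  rwa [e] at h

lemma SS_star {b : ℕ → ℂ} {M : ℝ} (hb : ∀ m, ‖b m‖ ≤ M) {R : ℕ → ℕ} {N : ℕ} (hR : Rad R N)
    {z : ℂ} {n : ℕ} (h : ∀ m R : ℕ, m ≠ n → ‖K m R z‖ ≤ 4 * R * (1/16)^m) :
    Summable (fun m => b m * K m (R m) z) ∧ ‖SS b R z - b n * K n (R n) z‖ ≤ M * (6 * (1/2)^N) := by
  have hM : 0 ≤ M := (norm_nonneg _).trans (hb 0)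
  have := tsum_star (f := fun m => b m * K m (R m) z) n (hs_geo (M * (4 * (1/2)^N))) (fun m => by positivity)
    (fun m hm => by
      rw [norm_mul, mul_assoc]
      have h1 := K_geo hR (h m (R m) hm)
      have h2 := hb m
      gcongr)
  refine ⟨this.1, this.2.trans ?_⟩
  have : (0:ℝ) ≤ (1/2)^N := by positivity
  nlinarith [mul_nonneg hM this]

lemma SS_summable {b : ℕ → ℂ} {M : ℝ} (hb : ∀ m, ‖b m‖ ≤ M) {R : ℕ → ℕ} {N : ℕ} (hR : Rad R N)
    {z : ℂ} (hz : ‖z‖ < 1) : Summable (fun m => b m * K m (R m) z) := by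
  obtain ⟨n, hn⟩ := exists_star hz
  exact (SS_star hb hR hn).1

lemma SS_le {b : ℕ → ℂ} {M : ℝ} (hb : ∀ m, ‖b m‖ ≤ M) {R : ℕ → ℕ} {N : ℕ} (hR : Rad R N)
    {z : ℂ} (hz : ‖z‖ < 1) : ‖SS b R z‖ ≤ M * (1 + 6 * (1/2)^N) := by
  obtain ⟨n, hn⟩ := exists_star hz
  have h1 := (SS_star hb hR hn).2
  have h2 : ‖b n * K n (R n) z‖ ≤ M * 1 := by
    rw [norm_mul]
    have := K_le_one (n := n) (R := R n) hz
    have := hb n
    have hM : 0 ≤ M := (norm_nonneg _).trans (hb 0)
    gcongr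
  have h3 : ‖SS b R z‖ ≤ ‖SS b R z - b n * K n (R n) z‖ + ‖b n * K n (R n) z‖ := by
    have := norm_add_le (SS b R z - b n * K n (R n) z) (b n * K n (R n) z)
    rwa [sub_add_cancel] at this
  linarith

lemma SS_two {R : ℕ → ℕ} {N : ℕ} (hR : Rad R N)
    {z : ℂ} (hz : ‖z‖ < 1) : ‖2 * SS (fun _ => 1) R z - 1‖ ≤ 1 + 12 * (1/2)^N := by
  obtain ⟨n, hn⟩ := exists_star hz
  have h1 := (SS_star (b := fun _ => 1) (M := 1) (by simp) hR hn).2
  simp only [one_mul] at h1
  have h2 := two_K (n := n) (R := R n) hz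
  have h3 : 2 * SS (fun _ => 1) R z - 1 = 2 * (SS (fun _ => 1) R z - K n (R n) z) + (2 * K n (R n) z - 1) := by ring
  rw [h3]
  refine (norm_add_le _ _).trans ?_
  rw [norm_mul, Complex.norm_ofNat]
  linarith

lemma SS_zone {b : ℕ → ℂ} {M : ℝ} (hb : ∀ m, ‖b m‖ ≤ M) {R : ℕ → ℕ} {N : ℕ} (hR : Rad R N)
    {z : ℂ} {n : ℕ} {ρ : ℝ} (hρ : 0 < ρ) (h : Zn n ρ z) (hn : ρ * (1/16)^n ≤ 1/2) (hRn : 0 < R n) :
    ‖SS b R z - b n‖ ≤ M * (2 * ρ / R n) + M * (3 * ρ * (1/16)^n) := by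
  have hM : 0 ≤ M := (norm_nonneg _).trans (hb 0)
  have h1 := (tsum_star (f := fun m => b m * K m (R m) z) n (hs_geo8 (M * (2 * ρ * (1/16)^n))) (fun m => by positivity)
    (fun m hm => by
      rw [norm_mul, mul_assoc]
      have h1 := K_zone (R := R m) h hρ hn hm
      have h2 := hb m
      have h3 : 2 * (ρ * (1/16)^(n+m)) * (R m : ℝ) ≤ 2 * ρ * (1/16)^n * (1/8)^m := by
        have h4 : (R m : ℝ) ≤ m := by exact_mod_cast hR.le m
        have h5 := m16 m
        calc 2 * (ρ * (1/16)^(n+m)) * (R m : ℝ) ≤ 2 * (ρ * (1/16)^(n+m)) * (m : ℝ) := by gcongr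
          _ = 2 * ρ * (1/16)^n * (m * (1/16)^m) := by rw [pow_add]; ring
          _ ≤ 2 * ρ * (1/16)^n * (1/8)^m := by gcongr
      have h6 := h1.trans h3
      gcongr)).2
  have h2 : ‖b n * K n (R n) z - b n‖ ≤ M * (2 * ρ / R n) := by
    have : b n * K n (R n) z - b n = - (b n * (1 - K n (R n) z)) := by ring
    rw [this, norm_neg, norm_mul]
    have h3 := one_sub_K (n := n) h.1 hRn
    have h4 := ss_zone h
    have h5 := hb n
    have h6 : ‖1 - K n (R n) z‖ ≤ 2 * ρ / R n := h3.trans (by gcongr)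
    gcongr
  have h3 : SS b R z - b n = ((∑' m, b m * K m (R m) z) - b n * K n (R n) z) + (b n * K n (R n) z - b n) := by
    unfold SS; ring
  rw [h3]
  refine (norm_add_le _ _).trans ?_
  have h4 : M * (2 * ρ * (1/16)^n) * (8/7) ≤ M * (3 * ρ * (1/16)^n) := by
    have : 0 ≤ M * (ρ * (1/16)^n) := by positivity
    nlinarith
  linarith

lemma K_diff (n R : ℕ) : DifferentiableOn ℂ (K n R) (ball 0 1) := by
  intro z hz
  have hz' : ‖z‖ < 1 := by simpa using hz
  have h1 := one_sub_ne hz'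
  have h2 := den_ne (n := n) (R := R) hz'
  have hee : (ee n : ℂ) ≠ 0 := by exact_mod_cast (ee_pos n).ne'
  have h3 : DifferentiableAt ℂ (ss n) z := by
    unfold ss
    exact DifferentiableAt.fun_add (by fun_prop) (DifferentiableAt.fun_div (by fun_prop) (by fun_prop) h1)
  unfold K
  apply DifferentiableAt.differentiableWithinAt
  exact DifferentiableAt.fun_div (by fun_prop) (DifferentiableAt.fun_add (by fun_prop) h3) h2

lemma K_unif {δ : ℝ} (hδ : 0 < δ) {m R : ℕ} (hR : R ≤ m) {z : ℂ} (hz : ‖z‖ < 1) (h : δ < ‖1 - z‖) :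
    ‖K m R z‖ ≤ (2 / δ) * (1/8)^m := by
  have h1 : ee m ≤ (1/16)^m := by
    unfold ee
    exact pow_le_pow_of_le_one (by norm_num) (by norm_num) (by nlinarith)
  have h0 := ee_pos m
  have h16 : ((1:ℝ)/16)^m ≤ (1/8)^m := by gcongr; norm_num
  by_cases hc : ee m ≤ δ / 2
  · have h2 := K_far (n := m) (R := R) hz (t := ee m / δ) (by positivity) (by rw [div_le_iff₀ hδ]; linarith)
      (Or.inr (by rw [div_mul_eq_mul_div, le_div_iff₀ hδ]; gcongr))
    refine h2.trans ?_
    have h3 : (R : ℝ) ≤ m := by exact_mod_cast hR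
    have h4 := m16 m
    calc 2 * (ee m / δ) * R ≤ 2 * ((1/16)^m / δ) * m := by gcongr
      _ = (2 / δ) * (m * (1/16)^m) := by ring
      _ ≤ (2/δ) * (1/8)^m := by gcongr
  · push Not at hc
    refine (K_le_one hz).trans ?_
    rw [div_mul_eq_mul_div, le_div_iff₀ hδ]
    linarith

lemma SS_diff {b : ℕ → ℂ} {M : ℝ} (hb : ∀ m, ‖b m‖ ≤ M) {R : ℕ → ℕ} {N : ℕ} (hR : Rad R N) :
    DifferentiableOn ℂ (SS b R) (ball 0 1) := by
  have hM : 0 ≤ M := (norm_nonneg _).trans (hb 0)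
  intro z hz
  have hz' : ‖z‖ < 1 := by simpa using hz
  have hpos := norm_pos' hz'
  set δ := ‖1 - z‖ / 2 with hδ
  have hδ0 : 0 < δ := by positivity
  let V : Set ℂ := ball 0 1 ∩ {w | δ < ‖1 - w‖}
  have hV : IsOpen V := isOpen_ball.inter (isOpen_lt continuous_const (by fun_prop))
  have hzV : z ∈ V := ⟨hz, by simp only [mem_ofPred_eq]; rw [hδ]; linarith⟩
  have h1 : DifferentiableOn ℂ (fun w => ∑' m, b m * K m (R m) w) V := by
    apply Complex.differentiableOn_tsum_of_summable_norm (u := fun m => (M * (2/δ)) * (1/8)^m)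
      ((hs_geo8 _).summable)
    · intro m
      exact ((K_diff m (R m)).mono inter_subset_left).const_mul (b m)
    · exact hV
    · intro m w hw
      rw [norm_mul, mul_assoc]
      have := K_unif hδ0 (hR.le m) (by simpa using hw.1) hw.2
      have := hb m
      gcongr
  exact (h1.differentiableAt (hV.mem_nhds hzV)).differentiableWithinAt

/-- asymptotic smallness on the zones -/
def Sm (g : ℂ → ℂ) (ε : ℝ) : Prop := ∀ ρ : ℕ, ∀ᶠ n in atTop, ∀ z, Zn n ρ z → ‖g z‖ ≤ ε

lemma lemL {g : ℂ → ℂ} {G ε η : ℝ} (hg : ∀ z, ‖z‖ < 1 → ‖g z‖ ≤ G) (hε : 0 ≤ ε) (h : Sm g ε) (hη : 0 < η) :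
    ∃ (R : ℕ → ℕ) (N : ℕ), Rad R N ∧ 12 * (1/2 : ℝ)^N ≤ η ∧ ∀ z, ‖z‖ < 1 → ‖g z * SS (fun _ => 1) R z‖ ≤ ε + η := by
  classical
  have hG0 : 0 ≤ G := (norm_nonneg _).trans (hg 0 (by simp))
  let P : ℕ → ℕ → Prop := fun n j => ∀ z, Zn n ((j^2 : ℕ) : ℝ) z → ‖g z‖ ≤ ε
  have hP0 : ∀ n, P n 0 := by
    intro n z hz
    exfalso
    have h1 := hz.2.1
    have h2 := ee_pos n
    simp at h1
    linarith
  let R0 : ℕ → ℕ := fun n => Nat.findGreatest (P n) n
  have hR0P : ∀ n, P n (R0 n) := fun n => Nat.findGreatest_spec (m := 0) (Nat.zero_le n) (hP0 n)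
  have hR0le : ∀ n, R0 n ≤ n := fun n => Nat.findGreatest_le n
  have hR0lim : Tendsto R0 atTop atTop := by
    rw [Filter.tendsto_atTop]
    intro j
    filter_upwards [h (j^2), eventually_ge_atTop j] with n hn hjn
    exact Nat.le_findGreatest hjn hn
  obtain ⟨j0, hj0⟩ := exists_nat_gt (max 2 (4 * G / η))
  have hj2 : (2:ℝ) < j0 := (le_max_left _ _).trans_lt hj0
  have hj3 : 4 * G / η < j0 := (le_max_right _ _).trans_lt hj0
  obtain ⟨N1, hN1⟩ := exists_pow_lt_of_lt_one (show 0 < η / (12 * (G + 1)) by positivity) (by norm_num : (1/2 : ℝ) < 1)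
  obtain ⟨N2, hN2⟩ := eventually_atTop.mp (hR0lim.eventually_ge_atTop j0)
  set N := max N1 N2 with hN
  have hNpow : (1/2 : ℝ)^N ≤ η / (12 * (G + 1)) := by
    refine le_trans ?_ hN1.le
    exact pow_le_pow_of_le_one (by norm_num) (by norm_num) (le_max_left _ _)
  let R : ℕ → ℕ := fun n => if n < N then 0 else R0 n
  have hR : Rad R N := by
    refine ⟨?_, ?_, ?_⟩
    · intro m; simp only [R]; split_ifs
      · omega
      · exact hR0le m
    · intro m hm; simp only [R]; rw [if_pos hm]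
    · apply hR0lim.congr'
      filter_upwards [eventually_ge_atTop N] with m hm
      simp only [R]
      rw [if_neg (by omega)]
  have hη12 : 12 * (1/2 : ℝ)^N * (G + 1) ≤ η := by
    have := (le_div_iff₀ (by positivity)).mp hNpow
    linarith
  have hpowpos : (0:ℝ) < (1/2 : ℝ)^N := by positivity
  refine ⟨R, N, hR, ?_, ?_⟩
  · nlinarith
  · intro z hz
    obtain ⟨n, hn⟩ := exists_star hz
    have h1 := (SS_star (b := fun _ => 1) (M := 1) (by simp) hR hn).2
    simp only [one_mul] at h1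
    have h2 : ‖g z * K n (R n) z‖ ≤ ε + η/2 := by
      rw [norm_mul]
      by_cases hnN : n < N
      · have : R n = 0 := hR.cut n hnN
        rw [this]
        have : K n 0 z = 0 := by simp [K]
        rw [this, norm_zero, mul_zero]; positivity
      · push Not at hnN
        have hRn : R n = R0 n := by simp only [R]; rw [if_neg (by omega)]
        have hjR : j0 ≤ R0 n := hN2 n ((le_max_right _ _).trans hnN)
        have hjR' : (j0 : ℝ) ≤ (R0 n : ℝ) := by exact_mod_cast hjR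
        have hr0 : (2:ℝ) < (R0 n : ℝ) := lt_of_lt_of_le hj2 hjR'
        have hrpos : (0:ℝ) < (R0 n : ℝ) := by linarith
        by_cases hzone : Zn n (((R0 n)^2 : ℕ) : ℝ) z
        · have h3 := hR0P n z hzone
          have h4 := K_le_one (n := n) (R := R n) hz
          calc ‖g z‖ * ‖K n (R n) z‖ ≤ ε * 1 := by gcongr
            _ ≤ ε + η/2 := by linarith
        · have h5 : ‖1 - z‖ ≤ 1/(R0 n : ℝ)^2 * ee n ∨ ee n ≤ 1/(R0 n : ℝ)^2 * ‖1 - z‖ := by
            by_contra hcon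
            push Not at hcon
            apply hzone
            have hsq : (0:ℝ) < (R0 n : ℝ)^2 := by positivity
            refine ⟨hz, ?_, ?_⟩
            · push_cast
              have := hcon.1
              rw [one_div, inv_mul_lt_iff₀ hsq] at this
              exact this.le
            · push_cast
              have := hcon.2
              rw [one_div, inv_mul_lt_iff₀ hsq] at this
              exact this.le
          have h6 := K_far (n := n) (R := R0 n) hz (t := 1/(R0 n : ℝ)^2) (by positivity) (by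
            apply one_div_le_one_div_of_le (by norm_num); nlinarith) h5
          have h7 : 2 * (1/(R0 n : ℝ)^2) * (R0 n : ℝ) ≤ 2 / j0 := by
            have : 2 * (1/(R0 n : ℝ)^2) * (R0 n : ℝ) = 2 / (R0 n : ℝ) := by field_simp
            rw [this]
            have : (0:ℝ) < j0 := by linarith
            gcongr
          rw [hRn]
          have h8 : ‖g z‖ * ‖K n (R0 n) z‖ ≤ G * (2 / j0) := by
            have := hg z hz
            have := h6.trans h7
            gcongr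
          have h9 : G * (2 / j0) ≤ η / 2 := by
            have hj0pos : (0:ℝ) < j0 := by linarith
            rw [div_lt_iff₀ hη] at hj3
            rw [mul_div_assoc', div_le_iff₀ hj0pos]
            linarith
          linarith
    have h3 : g z * SS (fun _ => 1) R z = g z * (SS (fun _ => 1) R z - K n (R n) z) + g z * K n (R n) z := by ring
    rw [h3]
    refine (norm_add_le _ _).trans ?_
    have h4 : ‖g z * (SS (fun _ => 1) R z - K n (R n) z)‖ ≤ G * (6 * (1/2)^N) := by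
      rw [norm_mul]
      have := hg z hz
      gcongr
    nlinarith
end Pool.Agent.Helper401.Gp
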