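import Pool.Agent.Helper401.Gp4

set_option autoImplicit false
open Filter Topology Metric Set

namespace Pool.Agent.Helper401.Gp

abbrev BC := BoundedContinuousFunction (Metric.ball (0:ℂ) 1) ℂ

open Classical in
noncomputable def xt (f : BC) (z : ℂ) : ℂ := if h : z ∈ ball (0:ℂ) 1 then f ⟨z, h⟩ else 0

lemma xt_val (f : BC) (z : ball (0:ℂ) 1) : xt f z = f z := by
  unfold xt
  rw [dif_pos z.2]

lemma xt_add (f g : BC) (z : ℂ) : xt (f + g) z = xt f z + xt g z := by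
  unfold xt; split_ifs <;> simp

lemma xt_sub (f g : BC) (z : ℂ) : xt (f - g) z = xt f z - xt g z := by
  unfold xt; split_ifs <;> simp

lemma xt_mul (f g : BC) (z : ℂ) : xt (f * g) z = xt f z * xt g z := by
  unfold xt; split_ifs <;> simp

lemma xt_smul (c : ℂ) (f : BC) (z : ℂ) : xt (c • f) z = c * xt f z := by
  unfold xt; split_ifs <;> simp

lemma xt_alg (c : ℂ) {z : ℂ} (hz : ‖z‖ < 1) : xt (algebraMap ℂ BC c) z = c := by
  have hz' : z ∈ ball (0:ℂ) 1 := by simpa using hz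
  unfold xt
  rw [dif_pos hz']
  rfl

lemma xt_one {z : ℂ} (hz : ‖z‖ < 1) : xt 1 z = 1 := by
  have := xt_alg 1 hz
  rwa [map_one] at this

lemma xt_le (f : BC) (z : ℂ) : ‖xt f z‖ ≤ ‖f‖ := by
  unfold xt
  split_ifs
  · exact f.norm_coe_le_norm _
  · rw [norm_zero]; exact norm_nonneg _

lemma norm_le_xt {f : BC} {C : ℝ} (hC : 0 ≤ C) (h : ∀ z, ‖z‖ < 1 → ‖xt f z‖ ≤ C) : ‖f‖ ≤ C := by
  rw [BoundedContinuousFunction.norm_le hC]
  intro z
  rw [← xt_val]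
  exact h z (mem_ball_zero_iff.mp z.2)

lemma xt_congr {f : BC} {F : ℂ → ℂ} (h : ∀ z : ball (0:ℂ) 1, F z = f z) {z : ℂ} (hz : ‖z‖ < 1) : xt f z = F z := by
  have hz' : z ∈ ball (0:ℂ) 1 := by simpa using hz
  unfold xt
  rw [dif_pos hz', h ⟨z, hz'⟩]

noncomputable def mkB (F : ℂ → ℂ) (hF : DifferentiableOn ℂ F (ball 0 1)) (C : ℝ) (hC : ∀ z, ‖z‖ < 1 → ‖F z‖ ≤ C) : BC :=
  BoundedContinuousFunction.ofNormedAddCommGroup (fun z : ball (0:ℂ) 1 => F z)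
    (hF.continuousOn.comp_continuous continuous_subtype_val (fun z => z.2)) C
    (fun z => hC z (mem_ball_zero_iff.mp z.2))

lemma mkB_val {F : ℂ → ℂ} {hF : DifferentiableOn ℂ F (ball 0 1)} {C : ℝ} {hC : ∀ z, ‖z‖ < 1 → ‖F z‖ ≤ C}
    (z : ball (0:ℂ) 1) : mkB F hF C hC z = F z := rfl

lemma xt_mkB {F : ℂ → ℂ} {hF : DifferentiableOn ℂ F (ball 0 1)} {C : ℝ} {hC : ∀ z, ‖z‖ < 1 → ‖F z‖ ≤ C}
    {z : ℂ} (hz : ‖z‖ < 1) : xt (mkB F hF C hC) z = F z := xt_congr (fun _ => rfl) hz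

/-- the algebra of bounded analytic functions -/
noncomputable def HH : Subalgebra ℂ BC where
  carrier := {f | ∃ F : ℂ → ℂ, DifferentiableOn ℂ F (ball 0 1) ∧ ∀ z : ball (0:ℂ) 1, F z = f z}
  mul_mem' := by
    rintro f g ⟨F, hF, hF'⟩ ⟨G, hG, hG'⟩
    exact ⟨fun z => F z * G z, hF.mul hG, fun z => by simp [hF', hG']⟩
  add_mem' := by
    rintro f g ⟨F, hF, hF'⟩ ⟨G, hG, hG'⟩
    exact ⟨fun z => F z + G z, hF.add hG, fun z => by simp [hF', hG']⟩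
  algebraMap_mem' := by
    intro c
    exact ⟨fun _ => c, differentiableOn_const c, fun z => rfl⟩

lemma mem_HH (f : BC) : f ∈ HH ↔ ∃ F : ℂ → ℂ, DifferentiableOn ℂ F (Metric.ball 0 1) ∧
          ∀ z : Metric.ball (0:ℂ) 1, F z = f z := Iff.rfl

lemma mkB_mem {F : ℂ → ℂ} {hF : DifferentiableOn ℂ F (ball 0 1)} {C : ℝ} {hC : ∀ z, ‖z‖ < 1 → ‖F z‖ ≤ C} :
    mkB F hF C hC ∈ HH := ⟨F, hF, fun _ => rfl⟩

variable {O : Type} [CommRing O]

/-- f is asymptotically within eps of the symbol q -/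
def As (om : ℕ → O →+* ℂ) (f : BC) (q : O) (ε : ℝ) : Prop :=
  ∀ ρ : ℕ, ∀ᶠ n in atTop, ∀ z, Zn n ρ z → ‖xt f z - om n q‖ ≤ ε

def Cst (om : ℕ → O →+* ℂ) : Prop := ∀ c : ℂ, ∀ ε : ℝ, 0 < ε → ∃ q : O, ∃ c' : ℂ, ‖c' - c‖ ≤ ε ∧ (∀ n, om n q = c')

lemma As.add {om : ℕ → O →+* ℂ} {f g : BC} {p q : O} {ε δ : ℝ} (hf : As om f p ε) (hg : As om g q δ) :
    As om (f + g) (p + q) (ε + δ) := by
  intro ρ
  filter_upwards [hf ρ, hg ρ] with n h1 h2 z hz
  rw [xt_add, map_add]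
  have := norm_add_le (xt f z - om n p) (xt g z - om n q)
  have e : xt f z + xt g z - (om n p + om n q) = (xt f z - om n p) + (xt g z - om n q) := by ring
  rw [e]
  linarith [h1 z hz, h2 z hz]

lemma As.sub {om : ℕ → O →+* ℂ} {f g : BC} {p q : O} {ε δ : ℝ} (hf : As om f p ε) (hg : As om g q δ) :
    As om (f - g) (p - q) (ε + δ) := by
  intro ρ
  filter_upwards [hf ρ, hg ρ] with n h1 h2 z hz
  rw [xt_sub, map_sub]
  have := norm_sub_le (xt f z - om n p) (xt g z - om n q)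
  have e : xt f z - xt g z - (om n p - om n q) = (xt f z - om n p) - (xt g z - om n q) := by ring
  rw [e]
  linarith [h1 z hz, h2 z hz]

lemma As.mul {om : ℕ → O →+* ℂ} {f g : BC} {p q : O} {ε δ : ℝ} (hδ : δ ≤ 1)
    (hf : As om f p ε) (hg : As om g q δ) :
    As om (f * g) (p * q) (‖f‖ * δ + (‖g‖ + 1) * ε) := by
  intro ρ
  filter_upwards [hf ρ, hg ρ] with n h1 h2 z hz
  rw [xt_mul, map_mul]
  have e : xt f z * xt g z - (om n p * om n q) = xt f z * (xt g z - om n q) + om n q * (xt f z - om n p) := by ring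
  rw [e]
  refine (norm_add_le _ _).trans ?_
  rw [norm_mul, norm_mul]
  have h3 := h1 z hz
  have h4 := h2 z hz
  have h5 := xt_le f z
  have h6 := xt_le g z
  have h7 : ‖om n q‖ ≤ ‖g‖ + 1 := by
    have : ‖om n q‖ ≤ ‖xt g z‖ + ‖xt g z - om n q‖ := by
      have := norm_sub_le (xt g z) (xt g z - om n q)
      rwa [sub_sub_cancel] at this
    linarith
  gcongr

lemma As.mono {om : ℕ → O →+* ℂ} {f : BC} {p : O} {ε δ : ℝ} (hf : As om f p ε) (h : ε ≤ δ) : As om f p δ := by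
  intro ρ
  filter_upwards [hf ρ] with n h1 z hz
  exact (h1 z hz).trans h

lemma As.sm {om : ℕ → O →+* ℂ} {f : BC} {ε : ℝ} (hf : As om f 0 ε) : Sm (xt f) ε := by
  intro ρ
  filter_upwards [hf ρ] with n h1 z hz
  have := h1 z hz
  rwa [map_zero, sub_zero] at this

lemma as_zero {om : ℕ → O →+* ℂ} {f : BC} {ε : ℝ} (hf : Sm (xt f) ε) : As om f 0 ε := by
  intro ρ
  filter_upwards [hf ρ] with n h1 z hz
  rw [map_zero, sub_zero]
  exact h1 z hz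

noncomputable def XX (om : ℕ → O →+* ℂ) (hc : Cst om) : Subalgebra ℂ BC where
  carrier := {f | f ∈ HH ∧ ∀ ε : ℝ, 0 < ε → ∃ q : O, As om f q ε}
  mul_mem' := by
    rintro f g ⟨hf, hf'⟩ ⟨hg, hg'⟩
    refine ⟨mul_mem hf hg, fun ε hε => ?_⟩
    have hpos : 0 < ‖f‖ + ‖g‖ + 2 := by positivity
    have hδ : 0 < min 1 (ε / (‖f‖ + ‖g‖ + 2)) := lt_min one_pos (by positivity)
    obtain ⟨p, hp⟩ := hf' _ hδ
    obtain ⟨q, hq⟩ := hg' _ hδ
    refine ⟨p * q, (hp.mul (min_le_left _ _) hq).mono ?_⟩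
    have h1 : min 1 (ε / (‖f‖ + ‖g‖ + 2)) ≤ ε / (‖f‖ + ‖g‖ + 2) := min_le_right _ _
    rw [le_div_iff₀ hpos] at h1
    have := norm_nonneg f
    nlinarith
  add_mem' := by
    rintro f g ⟨hf, hf'⟩ ⟨hg, hg'⟩
    refine ⟨add_mem hf hg, fun ε hε => ?_⟩
    obtain ⟨p, hp⟩ := hf' _ (half_pos hε)
    obtain ⟨q, hq⟩ := hg' _ (half_pos hε)
    exact ⟨p + q, (hp.add hq).mono (by linarith)⟩
  algebraMap_mem' := by
    intro c
    refine ⟨HH.algebraMap_mem c, fun ε hε => ?_⟩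
    obtain ⟨q, c', hc', hq⟩ := hc c ε hε
    refine ⟨q, fun ρ => Eventually.of_forall (fun n z hz => ?_)⟩
    rw [xt_alg c hz.1, hq n, norm_sub_rev]
    exact hc'

lemma mem_XX {om : ℕ → O →+* ℂ} {hc : Cst om} {f : BC} :
    f ∈ XX om hc ↔ f ∈ HH ∧ ∀ ε : ℝ, 0 < ε → ∃ q : O, As om f q ε := Iff.rfl

lemma HH_closed_aux {f : BC} (h : f ∈ closure (HH : Set BC)) : f ∈ HH := by
  rw [mem_closure_iff_seq_limit] at h
  obtain ⟨u, hu, hl⟩ := h
  refine ⟨xt f, ?_, fun z => xt_val f z⟩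
  have h1 : TendstoLocallyUniformlyOn (fun n => xt (u n)) (xt f) atTop (ball (0:ℂ) 1) := by
    apply TendstoUniformlyOn.tendstoLocallyUniformlyOn
    rw [Metric.tendstoUniformlyOn_iff]
    intro ε hε
    rw [Metric.tendsto_atTop] at hl
    obtain ⟨N, hN⟩ := hl ε hε
    filter_upwards [eventually_ge_atTop N] with n hn z hz
    have h2 := hN n hn
    rw [dist_eq_norm] at h2 ⊢
    rw [← norm_neg, neg_sub, ← xt_sub]
    exact (xt_le _ _).trans_lt h2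
  apply h1.differentiableOn _ isOpen_ball
  filter_upwards with n
  obtain ⟨F, hF, hF'⟩ := hu n
  exact hF.congr (fun z hz => xt_congr hF' (by simpa using hz))

lemma XX_closed (om : ℕ → O →+* ℂ) (hc : Cst om) : IsClosed (XX om hc : Set BC) := by
  apply isClosed_of_closure_subset
  intro f hf
  have h1 : f ∈ HH := HH_closed_aux (closure_mono (fun g hg => hg.1) hf)
  refine ⟨h1, fun ε hε => ?_⟩
  rw [Metric.mem_closure_iff] at hf
  obtain ⟨g, hg, hd⟩ := hf (ε/2) (half_pos hε)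
  obtain ⟨q, hq⟩ := hg.2 (ε/2) (half_pos hε)
  refine ⟨q, fun ρ => ?_⟩
  filter_upwards [hq ρ] with n hn z hz
  have h2 := hn z hz
  have h3 : ‖xt (f - g) z‖ ≤ ε/2 := by
    rw [dist_eq_norm] at hd
    exact (xt_le _ _).trans hd.le
  rw [xt_sub] at h3
  have : xt f z - om n q = (xt f z - xt g z) + (xt g z - om n q) := by ring
  rw [this]
  exact (norm_add_le _ _).trans (by linarith)

lemma disk_alg (om : ℕ → O →+* ℂ) (hc : Cst om) (F : ℂ → ℂ) (hF1 : ContinuousOn F (Metric.closedBall 0 1))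
    (hF2 : DifferentiableOn ℂ F (Metric.ball 0 1)) : ∃ f ∈ XX om hc, ∀ z : Metric.ball (0:ℂ) 1, f z = F z := by
  obtain ⟨C, hC⟩ := (isCompact_closedBall (0:ℂ) 1).exists_bound_of_continuousOn hF1
  have hC' : ∀ z, ‖z‖ < 1 → ‖F z‖ ≤ C := fun z hz => hC z (by simpa using hz.le)
  refine ⟨mkB F hF2 C hC', ⟨mkB_mem, fun ε hε => ?_⟩, fun z => rfl⟩
  obtain ⟨q, c', hc', hq⟩ := hc (F 1) (ε/2) (half_pos hε)
  refine ⟨q, fun ρ => ?_⟩
  have h1 : ContinuousWithinAt F (closedBall 0 1) 1 := hF1 1 (by simp)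
  rw [Metric.continuousWithinAt_iff] at h1
  obtain ⟨δ, hδ, hδ'⟩ := h1 (ε/2) (half_pos hε)
  have h2 : Tendsto (fun n => (ρ:ℝ) * ee n) atTop (𝓝 0) := by
    have : Tendsto ee atTop (𝓝 0) := by
      unfold ee
      apply (tendsto_pow_atTop_nhds_zero_of_lt_one (by norm_num) (by norm_num : (1:ℝ)/16 < 1)).comp
      exact tendsto_pow_atTop (by norm_num)
    simpa using this.const_mul (ρ:ℝ)
  filter_upwards [h2.eventually (gt_mem_nhds hδ)] with n hn z hz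
  rw [xt_mkB hz.1, hq n]
  have h3 : dist z 1 < δ := by
    rw [dist_eq_norm, norm_sub_rev]
    exact hz.2.2.trans_lt hn
  have h4 := hδ' (x := z) (by simpa using hz.1.le) h3
  rw [dist_eq_norm] at h4
  have : F z - c' = (F z - F 1) - (c' - F 1) := by ring
  rw [this]
  exact (norm_sub_le _ _).trans (by linarith)

/-- the interpolating functions -/
noncomputable def hQ (b : ℕ → ℂ) (M : ℝ) (hb : ∀ m, ‖b m‖ ≤ M) (R : ℕ → ℕ) (N : ℕ) (hR : Rad R N) : BC :=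
  mkB (SS b R) (SS_diff hb hR) (M * (1 + 6 * (1/2)^N)) (fun _ hz => SS_le hb hR hz)

lemma hQ_norm (b : ℕ → ℂ) (M : ℝ) (hb : ∀ m, ‖b m‖ ≤ M) (R : ℕ → ℕ) (N : ℕ) (hR : Rad R N) :
    ‖hQ b M hb R N hR‖ ≤ M * (1 + 6 * (1/2)^N) := by
  have hM : 0 ≤ M := (norm_nonneg _).trans (hb 0)
  apply norm_le_xt (by positivity)
  intro z hz
  unfold hQ
  rw [xt_mkB hz]
  exact SS_le hb hR hz

lemma hQ_as (om : ℕ → O →+* ℂ) (q : O) (b : ℕ → ℂ) (hbq : ∀ n, b n = om n q) (M : ℝ) (hb : ∀ m, ‖b m‖ ≤ M)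
    (R : ℕ → ℕ) (N : ℕ) (hR : Rad R N) {ε : ℝ} (hε : 0 < ε) : As om (hQ b M hb R N hR) q ε := by
  intro ρ
  have hM : 0 ≤ M := (norm_nonneg _).trans (hb 0)
  rcases Nat.eq_zero_or_pos ρ with h0 | h0
  · subst h0
    filter_upwards with n z hz
    exfalso
    have h1 := hz.2.1
    have h2 := ee_pos n
    simp at h1
    linarith
  have hρ : (0:ℝ) < ρ := by exact_mod_cast h0
  have t1 : Tendsto (fun n : ℕ => ((1:ℝ)/16)^n) atTop (𝓝 0) :=
    tendsto_pow_atTop_nhds_zero_of_lt_one (by norm_num) (by norm_num)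
  have t2 : Tendsto (fun n : ℕ => (ρ:ℝ) * ((1:ℝ)/16)^n) atTop (𝓝 0) := by simpa using t1.const_mul (ρ:ℝ)
  have t3 : Tendsto (fun n : ℕ => (R n : ℝ)) atTop atTop := tendsto_natCast_atTop_atTop.comp hR.lim
  have t4 : Tendsto (fun n : ℕ => M * (2 * ρ / R n) + M * (3 * ρ * (1/16)^n)) atTop (𝓝 0) := by
    have h1 : Tendsto (fun n : ℕ => (2 * (ρ:ℝ)) / R n) atTop (𝓝 0) := tendsto_const_nhds.div_atTop t3
    have h2 := (h1.const_mul M).add ((t1.const_mul (3 * (ρ:ℝ))).const_mul M)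
    simpa using h2
  filter_upwards [t2.eventually (gt_mem_nhds (show (0:ℝ) < 1/2 by norm_num)), t4.eventually (gt_mem_nhds hε),
    hR.lim.eventually_gt_atTop 0] with n h1 h2 h3 z hz
  unfold hQ
  rw [xt_mkB hz.1, ← hbq n]
  exact (SS_zone hb hR hρ hz h1.le h3).trans h2.le

lemma hQ_mem (om : ℕ → O →+* ℂ) (hc : Cst om) (q : O) (b : ℕ → ℂ) (hbq : ∀ n, b n = om n q) (M : ℝ) (hb : ∀ m, ‖b m‖ ≤ M)
    (R : ℕ → ℕ) (N : ℕ) (hR : Rad R N) : hQ b M hb R N hR ∈ XX om hc :=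
  ⟨mkB_mem, fun _ hε => ⟨q, hQ_as om q b hbq M hb R N hR hε⟩⟩

/-- the point of the zone -/
lemma zone_pt (n : ℕ) (hn : 0 < n) (ρ : ℕ) (hρ : 0 < ρ) : Zn n ρ (1 - ee n) := by
  have h0 := ee_pos n
  have h1 : ee n < 1 := by
    unfold ee
    exact pow_lt_one₀ (by norm_num) (by norm_num) (by positivity)
  have hρ' : (1:ℝ) ≤ ρ := by exact_mod_cast hρ
  have e : ‖(1:ℂ) - (1 - (ee n : ℂ))‖ = ee n := by
    rw [sub_sub_cancel, Complex.norm_real, Real.norm_eq_abs, abs_of_pos h0]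
  refine ⟨?_, ?_, ?_⟩
  · have : (1 : ℂ) - (ee n : ℂ) = ((1 - ee n : ℝ) : ℂ) := by push_cast; ring
    rw [this, Complex.norm_real, Real.norm_eq_abs, abs_of_pos (by linarith)]
    linarith
  · rw [e]; nlinarith
  · rw [e]; nlinarith

/-- membership in the ideal J -/
def JJ (f : BC) : Prop := f ∈ HH ∧ ∀ ε : ℝ, 0 < ε → Sm (xt f) ε

lemma JJ.mem {f : BC} (h : JJ f) (om : ℕ → O →+* ℂ) (hc : Cst om) : f ∈ XX om hc :=
  ⟨h.1, fun ε hε => ⟨0, as_zero (h.2 ε hε)⟩⟩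

lemma JJ.mul {f g : BC} (h : JJ g) (hf : f ∈ HH) : JJ (f * g) := by
  refine ⟨mul_mem hf h.1, fun ε hε => ?_⟩
  intro ρ
  have hpos : 0 < ε / (‖f‖ + 1) := by positivity
  filter_upwards [h.2 _ hpos ρ] with n hn z hz
  rw [xt_mul, norm_mul]
  have h1 := xt_le f z
  have h2 := hn z hz
  calc ‖xt f z‖ * ‖xt g z‖ ≤ (‖f‖ + 1) * (ε / (‖f‖ + 1)) := by
        gcongr
        linarith
    _ = ε := by field_simp

end Pool.Agent.Helper401.Gp
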