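import Pool.Agent.Helper401.Gp5

set_option autoImplicit false
open Filter Topology Metric Set

namespace Pool.Agent.Helper401.Gp

variable {O : Type} [CommRing O] {om : ℕ → O →+* ℂ} {hc : Cst om}

instance ne_ball : Nonempty (Metric.ball (0:ℂ) 1) := ⟨⟨0, by simp⟩⟩

instance compl_XX : CompleteSpace (XX om hc) := (XX_closed om hc).completeSpace_coe

instance nrm_XX : NormOneClass (XX om hc) := ⟨by
  change ‖(1 : BC)‖ = 1
  exact norm_one⟩

lemma hom_le (χ : XX om hc →ₐ[ℂ] ℂ) (f : XX om hc) : ‖χ f‖ ≤ ‖f.1‖ := AlgHom.norm_apply_le_self χ f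

/-- vanishing on the ideal J -/
def Van (χ : XX om hc →ₐ[ℂ] ℂ) : Prop := ∀ g : XX om hc, JJ g.1 → χ g = 0

lemma as_one {ε : ℝ} (hε : 0 ≤ ε) : As om 1 1 ε := by
  intro ρ
  filter_upwards with n z hz
  rw [xt_one hz.1, map_one, sub_self, norm_zero]
  exact hε

variable (hc) in
/-- unit bumps -/
noncomputable def EE (R : ℕ → ℕ) (N : ℕ) (hR : Rad R N) : XX om hc :=
  ⟨hQ (fun _ => 1) 1 (fun _ => by simp) R N hR, hQ_mem om hc 1 _ (fun n => by simp) 1 _ R N hR⟩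

lemma xt_EE {R : ℕ → ℕ} {N : ℕ} {hR : Rad R N} {z : ℂ} (hz : ‖z‖ < 1) : xt (EE hc R N hR).1 z = SS (fun _ => 1) R z := by
  have : (EE hc R N hR).1 = hQ (fun _ => 1) 1 (fun _ => by simp) R N hR := rfl
  rw [this]
  unfold hQ
  rw [xt_mkB hz]

lemma EE_as {R : ℕ → ℕ} {N : ℕ} {hR : Rad R N} {ε : ℝ} (hε : 0 < ε) : As om (EE hc R N hR).1 1 ε :=
  hQ_as om 1 (fun _ => 1) (fun n => by simp) 1 (fun _ => by simp) R N hR hε

lemma JJ_of_as {f g : XX om hc} {q : O} (hf : ∀ ε : ℝ, 0 < ε → As om f.1 q ε) (hg : ∀ ε : ℝ, 0 < ε → As om g.1 q ε) :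
    JJ (f - g).1 := by
  refine ⟨(f - g).2.1, fun ε hε => ?_⟩
  have := (hf (ε/2) (half_pos hε)).sub (hg (ε/2) (half_pos hε))
  rw [sub_self, add_halves] at this
  exact this.sm

lemma Van.eq_of_as {χ : XX om hc →ₐ[ℂ] ℂ} (h : Van χ) {f g : XX om hc} {q : O} (hf : ∀ ε : ℝ, 0 < ε → As om f.1 q ε)
    (hg : ∀ ε : ℝ, 0 < ε → As om g.1 q ε) : χ f = χ g := by
  have := h (f - g) (JJ_of_as hf hg)
  rwa [map_sub, sub_eq_zero] at this

lemma Van.EE {χ : XX om hc →ₐ[ℂ] ℂ} (h : Van χ) {R : ℕ → ℕ} {N : ℕ} {hR : Rad R N} : χ (EE hc R N hR) = 1 := by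
  have := h.eq_of_as (f := Gp.EE hc R N hR) (g := 1) (q := 1) (fun ε hε => EE_as hε) (fun ε hε => as_one hε.le)
  rw [this, map_one]

lemma chi_small {χ : XX om hc →ₐ[ℂ] ℂ} (h : Van χ) {g : XX om hc} {ε : ℝ} (hε : 0 ≤ ε) (hg : Sm (xt g.1) ε) :
    ‖χ g‖ ≤ ε := by
  apply le_of_forall_pos_le_add
  intro η hη
  obtain ⟨R, N, hR, -, hb⟩ := lemL (fun z _ => xt_le g.1 z) hε hg hη
  have h1 : χ g = χ (g * EE hc R N hR) := by rw [map_mul, h.EE, mul_one]
  rw [h1]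
  refine (hom_le χ _).trans ?_
  apply norm_le_xt (by positivity)
  intro z hz
  have : xt (g * EE hc R N hR).1 z = xt g.1 z * SS (fun _ => 1) R z := by
    rw [← xt_EE (hc := hc) (hR := hR) hz, ← xt_mul]
    rfl
  rw [this]
  exact hb z hz

lemma case2 {χ ψ : XX om hc →ₐ[ℂ] ℂ} (h : Van χ) {g : XX om hc} (hg : JJ g.1) (hψ : ψ g ≠ 0) {c : ℝ} (hc2 : c < 2) :
    ∃ f : XX om hc, ‖f‖ ≤ 1 ∧ c < ‖χ f - ψ f‖ := by
  have hpos : 0 < ‖ψ g‖ := norm_pos_iff.mpr hψ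
  -- choose eta
  have hcont : ContinuousAt (fun η : ℝ => (2 - 4 * η / ‖ψ g‖) / (1 + η)) 0 := by
    apply ContinuousAt.div (by fun_prop) (by fun_prop) (by norm_num)
  have h0 : (2 - 4 * 0 / ‖ψ g‖) / (1 + 0) = 2 := by simp
  have hev := hcont.tendsto
  rw [h0] at hev
  have hev2 := (hev.eventually (lt_mem_nhds hc2)).filter_mono (nhdsWithin_le_nhds (s := Ioi 0))
  obtain ⟨η, hη1, hη⟩ := (hev2.and self_mem_nhdsWithin).exists
  have hη : 0 < η := hη
  obtain ⟨R, N, hR, hN, hb⟩ := lemL (fun z _ => xt_le g.1 z) hη.le (hg.2 η hη) hη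
  let E := EE hc R N hR
  have hχE : χ E = 1 := h.EE
  have hψE : ‖ψ E‖ ≤ 2 * η / ‖ψ g‖ := by
    rw [le_div_iff₀ hpos, ← norm_mul, ← map_mul]
    refine (hom_le ψ _).trans ?_
    apply norm_le_xt (by positivity)
    intro z hz
    have : xt (E * g).1 z = xt g.1 z * SS (fun _ => 1) R z := by
      rw [← xt_EE (hc := hc) (hR := hR) hz, mul_comm, ← xt_mul]
      rfl
    rw [this]
    linarith [hb z hz]
  have h1η : 0 < 1 + η := by linarith
  have hcn : ‖((1 + η : ℝ) : ℂ)⁻¹‖ = (1 + η)⁻¹ := by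
    rw [norm_inv, Complex.norm_real, Real.norm_eq_abs, abs_of_pos h1η]
  refine ⟨((1 + η : ℝ) : ℂ)⁻¹ • ((2:ℂ) • E - 1), ?_, ?_⟩
  · rw [norm_smul, hcn, inv_mul_le_iff₀ h1η, mul_one]
    change ‖((2:ℂ) • E - 1).1‖ ≤ 1 + η
    apply norm_le_xt h1η.le
    intro z hz
    have : xt ((2:ℂ) • E - 1).1 z = 2 * SS (fun _ => 1) R z - 1 := by
      change xt ((2:ℂ) • E.1 - 1) z = _
      rw [xt_sub, xt_smul, xt_EE hz, xt_one hz]
    rw [this]
    exact (SS_two hR hz).trans (by linarith)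
  · rw [map_smul, map_smul, map_sub, map_sub, map_smul, map_smul, map_one, map_one, hχE]
    simp only [smul_eq_mul]
    have e : ((1 + η : ℝ) : ℂ)⁻¹ * (2 * 1 - 1) - ((1 + η : ℝ) : ℂ)⁻¹ * (2 * ψ E - 1) =
      ((1 + η : ℝ) : ℂ)⁻¹ * (2 - 2 * ψ E) := by ring
    rw [e, norm_mul, hcn]
    refine hη1.trans_le ?_
    rw [div_eq_inv_mul]
    gcongr
    have h5 := norm_sub_norm_le (2:ℂ) (2 * ψ E)
    rw [norm_mul, Complex.norm_ofNat] at h5
    have : 4 * η / ‖ψ g‖ = 2 * (2 * η / ‖ψ g‖) := by ring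
    linarith

/-- Moebius step -/
lemma moeb {χ ψ : XX om hc →ₐ[ℂ] ℂ} {G : XX om hc} (hG : ‖G‖ ≤ 1) {t : ℝ} (ht0 : 0 < t) (ht1 : t < 1) :
    ∃ f : XX om hc, ‖f‖ ≤ 1 ∧ (1 - (t * (starRingEnd ℂ (ψ G))) * χ G) * χ f = χ G - t * ψ G ∧
      (1 - (t * (starRingEnd ℂ (ψ G))) * ψ G) * ψ f = ψ G - t * ψ G := by
  set a : ℂ := t * ψ G with ha
  set a' : ℂ := t * (starRingEnd ℂ (ψ G)) with ha'
  have haa : a' = starRingEnd ℂ a := by rw [ha, map_mul, Complex.conj_ofReal]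
  have hb : ‖ψ G‖ ≤ 1 := (hom_le ψ G).trans hG
  have hna : ‖a‖ < 1 := by
    rw [ha, norm_mul, Complex.norm_real, Real.norm_eq_abs, abs_of_pos ht0]
    nlinarith [norm_nonneg (ψ G)]
  have hna' : ‖a'‖ < 1 := by rw [haa, Complex.norm_conj]; exact hna
  have hsm : ‖a' • G‖ < 1 := by
    rw [norm_smul]
    nlinarith [norm_nonneg a', norm_nonneg G]
  let u := Units.oneSub (a' • G) hsm
  have hu : (u : XX om hc) = 1 - a' • G := Units.val_oneSub _ _
  let f : XX om hc := (↑u⁻¹ : XX om hc) * (G - algebraMap ℂ _ a)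
  have hf : (1 - a' • G) * f = G - algebraMap ℂ _ a := by
    rw [← hu]
    simp only [f]
    rw [← mul_assoc, Units.mul_inv, one_mul]
  refine ⟨f, ?_, ?_, ?_⟩
  · change ‖f.1‖ ≤ 1
    apply norm_le_xt one_pos.le
    intro z hz
    have h1 : (1 - a' * xt G.1 z) * xt f.1 z = xt G.1 z - a := by
      have h2 : xt ((1 - a' • G) * f : XX om hc).1 z = xt (G - algebraMap ℂ (XX om hc) a : XX om hc).1 z :=
        congrArg (fun x : XX om hc => xt x.1 z) hf
      have e1 : ((1 - a' • G) * f : XX om hc).1 = (1 - a' • G.1) * f.1 := rfl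
      have e2 : (G - algebraMap ℂ (XX om hc) a : XX om hc).1 = G.1 - algebraMap ℂ BC a := rfl
      rw [e1, e2, xt_mul, xt_sub, xt_sub, xt_smul, xt_one hz, xt_alg a hz] at h2
      exact h2
    set w := xt G.1 z with hw
    have hw1 : ‖w‖ ≤ 1 := (xt_le G.1 z).trans hG
    have h3 : ‖w - a‖ ≤ ‖1 - a' * w‖ := by
      rw [haa, ← sq_le_sq₀ (norm_nonneg _) (norm_nonneg _), ← Complex.normSq_eq_norm_sq, ← Complex.normSq_eq_norm_sq,
        Complex.normSq_apply, Complex.normSq_apply]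
      have h4 : w.re^2 + w.im^2 ≤ 1 := by
        have := Complex.normSq_eq_norm_sq w
        rw [Complex.normSq_apply] at this
        nlinarith [norm_nonneg w]
      have h5 : a.re^2 + a.im^2 ≤ 1 := by
        have := Complex.normSq_eq_norm_sq a
        rw [Complex.normSq_apply] at this
        nlinarith [norm_nonneg a]
      simp only [Complex.sub_re, Complex.sub_im, Complex.one_re, Complex.one_im, Complex.mul_re, Complex.mul_im,
        Complex.conj_re, Complex.conj_im]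
      nlinarith [mul_nonneg (sub_nonneg.mpr h4) (sub_nonneg.mpr h5)]
    have h6 : 0 < ‖1 - a' * w‖ := by
      have := norm_sub_norm_le (1:ℂ) (a' * w)
      rw [norm_one, norm_mul] at this
      have : ‖a'‖ * ‖w‖ < 1 := by nlinarith [norm_nonneg a', norm_nonneg w]
      linarith
    have h7 : ‖1 - a' * w‖ * ‖xt f.1 z‖ = ‖w - a‖ := by rw [← norm_mul, h1]
    by_contra hlt
    push Not at hlt
    nlinarith
  · have := congrArg χ hf
    rw [map_mul, map_sub, map_sub, map_smul, map_one, AlgHom.commutes] at this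
    simpa using this
  · have := congrArg ψ hf
    rw [map_mul, map_sub, map_sub, map_smul, map_one, AlgHom.commutes] at this
    simpa using this

/-- from pseudo-hyperbolic distance one to norm distance two -/
lemma dist_two {χ ψ : XX om hc →ₐ[ℂ] ℂ} (h : ∀ η : ℝ, 0 < η → ∃ G : XX om hc, ‖G‖ ≤ 1 ∧ ‖χ G‖ ≤ η ∧ 1 - η ≤ ‖ψ G‖)
    {c : ℝ} (hc2 : c < 2) : ∃ f : XX om hc, ‖f‖ ≤ 1 ∧ c < ‖χ f - ψ f‖ := by
  obtain ⟨t, ht1, ht2⟩ := exists_between (show max (c - 1) (1/2) < 1 from max_lt (by linarith) (by norm_num))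
  have htc : c - 1 < t := (le_max_left _ _).trans_lt ht1
  have ht0 : 1/2 < t := (le_max_right _ _).trans_lt ht1
  -- function of eta
  have hcont : ContinuousAt (fun η : ℝ => (1 - η) * ((1 - t) / (1 - t * (1 - η)^2) + t) - 2 * η) 0 := by
    have : (1 - t * (1 - (0:ℝ))^2) ≠ 0 := by
      have : (1 - t * (1 - (0:ℝ))^2) = 1 - t := by ring
      rw [this]; linarith
    have h1 : ContinuousAt (fun η : ℝ => (1 - t) / (1 - t * (1 - η)^2)) 0 :=
      ContinuousAt.div (by fun_prop) (by fun_prop) this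
    exact ((by fun_prop : ContinuousAt (fun η : ℝ => 1 - η) 0).mul (h1.add continuousAt_const)).sub (by fun_prop)
  have h0 : (1 - (0:ℝ)) * ((1 - t) / (1 - t * (1 - (0:ℝ))^2) + t) - 2 * (0:ℝ) = 1 + t := by
    have : 1 - t ≠ 0 := by linarith
    simp only [sub_zero, one_pow, mul_one, one_mul, mul_zero]
    rw [div_self this]
  have hev := hcont.tendsto
  rw [h0] at hev
  have hev2 := (hev.eventually (lt_mem_nhds (show c < 1 + t by linarith))).filter_mono (nhdsWithin_le_nhds (s := Ioi 0))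
  have hev3 : ∀ᶠ η : ℝ in 𝓝[>] 0, η < 1/2 := nhdsWithin_le_nhds (gt_mem_nhds (by norm_num))
  obtain ⟨η, ⟨hη1, hη2⟩, hη⟩ := ((hev2.and hev3).and self_mem_nhdsWithin).exists
  have hη : 0 < η := hη
  obtain ⟨G, hG, hα, hβ⟩ := h η hη
  obtain ⟨f, hf, e1, e2⟩ := moeb (χ := χ) (ψ := ψ) hG (by linarith) ht2
  refine ⟨f, hf, hη1.trans_le ?_⟩
  set α := χ G with hαd
  set β := ψ G with hβd
  have hb : ‖β‖ ≤ 1 := (hom_le ψ G).trans hG
  have htn : ‖(t:ℂ)‖ = t := by rw [Complex.norm_real, Real.norm_eq_abs, abs_of_pos (by linarith)]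
  -- psi f
  have hbb : (starRingEnd ℂ β) * β = ((‖β‖^2 : ℝ) : ℂ) := by
    rw [mul_comm, Complex.mul_conj, Complex.normSq_eq_norm_sq]
  have hb2 : ‖β‖^2 ≤ 1 := pow_le_one₀ (norm_nonneg _) hb
  have hden : 0 < 1 - t * ‖β‖^2 := by
    have : t * ‖β‖^2 ≤ t * 1 := mul_le_mul_of_nonneg_left hb2 (by linarith)
    linarith
  have e3 : ψ f = β * (((1 - t) / (1 - t * ‖β‖^2) : ℝ) : ℂ) := by
    have hne : ((1 - t * ‖β‖^2 : ℝ) : ℂ) ≠ 0 := by exact_mod_cast hden.ne'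
    have e4 : (1 - t * (starRingEnd ℂ β) * β) = ((1 - t * ‖β‖^2 : ℝ) : ℂ) := by
      rw [mul_assoc, hbb]; push_cast; ring
    rw [e4] at e2
    have : ψ f = (β - t * β) / ((1 - t * ‖β‖^2 : ℝ) : ℂ) := by
      rw [eq_div_iff hne, mul_comm]; exact e2
    rw [this]
    push_cast
    rw [mul_div_assoc']
    congr 1
    ring
  -- chi f + t beta
  have e5 : ‖χ f + t * β‖ ≤ 2 * η := by
    have e6 : (1 - t * (starRingEnd ℂ β) * α) * (χ f + t * β) = α * (1 - t^2 * ((‖β‖^2 : ℝ) : ℂ)) := by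
      rw [mul_add, e1, ← hbb]; ring
    have e7 : ‖t * (starRingEnd ℂ β) * α‖ ≤ η := by
      rw [norm_mul, norm_mul, htn, Complex.norm_conj]
      calc t * ‖β‖ * ‖α‖ ≤ 1 * 1 * η := by gcongr
        _ = η := by ring
    have e8 : 1 - η ≤ ‖1 - t * (starRingEnd ℂ β) * α‖ := by
      have := norm_sub_norm_le (1:ℂ) (t * (starRingEnd ℂ β) * α)
      rw [norm_one] at this
      linarith
    have e9 : ‖(1 - t^2 * ((‖β‖^2 : ℝ) : ℂ))‖ ≤ 1 := by
      have : (1 - t^2 * ((‖β‖^2 : ℝ) : ℂ)) = ((1 - t^2 * ‖β‖^2 : ℝ) : ℂ) := by push_cast; ring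
      rw [this, Complex.norm_real, Real.norm_eq_abs, abs_of_nonneg]
      · nlinarith [sq_nonneg (t * ‖β‖)]
      · have : t * ‖β‖ ≤ 1 := by nlinarith [norm_nonneg β]
        have : 0 ≤ t * ‖β‖ := by positivity
        nlinarith
    have e10 : ‖1 - t * (starRingEnd ℂ β) * α‖ * ‖χ f + t * β‖ ≤ η := by
      rw [← norm_mul, e6, norm_mul]
      calc ‖α‖ * ‖(1 - t^2 * ((‖β‖^2 : ℝ) : ℂ))‖ ≤ η * 1 := by gcongr
        _ = η := mul_one _
    have e11 : (1 - η) * ‖χ f + t * β‖ ≤ η := by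
      refine le_trans ?_ e10
      gcongr
    nlinarith [norm_nonneg (χ f + t * β)]
  -- conclusion
  have e12 : χ f - ψ f = (χ f + t * β) - (ψ f + t * β) := by ring
  have e13 : ψ f + t * β = β * (((1 - t) / (1 - t * ‖β‖^2) + t : ℝ) : ℂ) := by
    rw [e3]; push_cast; ring
  have e14 : (1 - η) * ((1 - t) / (1 - t * (1 - η)^2) + t) ≤ ‖ψ f + t * β‖ := by
    have hq : 0 < (1 - t) / (1 - t * ‖β‖^2) + t := by
      have : 0 < (1 - t) / (1 - t * ‖β‖^2) := div_pos (by linarith) hden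
      linarith
    rw [e13, norm_mul, Complex.norm_real, Real.norm_eq_abs, abs_of_pos hq]
    have h1 : (1 - η)^2 ≤ ‖β‖^2 := by
      have : 0 ≤ 1 - η := by linarith
      gcongr
    have h2 : (1 - t) / (1 - t * (1 - η)^2) ≤ (1 - t) / (1 - t * ‖β‖^2) := by
      have h3 : 0 ≤ 1 - t := by linarith
      have ht : 0 ≤ t := by linarith
      apply div_le_div_of_nonneg_left h3 hden
      nlinarith
    have h4 : 0 ≤ (1 - t) / (1 - t * (1 - η)^2) := by
      have : 0 < 1 - t * (1 - η)^2 := by nlinarith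
      exact div_nonneg (by linarith) this.le
    have h5 : 0 ≤ (1 - t) / (1 - t * (1 - η)^2) + t := by linarith
    gcongr
  have e15 := norm_sub_norm_le (ψ f + t * β) (χ f + t * β)
  rw [e12, norm_sub_rev]
  linarith

end Pool.Agent.Helper401.Gp
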