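import Pool.Agent.Helper401.Gp6

set_option autoImplicit false
open Filter Topology Metric Set

namespace Pool.Agent.Helper401.Gp

variable {O : Type} [CommRing O] {om : ℕ → O →+* ℂ} {hc : Cst om}

/-- exact symbol -/
def Sym (f : XX om hc) (q : O) : Prop := ∀ ε : ℝ, 0 < ε → As om f.1 q ε

lemma Sym.sub {f g : XX om hc} {p q : O} (hf : Sym f p) (hg : Sym g q) : Sym (f - g) (p - q) := by
  intro ε hε
  have := (hf (ε/2) (half_pos hε)).sub (hg (ε/2) (half_pos hε))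
  rwa [add_halves] at this

lemma Sym.mul {f g : XX om hc} {p q : O} (hf : Sym f p) (hg : Sym g q) : Sym (f * g) (p * q) := by
  intro ε hε
  have hpos : 0 < ‖f.1‖ + ‖g.1‖ + 2 := by positivity
  have hδ : 0 < min 1 (ε / (‖f.1‖ + ‖g.1‖ + 2)) := lt_min one_pos (by positivity)
  refine ((hf _ hδ).mul (min_le_left _ _) (hg _ hδ)).mono ?_
  have h1 : min 1 (ε / (‖f.1‖ + ‖g.1‖ + 2)) ≤ ε / (‖f.1‖ + ‖g.1‖ + 2) := min_le_right _ _
  rw [le_div_iff₀ hpos] at h1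
  have := norm_nonneg f.1
  nlinarith

lemma Sym.one : Sym (1 : XX om hc) 1 := fun _ hε => as_one hε.le

lemma Sym.pow {f : XX om hc} {q : O} (hf : Sym f q) (n : ℕ) : Sym (f^n) (q^n) := by
  induction n with
  | zero => simpa using Sym.one
  | succ k ih => rw [pow_succ, pow_succ]; exact ih.mul hf

lemma Sym.const {c : ℂ} {q : O} (h : ∀ n, om n q = c) : Sym (algebraMap ℂ (XX om hc) c) q := by
  intro ε hε ρ
  filter_upwards with n z hz
  have : xt (algebraMap ℂ (XX om hc) c).1 z = c := xt_alg c hz.1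
  rw [this, h n, sub_self, norm_zero]
  exact hε.le

lemma Van.eq_of_sym {χ : XX om hc →ₐ[ℂ] ℂ} (h : Van χ) {f g : XX om hc} {q : O} (hf : Sym f q) (hg : Sym g q) :
    χ f = χ g := h.eq_of_as hf hg

variable (hc) in
lemma exists_sym (g : O) (M : ℝ) (hM : ∀ n, ‖om n g‖ ≤ M) (N : ℕ) :
    ∃ f : XX om hc, Sym f g ∧ ‖f‖ ≤ M * (1 + 6 * (1/2)^N) ∧
      ∀ z, ‖z‖ < 1 → xt f.1 z = SS (fun n => om n g) (Rst N) z := by
  refine ⟨⟨hQ (fun n => om n g) M hM (Rst N) N (rad_st N), hQ_mem om hc g _ (fun n => rfl) M hM _ N (rad_st N)⟩,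
    fun ε hε => hQ_as om g _ (fun n => rfl) M hM _ N (rad_st N) hε, ?_, ?_⟩
  · exact hQ_norm _ M hM _ N (rad_st N)
  · intro z hz
    change xt (hQ (fun n => om n g) M hM (Rst N) N (rad_st N)) z = _
    unfold hQ
    rw [xt_mkB hz]

lemma exists_root (sq : ∀ f : O, ∃ g, g * g = f) (q : O) (j : ℕ) : ∃ g, g^(2^j) = q := by
  induction j with
  | zero => exact ⟨q, by simp⟩
  | succ k ih =>
    obtain ⟨g, hg⟩ := ih
    obtain ⟨g', hg'⟩ := sq g
    refine ⟨g', ?_⟩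
    rw [pow_succ 2 k, mul_comm, pow_mul, pow_two, hg', hg]

lemma case1_aux {χ ψ : XX om hc →ₐ[ℂ] ℂ} (h1 : Van χ) (h2 : Van ψ) (hne : χ ≠ ψ)
    (bdd : ∀ f, ∃ C : ℝ, ∀ n, ‖om n f‖ ≤ C) (sq : ∀ f : O, ∃ g, g * g = f) {η : ℝ} (hη : 0 < η) (hη2 : η ≤ 1/2) :
    ∃ G : XX om hc, ‖G‖ ≤ 1 ∧ ‖χ G‖ ≤ η ∧ 1 - 3 * η ≤ ‖ψ G‖ := by
  obtain ⟨h, hh⟩ : ∃ h, χ h ≠ ψ h := by
    by_contra hcon
    push Not at hcon
    exact hne (AlgHom.ext hcon)
  set d := ‖χ h - ψ h‖ with hd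
  have hd0 : 0 < d := norm_pos_iff.mpr (sub_ne_zero.mpr hh)
  obtain ⟨q, hq⟩ := h.2.2 (d/8) (by positivity)
  obtain ⟨C, hC⟩ := bdd q
  have hC0 : 0 ≤ C := (norm_nonneg _).trans (hC 0)
  obtain ⟨f, hf, -, -⟩ := exists_sym hc q C hC 0
  have hsm : Sm (xt (h - f).1) (d/4) := by
    have := hq.sub (hf (d/8) (by positivity))
    rw [sub_self] at this
    have h3 : d/8 + d/8 = d/4 := by ring
    rw [h3] at this
    exact this.sm
  have k1 := chi_small h1 (by positivity) hsm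
  have k2 := chi_small h2 (by positivity) hsm
  rw [map_sub] at k1 k2
  have k3 : d/2 ≤ ‖χ f - ψ f‖ := by
    have e : χ h - ψ h = (χ h - χ f) - (ψ h - ψ f) + (χ f - ψ f) := by ring
    have : d ≤ ‖χ h - χ f‖ + ‖ψ h - ψ f‖ + ‖χ f - ψ f‖ := by
      rw [hd, e]
      exact (norm_add_le _ _).trans (add_le_add (norm_sub_le _ _) le_rfl)
    linarith
  set C1 := C + ‖χ f‖ + 1 with hC1
  obtain ⟨j1, hj1⟩ := pow_unbounded_of_one_lt C1 (show 1 < 1 + η by linarith)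
  obtain ⟨j2, hj2⟩ := exists_pow_lt_of_lt_one (show 0 < d/4 by positivity) (show 1 - η < 1 by linarith)
  set j := max j1 j2 with hj
  have hjle : j ≤ 2^j := (Nat.lt_two_pow_self (n := j)).le
  have hCj : C1 ≤ (1 + η)^(2^j) := by
    refine hj1.le.trans ?_
    exact pow_le_pow_right₀ (by linarith) ((le_max_left _ _).trans hjle)
  have hdj : (1 - η)^(2^j) ≤ d/4 := by
    refine le_trans ?_ hj2.le
    exact pow_le_pow_of_le_one (by linarith) (by linarith) ((le_max_right _ _).trans hjle)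
  set δ := min 1 (min (d/4) (η^(2^j))) with hδ
  have hδ0 : 0 < δ := lt_min one_pos (lt_min (by positivity) (by positivity))
  obtain ⟨q', c', hc', hq'⟩ := hc (χ f) δ hδ0
  have hc1 : ‖c'‖ ≤ ‖χ f‖ + 1 := by
    have := norm_add_le (c' - χ f) (χ f)
    rw [sub_add_cancel] at this
    have : δ ≤ 1 := min_le_left _ _
    linarith
  obtain ⟨g, hg⟩ := exists_root sq (q - q') j
  have hgn : ∀ n, ‖om n g‖ ≤ 1 + η := by
    intro n
    have e1 : ‖om n g‖^(2^j) ≤ (1 + η)^(2^j) := by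
      rw [← norm_pow, ← map_pow, hg, map_sub, hq' n]
      refine (norm_sub_le _ _).trans ?_
      have := hC n
      linarith
    exact le_of_pow_le_pow_left₀ (by positivity) (by linarith) e1
  obtain ⟨N, hN⟩ := exists_pow_lt_of_lt_one (show 0 < η/6 by positivity) (by norm_num : (1/2 : ℝ) < 1)
  obtain ⟨G0, hG0, hG0n, -⟩ := exists_sym hc g (1 + η) hgn N
  have hnorm : ‖G0‖ ≤ (1 + η)^2 := by
    refine hG0n.trans ?_
    rw [pow_two]
    have : 6 * (1/2 : ℝ)^N ≤ η := by linarith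
    gcongr
  have hf0 : Sym (f - algebraMap ℂ (XX om hc) c') (q - q') := hf.sub (Sym.const hq')
  have hGp : Sym (G0^(2^j)) (q - q') := by
    have := hG0.pow (2^j)
    rwa [hg] at this
  have e1 : (χ G0)^(2^j) = χ f - c' := by
    rw [← map_pow, h1.eq_of_sym hGp hf0, map_sub, AlgHom.commutes]
    rfl
  have e2 : (ψ G0)^(2^j) = ψ f - c' := by
    rw [← map_pow, h2.eq_of_sym hGp hf0, map_sub, AlgHom.commutes]
    rfl
  have hχ : ‖χ G0‖ ≤ η := by
    have : ‖χ G0‖^(2^j) ≤ η^(2^j) := by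
      rw [← norm_pow, e1, norm_sub_rev]
      exact hc'.trans ((min_le_right _ _).trans (min_le_right _ _))
    exact le_of_pow_le_pow_left₀ (by positivity) hη.le this
  have hψ : 1 - η ≤ ‖ψ G0‖ := by
    have : (1 - η)^(2^j) ≤ ‖ψ G0‖^(2^j) := by
      rw [← norm_pow, e2]
      refine hdj.trans ?_
      have e3 : χ f - ψ f = - (c' - χ f) - (ψ f - c') := by ring
      have e4 : ‖χ f - ψ f‖ ≤ ‖c' - χ f‖ + ‖ψ f - c'‖ := by
        rw [e3]
        refine (norm_sub_le _ _).trans ?_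
        rw [norm_neg]
      have e5 : δ ≤ d/4 := (min_le_right _ _).trans (min_le_left _ _)
      linarith
    exact le_of_pow_le_pow_left₀ (by positivity) (norm_nonneg _) this
  have hs : 0 < (1 + η)^2 := by positivity
  have hcn : ‖(((1 + η)^2 : ℝ) : ℂ)⁻¹‖ = ((1 + η)^2)⁻¹ := by
    rw [norm_inv, Complex.norm_real, Real.norm_eq_abs, abs_of_pos hs]
  have hone : 1 ≤ (1 + η)^2 := by nlinarith
  refine ⟨(((1 + η)^2 : ℝ) : ℂ)⁻¹ • G0, ?_, ?_, ?_⟩
  · rw [norm_smul, hcn, inv_mul_le_iff₀ hs, mul_one]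
    exact hnorm
  · rw [map_smul, smul_eq_mul, norm_mul, hcn, inv_mul_le_iff₀ hs]
    nlinarith
  · rw [map_smul, smul_eq_mul, norm_mul, hcn, le_inv_mul_iff₀ hs]
    have : (1 + η)^2 * (1 - 3 * η) ≤ 1 - η := by nlinarith [pow_pos hη 2, pow_pos hη 3]
    linarith

lemma case1 {χ ψ : XX om hc →ₐ[ℂ] ℂ} (h1 : Van χ) (h2 : Van ψ) (hne : χ ≠ ψ)
    (bdd : ∀ f, ∃ C : ℝ, ∀ n, ‖om n f‖ ≤ C) (sq : ∀ f : O, ∃ g, g * g = f) {c : ℝ} (hc2 : c < 2) :
    ∃ f : XX om hc, ‖f‖ ≤ 1 ∧ c < ‖χ f - ψ f‖ := by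
  apply dist_two _ hc2
  intro η hη
  have hη' : 0 < min (η/3) (1/2) := lt_min (by positivity) (by norm_num)
  obtain ⟨G, hG, h3, h4⟩ := case1_aux h1 h2 hne bdd sq hη' (min_le_right _ _)
  have h5 : min (η/3) (1/2) ≤ η/3 := min_le_left _ _
  exact ⟨G, hG, by linarith, by linarith⟩

/-- separation -/
lemma sep {χ ψ : XX om hc →ₐ[ℂ] ℂ} (h1 : Van χ) (hne : χ ≠ ψ)
    (bdd : ∀ f, ∃ C : ℝ, ∀ n, ‖om n f‖ ≤ C) (sq : ∀ f : O, ∃ g, g * g = f) {c : ℝ} (hc2 : c < 2) :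
    ∃ f : XX om hc, ‖f‖ ≤ 1 ∧ c < ‖χ f - ψ f‖ := by
  by_cases h2 : Van ψ
  · exact case1 h1 h2 hne bdd sq hc2
  · unfold Van at h2
    push Not at h2
    obtain ⟨g, hg, hg'⟩ := h2
    exact case2 h1 hg hg' hc2

/-- extension of characters not vanishing on J -/
lemma ext_hom {χ : XX om hc →ₐ[ℂ] ℂ} {g : XX om hc} (hg : JJ g.1) (hχ : χ g ≠ 0) :
    ∃ ρ : HH →ₐ[ℂ] ℂ, ∀ (f : BC) (hX : f ∈ XX om hc) (hH : f ∈ HH), ρ ⟨f, hH⟩ = χ ⟨f, hX⟩ := by
  let T : HH → XX om hc := fun h => ⟨h.1 * g.1, (hg.mul h.2).mem om hc⟩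
  have hT1 : T 1 = g := by
    apply Subtype.ext
    change (1 : BC) * g.1 = g.1
    rw [one_mul]
  have hTmul : ∀ x y, T (x * y) * g = T x * T y := by
    intro x y
    apply Subtype.ext
    change (x.1 * y.1 * g.1) * g.1 = (x.1 * g.1) * (y.1 * g.1)
    ring
  have hTadd : ∀ x y, T (x + y) = T x + T y := by
    intro x y
    apply Subtype.ext
    change (x.1 + y.1) * g.1 = x.1 * g.1 + y.1 * g.1
    ring
  have hTc : ∀ c : ℂ, T (algebraMap ℂ HH c) = c • g := by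
    intro c
    apply Subtype.ext
    change (algebraMap ℂ BC c) * g.1 = c • g.1
    rw [Algebra.smul_def]
  let ρ : HH →ₐ[ℂ] ℂ :=
    { toFun := fun h => χ (T h) / χ g
      map_one' := by rw [hT1, div_self hχ]
      map_mul' := by
        intro x y
        have := congrArg χ (hTmul x y)
        rw [map_mul, map_mul] at this
        field_simp
        exact this
      map_zero' := by
        have : T 0 = 0 := by
          apply Subtype.ext
          change (0 : BC) * g.1 = 0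
          rw [zero_mul]
        rw [this, map_zero, zero_div]
      map_add' := by
        intro x y
        rw [hTadd, map_add, add_div]
      commutes' := by
        intro c
        rw [hTc, map_smul, smul_eq_mul, mul_div_assoc, div_self hχ, mul_one]
        rfl }
  refine ⟨ρ, fun f hX hH => ?_⟩
  change χ (T ⟨f, hH⟩) / χ g = _
  have : T ⟨f, hH⟩ = ⟨f, hX⟩ * g := rfl
  rw [this, map_mul, mul_div_assoc, div_self hχ, mul_one]

end Pool.Agent.Helper401.Gp
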