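import Pool.Agent.Helper401.Gp7

set_option autoImplicit false
open Filter Topology Metric Set

namespace Pool.Agent.Helper401.Gp

variable {O : Type} [CommRing O] {om : ℕ → O →+* ℂ} {hc : Cst om}

/-- value of the extra character -/
def Va (m0 : O →+* ℂ) (h : XX om hc) (c : ℂ) : Prop :=
  ∀ ε : ℝ, 0 < ε → ∃ q, As om h.1 q ε ∧ ‖m0 q - c‖ ≤ ε

lemma m0_close {m0 : O →+* ℂ} (nrm : ∀ f, ∀ ε : ℝ, 0 < ε → ∀ N, ∃ n, N ≤ n ∧ ‖m0 f‖ - ε ≤ ‖om n f‖)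
    {h : XX om hc} {q q' : O} {ε ε' : ℝ} (h1 : As om h.1 q ε) (h2 : As om h.1 q' ε') :
    ‖m0 q - m0 q'‖ ≤ ε + ε' := by
  apply le_of_forall_pos_le_add
  intro δ hδ
  obtain ⟨N1, hN1⟩ := eventually_atTop.mp (h1 1)
  obtain ⟨N2, hN2⟩ := eventually_atTop.mp (h2 1)
  obtain ⟨n, hn, hn'⟩ := nrm (q - q') δ hδ (max 1 (max N1 N2))
  have hz := zone_pt n (le_of_max_le_left hn) 1 one_pos
  have e1 := hN1 n ((le_max_left _ _).trans (le_of_max_le_right hn)) _ hz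
  have e2 := hN2 n ((le_max_right _ _).trans (le_of_max_le_right hn)) _ hz
  rw [map_sub, map_sub] at hn'
  have e3 : om n q - om n q' = (xt h.1 (1 - ee n) - om n q') - (xt h.1 (1 - ee n) - om n q) := by ring
  have e4 := norm_sub_le (xt h.1 (1 - ee n) - om n q') (xt h.1 (1 - ee n) - om n q)
  rw [← e3] at e4
  linarith

lemma Va.exists {m0 : O →+* ℂ} (nrm : ∀ f, ∀ ε : ℝ, 0 < ε → ∀ N, ∃ n, N ≤ n ∧ ‖m0 f‖ - ε ≤ ‖om n f‖)
    (h : XX om hc) : ∃ c, Va m0 h c := by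
  have hpick : ∀ j : ℕ, ∃ q, As om h.1 q (1 / ((j:ℝ) + 1)) := fun j => h.2.2 _ (by positivity)
  choose q hq using hpick
  have hcau : CauchySeq (fun j => m0 (q j)) := by
    rw [Metric.cauchySeq_iff']
    intro ε hε
    obtain ⟨k, hk⟩ := exists_nat_one_div_lt (half_pos hε)
    refine ⟨k, fun n hn => ?_⟩
    rw [dist_eq_norm]
    have h2 : 1 / ((n:ℝ)+1) ≤ 1 / ((k:ℝ)+1) := by
      apply one_div_le_one_div_of_le (by positivity)
      have : (k:ℝ) ≤ n := by exact_mod_cast hn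
      linarith
    have := m0_close nrm (hq n) (hq k)
    linarith
  obtain ⟨c, hcl⟩ := cauchySeq_tendsto_of_complete hcau
  refine ⟨c, fun ε hε => ?_⟩
  rw [Metric.tendsto_atTop] at hcl
  obtain ⟨N, hN⟩ := hcl ε hε
  obtain ⟨k, hk⟩ := exists_nat_one_div_lt hε
  refine ⟨q (max N k), (hq _).mono ?_, ?_⟩
  · refine le_trans ?_ hk.le
    apply one_div_le_one_div_of_le (by positivity)
    have : (k:ℝ) ≤ ((max N k : ℕ) : ℝ) := by exact_mod_cast le_max_right _ _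
    linarith
  · have := hN (max N k) (le_max_left _ _)
    rw [dist_eq_norm] at this
    exact this.le

lemma Va.unique {m0 : O →+* ℂ} (nrm : ∀ f, ∀ ε : ℝ, 0 < ε → ∀ N, ∃ n, N ≤ n ∧ ‖m0 f‖ - ε ≤ ‖om n f‖)
    {h : XX om hc} {c c' : ℂ} (h1 : Va m0 h c) (h2 : Va m0 h c') : c = c' := by
  apply eq_of_forall_dist_le
  intro ε hε
  obtain ⟨q, hq, hq'⟩ := h1 (ε/4) (by positivity)
  obtain ⟨p, hp, hp'⟩ := h2 (ε/4) (by positivity)
  have := m0_close nrm hq hp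
  rw [dist_eq_norm]
  have e : c - c' = -(m0 q - c) + (m0 p - c') + (m0 q - m0 p) := by ring
  rw [e]
  refine (norm_add_le _ _).trans ?_
  refine (add_le_add_left (norm_add_le _ _) _).trans ?_
  rw [norm_neg]
  linarith

lemma Va.add {m0 : O →+* ℂ} {h h' : XX om hc} {c c' : ℂ} (h1 : Va m0 h c) (h2 : Va m0 h' c') :
    Va m0 (h + h') (c + c') := by
  intro ε hε
  obtain ⟨q, hq, hq'⟩ := h1 (ε/2) (half_pos hε)
  obtain ⟨p, hp, hp'⟩ := h2 (ε/2) (half_pos hε)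
  refine ⟨q + p, ?_, ?_⟩
  · have := hq.add hp
    rwa [add_halves] at this
  · rw [map_add]
    have e : m0 q + m0 p - (c + c') = (m0 q - c) + (m0 p - c') := by ring
    rw [e]
    exact (norm_add_le _ _).trans (by linarith)

lemma Va.mul {m0 : O →+* ℂ} {h h' : XX om hc} {c c' : ℂ} (h1 : Va m0 h c) (h2 : Va m0 h' c') :
    Va m0 (h * h') (c * c') := by
  intro ε hε
  have hpos : 0 < ‖h.1‖ + ‖h'.1‖ + 2 + ‖c‖ + ‖c'‖ := by positivity
  set δ := min 1 (ε / (‖h.1‖ + ‖h'.1‖ + 2 + ‖c‖ + ‖c'‖)) with hδd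
  have hδ : 0 < δ := lt_min one_pos (by positivity)
  have hδ1 : δ ≤ 1 := min_le_left _ _
  have hδ2 : δ * (‖h.1‖ + ‖h'.1‖ + 2 + ‖c‖ + ‖c'‖) ≤ ε := by
    rw [← le_div_iff₀ hpos]; exact min_le_right _ _
  have n1 := norm_nonneg h.1
  have n2 := norm_nonneg h'.1
  have n3 := norm_nonneg c
  have n4 := norm_nonneg c'
  obtain ⟨q, hq, hq'⟩ := h1 δ hδ
  obtain ⟨p, hp, hp'⟩ := h2 δ hδ
  refine ⟨q * p, (hq.mul hδ1 hp).mono ?_, ?_⟩
  · nlinarith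
  · rw [map_mul]
    have e : m0 q * m0 p - c * c' = m0 q * (m0 p - c') + c' * (m0 q - c) := by ring
    rw [e]
    refine (norm_add_le _ _).trans ?_
    rw [norm_mul, norm_mul]
    have h5 : ‖m0 q‖ ≤ ‖c‖ + 1 := by
      have := norm_add_le (m0 q - c) c
      rw [sub_add_cancel] at this
      linarith
    have h6 : ‖m0 q‖ * ‖m0 p - c'‖ ≤ (‖c‖ + 1) * δ := by gcongr
    have h7 : ‖c'‖ * ‖m0 q - c‖ ≤ ‖c'‖ * δ := by gcongr
    nlinarith

lemma Va.const {m0 : O →+* ℂ} (cst : ∀ c : ℂ, ∀ ε : ℝ, 0 < ε → ∃ q : O, ∃ c' : ℂ, ‖c' - c‖ ≤ ε ∧ (∀ n, om n q = c') ∧ m0 q = c')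
    (c : ℂ) : Va m0 (algebraMap ℂ (XX om hc) c) c := by
  intro ε hε
  obtain ⟨q, c', h1, h2, h3⟩ := cst c ε hε
  refine ⟨q, ?_, by rw [h3]; exact h1⟩
  intro ρ
  filter_upwards with n z hz
  have : xt (algebraMap ℂ (XX om hc) c).1 z = c := xt_alg c hz.1
  rw [this, h2 n, norm_sub_rev]
  exact h1

lemma Va.of_sym {m0 : O →+* ℂ} {h : XX om hc} {q : O} (hs : Sym h q) : Va m0 h (m0 q) := by
  intro ε hε
  exact ⟨q, hs ε hε, by simp [hε.le]⟩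

variable (hc) in
lemma exists_chi0 {m0 : O →+* ℂ} (nrm : ∀ f, ∀ ε : ℝ, 0 < ε → ∀ N, ∃ n, N ≤ n ∧ ‖m0 f‖ - ε ≤ ‖om n f‖)
    (cst : ∀ c : ℂ, ∀ ε : ℝ, 0 < ε → ∃ q : O, ∃ c' : ℂ, ‖c' - c‖ ≤ ε ∧ (∀ n, om n q = c') ∧ m0 q = c') :
    ∃ χ : XX om hc →ₐ[ℂ] ℂ, ∀ h q, Sym h q → χ h = m0 q := by
  choose v hv using fun h : XX om hc => Va.exists nrm h
  let χ : XX om hc →ₐ[ℂ] ℂ :=
    { toFun := v
      map_one' := Va.unique nrm (hv 1) (by have := Va.const (hc := hc) cst 1; rwa [map_one] at this)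
      map_mul' := fun x y => Va.unique nrm (hv _) ((hv x).mul (hv y))
      map_zero' := Va.unique nrm (hv 0) (by have := Va.const (hc := hc) cst 0; rwa [map_zero] at this)
      map_add' := fun x y => Va.unique nrm (hv _) ((hv x).add (hv y))
      commutes' := fun c => Va.unique nrm (hv _) (Va.const cst c) }
  exact ⟨χ, fun h q hs => Va.unique nrm (hv h) (Va.of_sym hs)⟩

lemma not_dense {m0 : O →+* ℂ} {T : O} (hT : ∀ n, ‖om n T‖ = 1) (hT0 : ‖m0 T‖ ≤ 1/2)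
    (nrm : ∀ f, ∀ ε : ℝ, 0 < ε → ∀ N, ∃ n, N ≤ n ∧ ‖m0 f‖ - ε ≤ ‖om n f‖)
    (cst : ∀ c : ℂ, ∀ ε : ℝ, 0 < ε → ∃ q : O, ∃ c' : ℂ, ‖c' - c‖ ≤ ε ∧ (∀ n, om n q = c') ∧ m0 q = c') :
    ¬ Dense {φ : WeakDual.characterSpace ℂ (XX om hc) |
          ∃ z : Metric.ball (0:ℂ) 1, ∀ f : XX om hc, φ f = f.1 z} := by
  intro hd
  obtain ⟨χ, hχ⟩ := exists_chi0 hc nrm cst
  obtain ⟨fT, hfT, -, hfTv⟩ := exists_sym hc T 1 (fun n => (hT n).le) 6
  obtain ⟨fE, hfE, -, hfEv⟩ := exists_sym hc 1 1 (fun n => by simp) 6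
  let χ0 : WeakDual.characterSpace ℂ (XX om hc) := WeakDual.CharacterSpace.equivAlgHom.symm χ
  have hχ0 : ∀ f, χ0 f = χ f := fun f => rfl
  let V : Set (WeakDual.characterSpace ℂ (XX om hc)) := {φ | ‖φ fT - m0 T‖ < 1/10} ∩ {φ | ‖φ fE - 1‖ < 1/10}
  have hev : ∀ f : XX om hc, Continuous (fun φ : WeakDual.characterSpace ℂ (XX om hc) => φ f) := by
    intro f
    exact (WeakDual.eval_continuous f).comp continuous_subtype_val
  have hV : IsOpen V :=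
    (isOpen_lt ((hev fT).sub continuous_const).norm continuous_const).inter
      (isOpen_lt ((hev fE).sub continuous_const).norm continuous_const)
  have hmem : χ0 ∈ V := by
    refine ⟨?_, ?_⟩
    · change ‖χ0 fT - m0 T‖ < 1/10
      rw [hχ0, hχ fT T hfT, sub_self, norm_zero]; norm_num
    · change ‖χ0 fE - 1‖ < 1/10
      rw [hχ0, hχ fE 1 hfE, map_one, sub_self, norm_zero]; norm_num
  obtain ⟨φ, ⟨z, hz⟩, hφ1, hφ2⟩ := hd.exists_mem_open hV ⟨χ0, hmem⟩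
  have hz1 : ‖(z:ℂ)‖ < 1 := mem_ball_zero_iff.mp z.2
  have hφ1 : ‖φ fT - m0 T‖ < 1/10 := hφ1
  have hφ2 : ‖φ fE - 1‖ < 1/10 := hφ2
  rw [hz, ← xt_val, hfTv _ hz1] at hφ1
  rw [hz, ← xt_val, hfEv _ hz1] at hφ2
  obtain ⟨n, hn⟩ := exists_star hz1
  have a1 := (SS_star (b := fun n => om n T) (M := 1) (fun n => (hT n).le) (rad_st 6) hn).2
  have a2 := (SS_star (b := fun n => om n 1) (M := 1) (fun n => by simp) (rad_st 6) hn).2
  simp only [map_one, one_mul] at a2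
  simp only [map_one] at hφ2
  set k := K n (Rst 6 n) z with hk
  set s1 := SS (fun _ => (1:ℂ)) (Rst 6) z
  set sT := SS (fun n => om n T) (Rst 6) z
  have b0 : (6:ℝ) * (1/2)^6 ≤ 1/10 := by norm_num
  have b1 : 8/10 ≤ ‖k‖ := by
    have e : (1:ℂ) = k + (s1 - k) - (s1 - 1) := by ring
    have e1 : ‖(1:ℂ)‖ ≤ ‖k‖ + ‖s1 - k‖ + ‖s1 - 1‖ := by
      conv_lhs => rw [e]
      exact (norm_sub_le _ _).trans (add_le_add (norm_add_le _ _) le_rfl)
    rw [norm_one] at e1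
    linarith
  have b2 : ‖om n T * k‖ = ‖k‖ := by rw [norm_mul, hT, one_mul]
  have b3 : ‖om n T * k‖ ≤ ‖sT - om n T * k‖ + ‖sT - m0 T‖ + ‖m0 T‖ := by
    have e : om n T * k = - (sT - om n T * k) + (sT - m0 T) + m0 T := by ring
    conv_lhs => rw [e]
    refine (norm_add_le _ _).trans (add_le_add ?_ le_rfl)
    refine (norm_add_le _ _).trans (add_le_add ?_ le_rfl)
    rw [norm_neg]
  linarith

/-- complete bounded analytic functions -/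
instance compl_HH : CompleteSpace HH :=
  (isClosed_of_closure_subset (fun _ hf => HH_closed_aux hf) : IsClosed (HH : Set BC)).completeSpace_coe

end Pool.Agent.Helper401.Gp
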